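import Pool.Agent.Lib.MP_35454f_h77.Dom

/-!
# Charts at boundary points: uniqueness
-/

set_option autoImplicit false

open MeasureTheory Filter Topology Complex Set
open UpperHalfPlane hiding I
open scoped ContDiff Manifold MatrixGroups

namespace Pool.Agent.CG

variable {Γ : Subgroup SL(2, ℝ)} {S : Set ℂ}

/-- The real part of a Möbius transformation. -/
lemma re_mob (g : SL(2, ℝ)) {v : ℂ} (hv : v ∈ UU) : (mob g v).re * normSq (den g v) =
    g 0 0 * g 1 0 * (v.re ^ 2 + v.im ^ 2) + (g 0 0 * g 1 1 + g 0 1 * g 1 0) * v.re +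
      g 0 1 * g 1 1 := by
  have hd := den_ne (g := g) hv
  have hn : normSq (den g v) ≠ 0 := by simpa using hd
  rw [mob, div_re, ← add_div, div_mul_cancel₀ _ hn]
  simp only [den, add_re, add_im, mul_re, mul_im, ofReal_re, ofReal_im, zero_mul, add_zero,
    sub_zero]
  ring

lemma Ch.not_interior {h : SL(2, ℝ)} {z : ℂ} (hz : z ∈ UU) (hc : Ch S h z) : z ∉ interior S := by
  intro hi
  have h2 : Tendsto (cur h z (-1)) (𝓝[>] 0) (𝓝 z) :=
    (cur_tendsto h hz (-1)).mono_left nhdsWithin_le_nhds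
  have h3 : ∀ᶠ s in 𝓝[>] (0:ℝ), cur h z (-1) s ∈ interior S ∧
      (cur h z (-1) s ∈ S ↔ 0 ≤ (mob h (cur h z (-1) s)).re) :=
    h2.eventually (Filter.Eventually.and
      (show ∀ᶠ w in 𝓝 z, w ∈ interior S from isOpen_interior.mem_nhds hi) hc.2)
  have h4 := (mob_cur h hz (-1)).filter_mono (nhdsWithin_le_nhds (s := Ioi 0))
  obtain ⟨s, ⟨hs, hs1⟩, hs', hs0⟩ := (h3.and (h4.and self_mem_nhdsWithin)).exists
  have h5 := hs1.mp (interior_subset hs)
  rw [hs'] at h5
  have h6 : (mob h z + s • (-1 : ℂ)).re = -s := by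
    simp [hc.1]
  rw [h6] at h5
  have : (0:ℝ) < s := hs0
  linarith

/-- Two charts at the same boundary point differ by a homothety. -/
lemma Ch.unique {h h1 : SL(2, ℝ)} {z : ℂ} (hz : z ∈ UU) (hc : Ch S h z) (hc1 : Ch S h1 z) :
    ∃ a : ℝ, 0 < a ∧ ∀ w ∈ UU, (mob h1 w).re = a * (mob h w).re := by
  set g : SL(2, ℝ) := h1 * h⁻¹ with hg
  have hgm : ∀ w ∈ UU, mob h1 w = mob g (mob h w) := by
    intro w hw
    rw [← mob_mul g h hw, hg, inv_mul_cancel_right]
  set w0 := mob h z with hw0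
  have hw0U : w0 ∈ UU := mob_mem hz
  have hre0 : w0.re = 0 := hc.1
  have hdet := det_eq g
  -- transport of the equivalence
  have H : ∀ᶠ v in 𝓝 w0, (0 ≤ v.re ↔ 0 ≤ g 0 0 * g 1 0 * (v.re ^ 2 + v.im ^ 2) +
      (g 0 0 * g 1 1 + g 0 1 * g 1 0) * v.re + g 0 1 * g 1 1) := by
    have h2 : ∀ᶠ w in 𝓝 z, (0 ≤ (mob h w).re ↔ 0 ≤ (mob h1 w).re) := by
      filter_upwards [hc.2, hc1.2] with w ha hb
      rw [← ha, hb]
    have h3 : Tendsto (mob h⁻¹) (𝓝 w0) (𝓝 z) := by
      have := (continuousAt_mob h⁻¹ hw0U).tendsto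
      rwa [hw0, mob_inv_mob h hz] at this
    filter_upwards [h3.eventually h2, isOpen_UU.mem_nhds hw0U] with v hv hvU
    rw [hgm _ (mob_mem hvU), mob_mob_inv h hvU] at hv
    rw [hv, ← re_mob g hvU]
    have hn : 0 < normSq (den g v) := normSq_pos.mpr (den_ne hvU)
    constructor
    · intro h5; exact mul_nonneg h5 hn.le
    · intro h5
      by_contra h6
      push Not at h6
      have := mul_neg_of_neg_of_pos h6 hn
      linarith
  obtain ⟨δ, hδ, hball⟩ := Metric.eventually_nhds_iff.mp H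
  set y0 := w0.im with hy0
  have hy0p : 0 < y0 := hw0U
  set a := g 0 0
  set b := g 0 1
  set c := g 1 0
  set d := g 1 1
  have key : ∀ x y : ℝ, |x| < δ / 2 → |y| < δ / 2 →
      (0 ≤ x ↔ 0 ≤ a * c * (x ^ 2 + (y0 + y) ^ 2) + (a * d + b * c) * x + b * d) := by
    intro x y hx hy
    have h2 := hball (y := (⟨x, y0 + y⟩ : ℂ)) ?_
    · exact h2
    · rw [Complex.dist_eq]
      refine (Complex.norm_le_abs_re_add_abs_im _).trans_lt ?_
      have e1 : ((⟨x, y0 + y⟩ : ℂ) - w0).re = x := by simp [hre0]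
      have e2 : ((⟨x, y0 + y⟩ : ℂ) - w0).im = y := by simp [hy0]
      rw [e1, e2]
      linarith
  have hzero : ∀ y : ℝ, |y| < δ / 2 → a * c * (y0 + y) ^ 2 + b * d = 0 := by
    intro y hy
    have h1 : 0 ≤ a * c * (y0 + y) ^ 2 + b * d := by
      have := (key 0 y (by simpa using (half_pos hδ)) hy).mp le_rfl
      nlinarith
    refine le_antisymm ?_ h1
    have h2 : Tendsto (fun s : ℝ => a * c * ((-s) ^ 2 + (y0 + y) ^ 2) + (a * d + b * c) * (-s) +
        b * d) (𝓝[>] 0) (𝓝 (a * c * ((-0) ^ 2 + (y0 + y) ^ 2) + (a * d + b * c) * (-0) + b * d)) :=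
      (Continuous.tendsto (by fun_prop) 0).mono_left nhdsWithin_le_nhds
    have h3 : a * c * ((-0) ^ 2 + (y0 + y) ^ 2) + (a * d + b * c) * (-0) + b * d ≤ 0 := by
      refine le_of_tendsto h2 ?_
      have h4 : ∀ᶠ s : ℝ in 𝓝[>] 0, s < δ / 2 :=
        (gt_mem_nhds (half_pos hδ)).filter_mono nhdsWithin_le_nhds
      filter_upwards [h4, self_mem_nhdsWithin] with s hs hs0
      have hs0' : (0:ℝ) < s := hs0
      by_contra hcon
      push Not at hcon
      have := (key (-s) y (by rw [abs_neg, abs_of_pos hs0']; exact hs) hy).mpr hcon.le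
      linarith
    simpa using h3
  have hac : a * c = 0 := by
    have h1 := hzero 0 (by simpa using half_pos hδ)
    have h2 := hzero (δ / 4) (by rw [abs_of_pos (by positivity)]; linarith)
    have h3 : a * c * ((y0 + δ / 4) ^ 2 - (y0 + 0) ^ 2) = 0 := by linear_combination h2 - h1
    rcases mul_eq_zero.mp h3 with h4 | h4
    · exact h4
    · exfalso
      nlinarith
  have hbd : b * d = 0 := by
    have h1 := hzero 0 (by simpa using half_pos hδ)
    rw [hac] at h1
    linarith
  by_cases hc0 : c = 0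
  · have had : a * d = 1 := by rw [hc0] at hdet; linarith
    have hd0 : d ≠ 0 := fun h0 => by rw [h0] at had; simp at had
    have hb0 : b = 0 := by
      rcases mul_eq_zero.mp hbd with h4 | h4
      · exact h4
      · exact absurd h4 hd0
    refine ⟨1 / d ^ 2, by positivity, fun w hw => ?_⟩
    have h5 := re_mob g (mob_mem (g := h) hw)
    rw [← hgm w hw] at h5
    change (mob h1 w).re * normSq (den g (mob h w)) = a * c * _ + (a * d + b * c) * _ + b * d at h5
    have h6 : normSq (den g (mob h w)) = d ^ 2 := by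
      have : den g (mob h w) = (d : ℂ) := by
        change ((c : ℝ) : ℂ) * _ + ((d : ℝ) : ℂ) = _
        rw [hc0]; simp
      rw [this, normSq_ofReal]; ring
    rw [h6, hac, hbd, had, hb0] at h5
    field_simp
    linarith
  · exfalso
    have ha0 : a = 0 := by
      rcases mul_eq_zero.mp hac with h4 | h4
      · exact h4
      · exact absurd h4 hc0
    have hbc : b * c = -1 := by rw [ha0] at hdet; linarith
    have hb0 : b ≠ 0 := fun h0 => by rw [h0] at hbc; simp at hbc
    have hd0 : d = 0 := by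
      rcases mul_eq_zero.mp hbd with h4 | h4
      · exact absurd h4 hb0
      · exact h4
    have h5 := (key (δ / 4) 0 (by rw [abs_of_pos (by positivity)]; linarith)
      (by simpa using half_pos hδ)).mp (by positivity)
    rw [ha0, hd0] at h5
    nlinarith

end Pool.Agent.CG
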