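import Pool.Agent.Lib.MP_35454f_h77.BRot
import Pool.Agent.Lib.MP_35454f_h77.Chart

/-!
# Motions at the boundary of the domain
-/

set_option autoImplicit false

open MeasureTheory Filter Topology Complex Set
open UpperHalfPlane hiding I
open scoped ContDiff Manifold MatrixGroups Interval

namespace Pool.Agent.CG

variable {Γ : Subgroup SL(2, ℝ)} {S : Set ℂ} {m : Met Γ} {F G : ℝ → ℂ → ℂ}
  {p : ℝ → ℂ → ℝ} {κ : ℝ}

lemma Ch.eventually_ch {g : SL(2, ℝ)} {z : ℂ} (hc : Ch S g z) :
    ∀ᶠ w in 𝓝 z, (mob g w).re = 0 → Ch S g w := by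
  filter_upwards [eventually_eventually_nhds.mpr hc.2] with w hw h0 using ⟨h0, hw⟩

/-- A boundary particle stays on one geodesic. -/
lemma BEul.chart_path (h : BEul m S F G p) {g : SL(2, ℝ)} {z : ℂ} (hz : z ∈ UU) (hc : Ch S g z)
    (t : ℝ) : Ch S g (F t z) := by
  have hzS : z ∈ S := hc.mem
  have hzi : z ∉ interior S := hc.not_interior hz
  have hcont : Continuous fun t => F t z := h.c1F.co.slice_t hz
  have hmS : ∀ t, F t z ∈ S := fun t => h.memS t z hzS
  have hmU : ∀ t, F t z ∈ UU := fun t => h.mem t z hz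
  have hmi : ∀ t, F t z ∉ interior S := fun t => h.bdy t z hzS hzi
  have hop : IsOpen {t | Ch S g (F t z)} := by
    rw [isOpen_iff_mem_nhds]
    intro t ht
    have h1 := hcont.continuousAt.eventually ((show Ch S g (F t z) from ht).near (hmU t))
    filter_upwards [h1] with s hs using hs (hmS s) (hmi s)
  have hcl : IsClosed {t | Ch S g (F t z)} := by
    rw [isClosed_iff_frequently]
    intro t ht
    obtain ⟨h1, hc1⟩ := h.dom.bd _ (hmS t) (hmi t)
    have h2 := hcont.continuousAt.eventually (hc1.near (hmU t))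
    obtain ⟨s, hs, hs1⟩ := (ht.and_eventually h2).exists
    obtain ⟨a, ha, hu⟩ := Ch.unique (hmU s) (show Ch S g (F s z) from hs) (hs1 (hmS s) (hmi s))
    refine ⟨?_, ?_⟩
    · have h3 := hu _ (hmU t)
      rw [hc1.1] at h3
      rcases mul_eq_zero.mp h3.symm with h4 | h4
      · exact absurd h4 ha.ne'
      · exact h4
    · filter_upwards [hc1.2, isOpen_UU.mem_nhds (hmU t)] with w hw hwU
      rw [hw, hu w hwU]
      constructor
      · intro h5
        by_contra h6
        push Not at h6
        have := mul_neg_of_pos_of_neg ha h6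
        linarith
      · intro h5; exact mul_nonneg ha.le h5
  have : {t | Ch S g (F t z)} = univ :=
    IsClopen.eq_univ ⟨hcl, hop⟩ ⟨0, by
      change Ch S g (F 0 z)
      rw [h.start z hzS]; exact hc⟩
  have ht : t ∈ {t | Ch S g (F t z)} := by rw [this]; trivial
  exact ht

/-- The velocity of a boundary particle is tangent to the boundary. -/
lemma BEul.tangent (h : BEul m S F G p) {g : SL(2, ℝ)} {z : ℂ} (hz : z ∈ UU) (hc : Ch S g z)
    (t : ℝ) : (G t z / (den g (F t z)) ^ 2).re = 0 := by
  have h1 : HasDerivAt (fun s => (mob g (F s z)).re) (drh g (F t z) (G t z)) t :=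
    HasFDerivAt.comp_hasDerivAt (l := fun w => (mob g w).re) (f := fun s => F s z) t
      (hasFDerivAt_rh g (h.mem t z hz)) (h.dF t z hz)
  have h2 : (fun s => (mob g (F s z)).re) = fun _ => 0 := by
    ext s
    exact (h.chart_path hz hc s).1
  rw [h2] at h1
  have h3 := h1.unique (hasDerivAt_const t 0)
  rwa [drh_apply] at h3

/-- The integral of a one-form over the closed path of a boundary particle vanishes. -/
lemma BEul.int_form (h : BEul m S F G p) {L : ℂ → ℂ →L[ℝ] ℝ} (hL : ContinuousOn L UU)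
    {g : SL(2, ℝ)} {z : ℂ} (hz : z ∈ UU) (hc : Ch S g z) {T : ℝ} (hT : F T z = F 0 z) :
    ∫ t in (0:ℝ)..T, L (F t z) (G t z) = 0 := by
  set y : ℝ → ℝ := fun t => (mob g (F t z)).im with hy
  have hmU : ∀ t, F t z ∈ UU := fun t => h.mem t z hz
  have hypos : ∀ t, 0 < y t := fun t => mob_mem (hmU t)
  have hmob : ∀ t, mob g (F t z) = (y t : ℂ) * I := by
    intro t
    have h1 := (h.chart_path hz hc t).1
    apply Complex.ext
    · simp [h1]
    · simp [hy]
  have hyd : ∀ t, HasDerivAt y ((G t z / (den g (F t z)) ^ 2).im) t := by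
    intro t
    have h1 : HasDerivAt (fun s => mob g (F s z)) (1 / (den g (F t z)) ^ 2 * G t z) t :=
      (hasDerivAt_mob g (hmU t)).comp_of_eq t (h.dF t z hz) rfl
    have h2 := imCLM.hasFDerivAt.comp_hasDerivAt t h1
    refine h2.congr_deriv ?_
    simp only [imCLM_apply]
    congr 1
    ring
  -- the direction of the geodesic
  set γ : ℝ → ℂ := fun u => mob g⁻¹ ((u : ℂ) * I) with hγ
  set γ' : ℝ → ℂ := fun u => I / (den g⁻¹ ((u : ℂ) * I)) ^ 2 with hγ'
  have hUI : ∀ u : ℝ, 0 < u → ((u : ℂ) * I) ∈ UU := by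
    intro u hu
    simpa [UU] using hu
  have hFγ : ∀ t, F t z = γ (y t) := by
    intro t
    simp only [hγ]
    rw [← hmob t, mob_inv_mob g (hmU t)]
  have hG : ∀ t, G t z = ((G t z / (den g (F t z)) ^ 2).im : ℝ) • γ' (y t) := by
    intro t
    have hd := den_ne (g := g) (hmU t)
    have h1 := h.tangent hz hc t
    have h2 : G t z / (den g (F t z)) ^ 2 = (((G t z / (den g (F t z)) ^ 2).im : ℝ) : ℂ) * I := by
      apply Complex.ext
      · simp [h1]
      · simp
    have h3 : den g⁻¹ ((y t : ℂ) * I) * den g (F t z) = 1 := by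
      rw [← hmob t]; exact den_inv g (hmU t)
    have h4 : den g⁻¹ ((y t : ℂ) * I) ≠ 0 := den_ne (hUI _ (hypos t))
    simp only [hγ']
    rw [real_smul]
    have h5 : (1:ℂ) / (den g⁻¹ ((y t : ℂ) * I)) ^ 2 = (den g (F t z)) ^ 2 := by
      rw [div_eq_iff (pow_ne_zero 2 h4)]
      have : (den g⁻¹ ((y t : ℂ) * I) * den g (F t z)) ^ 2 = 1 := by rw [h3]; ring
      linear_combination -this
    rw [div_eq_mul_one_div I, h5]
    rw [div_eq_iff (pow_ne_zero 2 hd)] at h2
    linear_combination h2
  have hγc : ContinuousOn γ (Ioi 0) := by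
    refine ContinuousOn.comp (g := mob g⁻¹) (f := fun u : ℝ => (u : ℂ) * I) (continuousOn_mob g⁻¹)
      (by fun_prop) fun u hu => hUI u hu
  have hγ'c : ContinuousOn γ' (Ioi 0) := by
    refine ContinuousOn.div continuousOn_const ?_ fun u hu => pow_ne_zero 2 (den_ne (hUI u hu))
    unfold den
    fun_prop
  have hq : ContinuousOn (fun u => L (γ u) (γ' u)) (Ioi 0) :=
    (hL.comp hγc fun u hu => mob_mem (hUI u hu)).clm_apply hγ'c
  have hyc : Continuous y := by
    rw [continuous_iff_continuousAt]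
    exact fun t => (hyd t).continuousAt
  have hy'c : Continuous fun t => (G t z / (den g (F t z)) ^ 2).im := by
    refine continuous_im.comp ?_
    refine Continuous.div (h.c1G.co.slice_t hz) ?_ fun t => pow_ne_zero 2 (den_ne (hmU t))
    have := h.c1F.co.slice_t hz
    unfold den
    fun_prop
  have h6 := intervalIntegral.integral_comp_mul_deriv'' (a := 0) (b := T) (f := y)
    (f' := fun t => (G t z / (den g (F t z)) ^ 2).im) (g := fun u => L (γ u) (γ' u))
    hyc.continuousOn (fun t _ => (hyd t).hasDerivWithinAt) hy'c.continuousOn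
    (hq.mono (by rintro _ ⟨t, -, rfl⟩; exact hypos t))
  have h7 : y T = y 0 := by simp only [hy]; rw [hT]
  rw [h7, intervalIntegral.integral_same] at h6
  refine Eq.trans ?_ h6
  refine intervalIntegral.integral_congr fun t _ => ?_
  simp only [Function.comp_apply]
  conv_lhs => rw [hG t, map_smul, hFγ t]
  rw [smul_eq_mul, mul_comm]
  congr 2
  rw [← hFγ t]

/-- The area function vanishes on the boundary. -/
lemma BEul.ar_bdy (h : BEul m S F G p) (c : BCert m S κ) {g : SL(2, ℝ)} {z : ℂ} (hz : z ∈ UU)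
    (hc : Ch S g z) {T : ℝ} (hT : F T z = F 0 z) : bar c F G T z = 0 := by
  have hL : ContinuousOn (fun z => c.M1 z • imCLM - c.M2 z • reCLM) UU :=
    (c.hM1.continuousOn.smul continuousOn_const).sub (c.hM2.continuousOn.smul continuousOn_const)
  have h1 := h.int_form hL hz hc hT
  rw [bar]
  refine Eq.trans ?_ h1
  refine intervalIntegral.integral_congr fun t _ => ?_
  simp [bau]

end Pool.Agent.CG
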