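import Pool.Agent.Lib.MP_35454f_h77.BBdry

/-!
# Motions at the boundary of the domain: the differential, the boundary values of the forms
-/

set_option autoImplicit false

open MeasureTheory Filter Topology Complex Set
open UpperHalfPlane hiding I
open scoped ContDiff Manifold MatrixGroups Interval

namespace Pool.Agent.CG

variable {Γ : Subgroup SL(2, ℝ)} {S : Set ℂ} {m : Met Γ} {F G : ℝ → ℂ → ℂ}
  {p : ℝ → ℂ → ℝ} {κ : ℝ}

/-- The positively oriented tangent vector `-i (den h z)²` of the boundary. -/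
noncomputable def tau (g : SL(2, ℝ)) (z : ℂ) : ℂ := (den g z) ^ 2 * (-I)

lemma wedge_drh (g : SL(2, ℝ)) {z : ℂ} (hz : z ∈ UU) (β : ℂ →L[ℝ] ℝ) :
    wedge (drh g z) β = -(β (tau g z) / normSq (den g z) ^ 2) := by
  have hd := den_ne (g := g) hz
  have hn : normSq (den g z) ≠ 0 := by simpa using hd
  rw [wedge, drh_apply, drh_apply, clm_eq β (tau g z), tau]
  set D := den g z
  have e0 : (1:ℂ) / D ^ 2 = (((normSq D ^ 2)⁻¹ : ℝ) : ℂ) * starRingEnd ℂ (D ^ 2) := by
    rw [ofReal_inv, ofReal_pow, normSq_eq_conj_mul_self, map_pow]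
    have : starRingEnd ℂ D ≠ 0 := by simpa using hd
    field_simp
  have e1 : ((1:ℂ) / D ^ 2).re = (D ^ 2).re / normSq D ^ 2 := by
    rw [e0, re_ofReal_mul, conj_re]
    ring
  have e2 : (I / D ^ 2).re = (D ^ 2).im / normSq D ^ 2 := by
    rw [div_eq_mul_one_div, e0, mul_left_comm, re_ofReal_mul]
    have : (I * starRingEnd ℂ (D ^ 2)).re = (D ^ 2).im := by
      rw [mul_re, Complex.I_re, Complex.I_im, conj_im]
      ring
    rw [this]
    ring
  rw [e1, e2]
  simp only [mul_re, mul_im, neg_re, neg_im, Complex.I_re, Complex.I_im]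
  field_simp
  ring

/-- boundary points near a boundary point -/
lemma Ch.cur_bdry {g : SL(2, ℝ)} {z : ℂ} (hz : z ∈ UU) (hc : Ch S g z) :
    ∀ᶠ s in 𝓝 (0:ℝ), Ch S g (cur g z (-I) s) := by
  have h1 := (cur_tendsto g hz (-I)).eventually hc.eventually_ch
  filter_upwards [h1, mob_cur g hz (-I)] with s hs hs'
  apply hs
  rw [hs']
  simp [hc.1]

/-- The tangential derivative of the position at a boundary point is tangent to the boundary. -/
lemma BEul.dF_tau_re (h : BEul m S F G p) {g : SL(2, ℝ)} {z : ℂ} (hz : z ∈ UU) (hc : Ch S g z)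
    (t : ℝ) : (fderiv ℝ (F t) z (tau g z) / (den g (F t z)) ^ 2).re = 0 := by
  have h0 : HasDerivAt (fun s => F t (cur g z (-I) s)) (fderiv ℝ (F t) z (tau g z)) 0 := by
    have h1 : HasFDerivAt (F t) (fderiv ℝ (F t) z) (cur g z (-I) 0) := by
      rw [cur_zero g hz]; exact h.c1F.hasFDerivAt t hz
    exact h1.comp_hasDerivAt 0 (hasDerivAt_cur g hz (-I))
  have h1 : HasDerivAt (fun s => (mob g (F t (cur g z (-I) s))).re)
      (drh g (F t z) (fderiv ℝ (F t) z (tau g z))) 0 := by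
    have h2 : HasFDerivAt (fun w => (mob g w).re) (drh g (F t z)) (F t (cur g z (-I) 0)) := by
      rw [cur_zero g hz]; exact hasFDerivAt_rh g (h.mem t z hz)
    exact HasFDerivAt.comp_hasDerivAt (l := fun w => (mob g w).re)
      (f := fun s => F t (cur g z (-I) s)) 0 h2 h0
  have h2 : (fun s => (mob g (F t (cur g z (-I) s))).re) =ᶠ[𝓝 0] fun _ => 0 := by
    filter_upwards [hc.cur_bdry hz, cur_mem g hz (-I)] with s hs hsU
    exact (h.chart_path hsU hs t).1
  have h3 := (h1.congr_of_eventuallyEq h2.symm).unique (hasDerivAt_const (0:ℝ) (0:ℝ))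
  rwa [drh_apply] at h3

/-- The derivative of the tangency condition along the boundary. -/
lemma BEul.dG_tau_re (h : BEul m S F G p) {g : SL(2, ℝ)} {z : ℂ} (hz : z ∈ UU) (hc : Ch S g z)
    (t : ℝ) : (fderiv ℝ (G t) z (tau g z) / (den g (F t z)) ^ 2).re =
      (2 * ((g 1 0 : ℝ) : ℂ) * fderiv ℝ (F t) z (tau g z) * G t z / (den g (F t z)) ^ 3).re := by
  have hFU := h.mem t z hz
  have hd := den_ne (g := g) hFU
  have h0 : HasDerivAt (fun s => F t (cur g z (-I) s)) (fderiv ℝ (F t) z (tau g z)) 0 := by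
    have h1 : HasFDerivAt (F t) (fderiv ℝ (F t) z) (cur g z (-I) 0) := by
      rw [cur_zero g hz]; exact h.c1F.hasFDerivAt t hz
    exact h1.comp_hasDerivAt 0 (hasDerivAt_cur g hz (-I))
  have h0G : HasDerivAt (fun s => G t (cur g z (-I) s)) (fderiv ℝ (G t) z (tau g z)) 0 := by
    have h1 : HasFDerivAt (G t) (fderiv ℝ (G t) z) (cur g z (-I) 0) := by
      rw [cur_zero g hz]; exact h.c1G.hasFDerivAt t hz
    exact h1.comp_hasDerivAt 0 (hasDerivAt_cur g hz (-I))
  have hD : HasDerivAt (fun s => den g (F t (cur g z (-I) s)))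
      (((g 1 0 : ℝ) : ℂ) * fderiv ℝ (F t) z (tau g z)) 0 :=
    (hasDerivAt_den g (F t z)).comp_of_eq 0 h0 (by rw [cur_zero g hz])
  have hq : HasDerivAt (fun s => G t (cur g z (-I) s) / (den g (F t (cur g z (-I) s))) ^ 2)
      (fderiv ℝ (G t) z (tau g z) / (den g (F t z)) ^ 2 -
        2 * ((g 1 0 : ℝ) : ℂ) * fderiv ℝ (F t) z (tau g z) * G t z / (den g (F t z)) ^ 3) 0 := by
    refine (h0G.fun_div (hD.fun_pow 2) (pow_ne_zero 2 (by rw [cur_zero g hz]; exact hd))).congr_deriv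
      ?_
    rw [cur_zero g hz]
    field_simp
    push_cast
    ring
  have h1 := reCLM.hasFDerivAt.comp_hasDerivAt 0 hq
  have h2 : (fun s => (G t (cur g z (-I) s) / (den g (F t (cur g z (-I) s))) ^ 2).re) =ᶠ[𝓝 0]
      fun _ => 0 := by
    filter_upwards [hc.cur_bdry hz, cur_mem g hz (-I)] with s hs hsU
    exact h.tangent hsU hs t
  have h3 := (h1.congr_of_eventuallyEq h2.symm).unique (hasDerivAt_const (0:ℝ) (0:ℝ))
  simp only [reCLM_apply, sub_re] at h3
  linarith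

/-- The differential at a boundary point maps inward vectors to inward vectors. -/
lemma BEul.dF_inward (h : BEul m S F G p) {g : SL(2, ℝ)} {z : ℂ} (hz : z ∈ UU) (hc : Ch S g z)
    (t : ℝ) : 0 ≤ (fderiv ℝ (F t) z ((den g z) ^ 2) / (den g (F t z)) ^ 2).re := by
  have h0 : HasDerivAt (fun s => F t (cur g z 1 s)) (fderiv ℝ (F t) z ((den g z) ^ 2 * 1)) 0 := by
    have h1 : HasFDerivAt (F t) (fderiv ℝ (F t) z) (cur g z 1 0) := by
      rw [cur_zero g hz]; exact h.c1F.hasFDerivAt t hz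
    exact h1.comp_hasDerivAt 0 (hasDerivAt_cur g hz 1)
  rw [mul_one] at h0
  have h1 : HasDerivAt (fun s => (mob g (F t (cur g z 1 s))).re)
      (drh g (F t z) (fderiv ℝ (F t) z ((den g z) ^ 2))) 0 := by
    have h2 : HasFDerivAt (fun w => (mob g w).re) (drh g (F t z)) (F t (cur g z 1 0)) := by
      rw [cur_zero g hz]; exact hasFDerivAt_rh g (h.mem t z hz)
    exact HasFDerivAt.comp_hasDerivAt (l := fun w => (mob g w).re)
      (f := fun s => F t (cur g z 1 s)) 0 h2 h0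
  have hF0 : Tendsto (fun s => F t (cur g z 1 s)) (𝓝 0) (𝓝 (F t z)) := by
    have := h0.continuousAt.tendsto
    rwa [cur_zero g hz] at this
  have h2 : ∀ᶠ s in 𝓝[>] (0:ℝ), 0 ≤ (mob g (F t (cur g z 1 s))).re := by
    have h3 := hF0.eventually (h.chart_path hz hc t).2
    have h4 := (cur_tendsto g hz 1).eventually hc.2
    filter_upwards [h3.filter_mono nhdsWithin_le_nhds, h4.filter_mono nhdsWithin_le_nhds,
      (mob_cur g hz 1).filter_mono nhdsWithin_le_nhds, self_mem_nhdsWithin] with s hs hs4 hsm hs0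
    have hs0' : (0:ℝ) < s := hs0
    refine hs.mp (h.memS t _ (hs4.mpr ?_))
    rw [hsm]
    simp [hc.1, hs0'.le]
  have h5 : (mob g (F t (cur g z 1 0))).re = 0 := by
    rw [cur_zero g hz]; exact (h.chart_path hz hc t).1
  have h6 : Tendsto (fun s : ℝ => s⁻¹ * ((mob g (F t (cur g z 1 s))).re -
      (mob g (F t (cur g z 1 0))).re)) (𝓝[>] 0) (𝓝 (drh g (F t z) (fderiv ℝ (F t) z ((den g z) ^ 2)))) := by
    have := h1.tendsto_slope_zero_right
    simpa using this
  rw [drh_apply] at h6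
  refine ge_of_tendsto h6 ?_
  filter_upwards [h2, self_mem_nhdsWithin] with s hs hs0
  have hs0' : (0:ℝ) < s := hs0
  rw [h5, sub_zero]
  exact mul_nonneg (inv_nonneg.mpr hs0'.le) hs

/-- At a boundary point the tangential derivative of the position is a positive multiple of the
tangent vector. -/
lemma BEul.dF_tau (h : BEul m S F G p) {g : SL(2, ℝ)} {z : ℂ} (hz : z ∈ UU) (hc : Ch S g z)
    (t : ℝ) : ∃ l : ℝ, 0 < l ∧ fderiv ℝ (F t) z (tau g z) = (l : ℂ) * tau g (F t z) := by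
  have hFU := h.mem t z hz
  have hd := den_ne (g := g) hFU
  have hd0 := den_ne (g := g) hz
  have h1 := h.dF_tau_re hz hc t
  have h2 := h.dF_inward hz hc t
  set D := den g (F t z) with hD
  set D0 := den g z with hD0
  set A := fderiv ℝ (F t) z (tau g z) with hA
  set B := fderiv ℝ (F t) z (D0 ^ 2) with hB
  set l : ℝ := -(A / D ^ 2).im with hl
  have hAl : A = (l : ℂ) * tau g (F t z) := by
    have h3 : A / D ^ 2 = (l : ℂ) * (-I) := by
      apply Complex.ext
      · simp [h1]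
      · simp [hl]
    rw [div_eq_iff (pow_ne_zero 2 hd)] at h3
    rw [h3, tau]
    ring
  refine ⟨l, ?_, hAl⟩
  -- the determinant
  have hdet := wedge_comp_mul (dRe F t z) (dIm F t z) (D0 ^ 2)
  rw [h.wXY t hc.mem] at hdet
  have hpos : 0 < normSq (D0 ^ 2) * (m.ρ z / m.ρ (F t z)) :=
    mul_pos (normSq_pos.mpr (pow_ne_zero 2 hd0)) (div_pos (m.pos z hz) (h.R_pos t hz))
  have hIA : fderiv ℝ (F t) z (I * D0 ^ 2) = -A := by
    rw [hA, ← map_neg]
    congr 1
    rw [tau]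
    ring
  have hB2 : B = (B / D ^ 2) * D ^ 2 := by field_simp
  have e1 : dRe F t z (D0 ^ 2) * dIm F t z (I * D0 ^ 2) -
      dRe F t z (I * D0 ^ 2) * dIm F t z (D0 ^ 2) = l * (B / D ^ 2).re * normSq (D ^ 2) := by
    simp only [dRe_apply, dIm_apply]
    rw [hIA, ← hB, hAl, tau, ← hD]
    obtain ⟨b, hb⟩ : ∃ b, b = B / D ^ 2 := ⟨_, rfl⟩
    rw [← hb] at hB2 ⊢
    rw [hB2]
    simp only [neg_re, neg_im, mul_re, mul_im, ofReal_re, ofReal_im, Complex.I_re, Complex.I_im,
      normSq_apply, zero_mul, mul_zero, sub_zero, add_zero, mul_one, zero_add, zero_sub, mul_neg,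
      neg_neg, neg_zero]
    ring
  rw [e1] at hdet
  by_contra hneg
  push Not at hneg
  have h4 : l * (B / D ^ 2).re * normSq (D ^ 2) ≤ 0 :=
    mul_nonpos_of_nonpos_of_nonneg (mul_nonpos_of_nonpos_of_nonneg hneg h2) (normSq_nonneg _)
  linarith

/-- The velocity at a boundary point. -/
lemma BEul.G_tau (h : BEul m S F G p) {g : SL(2, ℝ)} {z : ℂ} (hz : z ∈ UU) (hc : Ch S g z)
    (t : ℝ) : ∃ v : ℝ, G t z = (v : ℂ) * tau g (F t z) := by
  have hd := den_ne (g := g) (h.mem t z hz)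
  have h1 := h.tangent hz hc t
  refine ⟨-(G t z / (den g (F t z)) ^ 2).im, ?_⟩
  have h3 : G t z / (den g (F t z)) ^ 2 =
      ((-(G t z / (den g (F t z)) ^ 2).im : ℝ) : ℂ) * (-I) := by
    apply Complex.ext
    · simp [h1]
    · simp
  rw [div_eq_iff (pow_ne_zero 2 hd)] at h3
  conv_lhs => rw [h3]
  rw [tau]
  ring

/-- The flux form vanishes on the boundary. -/
lemma BEul.Z_tau (h : BEul m S F G p) {g : SL(2, ℝ)} {z : ℂ} (hz : z ∈ UU) (hc : Ch S g z)
    (t : ℝ) : vZ m F G t z (tau g z) = 0 := by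
  obtain ⟨l, -, hl⟩ := h.dF_tau hz hc t
  obtain ⟨v, hv⟩ := h.G_tau hz hc t
  rw [vZ_eq, hl, hv, map_mul, conj_ofReal]
  have : (v : ℂ) * (starRingEnd ℂ) (tau g (F t z)) * ((l : ℂ) * tau g (F t z)) =
      ((v * l * normSq (tau g (F t z)) : ℝ) : ℂ) := by
    push_cast
    rw [normSq_eq_conj_mul_self]
    ring
  rw [this, ofReal_im, mul_zero]

/-- The sum of the stress form and the Bochner form is nonnegative on the boundary. -/
lemma BEul.TB_tau (h : BEul m S F G p) (c : BCert m S κ) {g : SL(2, ℝ)} {z : ℂ} (hz : z ∈ UU)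
    (hc : Ch S g z) (t : ℝ) : 0 ≤ (bT c F G t z + vB m F G t z) (tau g z) := by
  have hFU := h.mem t z hz
  have hd := den_ne (g := g) hFU
  obtain ⟨l, hl0, hl⟩ := h.dF_tau hz hc t
  obtain ⟨v, hv⟩ := h.G_tau hz hc t
  have hZ := h.Z_tau hz hc t
  have hdG := h.dG_tau_re hz hc t
  have hcb := c.bdy (F t z) (h.memS t z hc.mem) (h.bdy t z hc.mem (hc.not_interior hz)) g
    (h.chart_path hz hc t)
  have hR := h.R_pos t hz
  set D := den g (F t z) with hD
  set τ := tau g (F t z) with hτ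
  have hτD : τ = -I * D ^ 2 := by rw [hτ, tau]; ring
  -- the stress form
  have hT : bT c F G t z (tau g z) = 1 / 2 * ve m F G t z * bxi c F t z (tau g z) := by
    simp only [bT, sub_apply, smul_apply, smul_eq_mul]
    rw [hZ]
    ring
  have hxi : bxi c F t z (tau g z) = m.ρ (F t z) * l *
      ((starRingEnd ℂ ((c.X1 (F t z) : ℂ) + I * (c.X2 (F t z) : ℂ))) * τ).im := by
    have e1 : bxi c F t z (tau g z) = m.ρ (F t z) *
      ((starRingEnd ℂ ((c.X1 (F t z) : ℂ) + I * (c.X2 (F t z) : ℂ))) *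
        fderiv ℝ (F t) z (tau g z)).im := by
      simp only [bxi, sub_apply, smul_apply, smul_eq_mul, dRe_apply, dIm_apply, mul_im, conj_re,
        conj_im]
      simp
      ring
    rw [e1, hl]
    have e2 : (starRingEnd ℂ) ((c.X1 (F t z) : ℂ) + I * (c.X2 (F t z) : ℂ)) * ((l : ℂ) * τ) =
        (l : ℂ) * ((starRingEnd ℂ) ((c.X1 (F t z) : ℂ) + I * (c.X2 (F t z) : ℂ)) * τ) := by ring
    rw [e2, im_ofReal_mul]
    ring
  -- the Bochner form
  have hGG : ((starRingEnd ℂ (G t z)) * fderiv ℝ (G t) z (tau g z)).im =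
      -(2 * l * v ^ 2 * normSq D ^ 2 * (((g 1 0 : ℝ) : ℂ) * D).re) := by
    have e1 : (starRingEnd ℂ (G t z)) * fderiv ℝ (G t) z (tau g z) =
        ((v * normSq D ^ 2 : ℝ) : ℂ) * (I * (fderiv ℝ (G t) z (tau g z) / D ^ 2)) := by
      generalize fderiv ℝ (G t) z (tau g z) = Y
      rw [hv, hτD]
      push_cast
      rw [normSq_eq_conj_mul_self]
      simp only [map_mul, map_neg, conj_I, conj_ofReal, map_pow]
      field_simp
      try ring
    have e2 : (2 * ((g 1 0 : ℝ) : ℂ) * fderiv ℝ (F t) z (tau g z) * G t z / D ^ 3) =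
        ((-(2 * l * v) : ℝ) : ℂ) * (((g 1 0 : ℝ) : ℂ) * D) := by
      rw [hl, hv, hτD]
      field_simp
      push_cast
      linear_combination (2 * (g 1 0 : ℂ) * (l : ℂ) * (v : ℂ)) * I_sq
    rw [e2, re_ofReal_mul] at hdG
    rw [e1, im_ofReal_mul]
    have e3 : (I * (fderiv ℝ (G t) z (tau g z) / D ^ 2)).im =
        (fderiv ℝ (G t) z (tau g z) / D ^ 2).re := by simp
    rw [e3, hdG]
    ring
  have hB : vB m F G t z (tau g z) = -(m.ρ (F t z) * l * v ^ 2 * normSq D ^ 2 *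
      (((g 1 0 : ℝ) : ℂ) * D).re) + 1 / 2 * ve m F G t z *
      (l * (((m.l1 (F t z) : ℂ) - I * (m.l2 (F t z) : ℂ)) * τ).im) := by
    rw [vB_eq, hGG, hl, ← ve_eq]
    have e2 : ((m.l1 (F t z) : ℂ) - I * (m.l2 (F t z) : ℂ)) * ((l : ℂ) * τ) =
        (l : ℂ) * (((m.l1 (F t z) : ℂ) - I * (m.l2 (F t z) : ℂ)) * τ) := by ring
    rw [e2, im_ofReal_mul]
    ring
  have he : ve m F G t z = m.ρ (F t z) * (v ^ 2 * normSq D ^ 2) := by
    rw [ve_eq, hv, hτD]
    simp only [map_mul, normSq_ofReal, map_neg, normSq_neg, normSq_I, map_pow, one_mul]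
    ring
  have hsum : (bT c F G t z + vB m F G t z) (tau g z) = -(1 / 2 * ve m F G t z * l *
      (((((m.l1 (F t z) + m.ρ (F t z) * c.X1 (F t z) : ℝ) : ℂ) -
        I * ((m.l2 (F t z) + m.ρ (F t z) * c.X2 (F t z) : ℝ) : ℂ)) * D ^ 2 +
      2 * ((g 1 0 : ℝ) : ℂ) * D).re)) := by
    rw [add_apply, hT, hxi, hB, he, hτD]
    push_cast
    simp only [map_add, map_mul, conj_I, conj_ofReal, add_re, add_im, sub_re, sub_im, mul_re, mul_im,
      neg_re, neg_im, Complex.I_re, Complex.I_im, ofReal_re, ofReal_im, re_ofNat, im_ofNat]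
    ring
  rw [hsum]
  have he0 : 0 ≤ ve m F G t z := by
    rw [ve_eq]; exact mul_nonneg hR.le (normSq_nonneg _)
  have := mul_nonneg (mul_nonneg (mul_nonneg (by norm_num : (0:ℝ) ≤ 1 / 2) he0) hl0.le)
    (neg_nonneg.mpr hcb)
  linarith

end Pool.Agent.CG
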