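import Pool.Agent.Lib.MP_35454f_h77.BMain

/-!
# Conservation of energy; closed motions of a domain with geodesic boundary are constant
-/

set_option autoImplicit false

open MeasureTheory Filter Topology Complex Set
open UpperHalfPlane hiding I
open scoped ContDiff Manifold MatrixGroups Interval

namespace Pool.Agent.CG

variable {Γ : Subgroup SL(2, ℝ)} {S : Set ℂ} {m : Met Γ} {F G : ℝ → ℂ → ℂ}
  {p : ℝ → ℂ → ℝ} {κ : ℝ} {χ : ℂ → ℝ}

lemma BEul.hasDerivAt_e (h : BEul m S F G p) (t : ℝ) {z : ℂ} (hzS : z ∈ S) :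
    HasDerivAt (fun s => ve m F G s z)
      (-(2 * ((gp F p t z).re * (G t z).re + (gp F p t z).im * (G t z).im))) t := by
  have hz := h.sub hzS
  have h0 := h.R_ne t z hz
  have h1 : HasDerivAt (fun s => m.ρ (F s z) * ((G s z).re ^ 2 + (G s z).im ^ 2)) _ t :=
    (h.hasDerivAt_R t hz).fun_mul
      (((h.hasDerivAt_G_re t hzS).fun_pow 2).fun_add ((h.hasDerivAt_G_im t hzS).fun_pow 2))
  refine h1.congr_deriv ?_
  field_simp
  push_cast
  ring

lemma BMot.wedge_dp (h : BMot m S F G) (p : ℝ → ℂ → ℝ) (t : ℝ) {z : ℂ} (hzS : z ∈ S) :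
    wedge (dp F p t z) (vZ m F G t z) =
      ((gp F p t z).re * (G t z).re + (gp F p t z).im * (G t z).im) * m.ρ z := by
  have hz := h.sub hzS
  have hXY := h.wXY t hzS
  simp only [vZ, dp, wedge_add_left, wedge_sub_right, wedge_smul_left, wedge_smul_right,
    wedge_self]
  rw [wedge_swap (dIm F t z) (dRe F t z), hXY]
  have h1 := h.R_ne t z hz
  field_simp
  ring

lemma BEul.c1_pF (h : BEul m S F G p) (t : ℝ) : ContDiffOn ℝ 1 (fun z => p t (F t z)) UU :=
  (h.pc1 t).comp (h.c1F.slice t) fun z hz => h.mem t z hz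

/-- **Conservation of energy**. -/
lemma BEul.energy_const (h : BEul m S F G p) (hχ : IsCutD Γ S χ) (t : ℝ) :
    JJ S χ (fun z => ve m F G t z * m.ρ z) = JJ S χ (fun z => ve m F G 0 z * m.ρ z) := by
  have hco : CO (fun t z => -(2 * ((gp F p t z).re * (G t z).re +
      (gp F p t z).im * (G t z).im)) * m.ρ z) := by
    have hre : CO (fun t z => (gp F p t z).re) := continuous_re.comp_continuousOn h.co_gp
    have him : CO (fun t z => (gp F p t z).im) := continuous_im.comp_continuousOn h.co_gp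
    exact (CO.neg ((CO.const 2).mul ((hre.mul h.c1G.re.co).add (him.mul h.c1G.im.co)))).mul m.co_ρ
  have hee : ∀ t, ContinuousOn (fun z => ve m F G t z * m.ρ z) UU := fun t =>
    (co_rho_mul m h.co_e).slice t
  have e1 : JJ S χ (fun z => ve m F G t z * m.ρ z) = JJ S χ (fun z => ve m F G 0 z * m.ρ z +
      ∫ s in (0:ℝ)..t, -(2 * ((gp F p s z).re * (G s z).re + (gp F p s z).im * (G s z).im)) *
        m.ρ z) := by
    refine JJ_congr fun z hzi => ?_
    have hzS := interior_subset hzi
    have hz := h.sub hzS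
    rw [intervalIntegral.integral_eq_sub_of_hasDerivAt
      (fun s _ => (h.hasDerivAt_e s hzS).mul_const (m.ρ z))
      ((hco.slice_t hz).intervalIntegrable _ _)]
    ring
  have e2 : ∀ s, JJ S χ (fun z => -(2 * ((gp F p s z).re * (G s z).re +
      (gp F p s z).im * (G s z).im)) * m.ρ z) = 0 := by
    intro s
    have h1 := h.flux_zero hχ s (h.c1_pF s) (h.inv_pF s)
    have e3 : JJ S χ (fun z => -(2 * ((gp F p s z).re * (G s z).re +
        (gp F p s z).im * (G s z).im)) * m.ρ z) =
        JJ S χ (fun z => (-2) * wedge (fderiv ℝ (fun z => p s (F s z)) z) (vZ m F G s z)) := by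
      refine JJ_congr fun z hzi => ?_
      have hzS := interior_subset hzi
      rw [(h.hasFDerivAt_p s (h.sub hzS)).fderiv, h.wedge_dp p s hzS]
      ring
    rw [e3, JJ_smul, h1, mul_zero]
  rw [e1, hχ.J_add (hee 0) (hco.continuousOn_integral 0 t), hχ.J_fubini hco]
  simp only [e2]
  simp

/-- vanishing of the velocity from the vanishing of a weighted integral -/
lemma BEul.zero_of_integral (h : BEul m S F G p) (hχ : IsCutD Γ S χ) {q : ℝ → ℂ → ℝ}
    (hq : CO q) (hq0 : ∀ t, ∀ z ∈ S, 0 ≤ q t z) (hqG : ∀ t, ∀ z ∈ S, q t z = 0 → G t z = 0)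
    {t : ℝ} (h4 : JJ S χ (q t) = 0) {z : ℂ} (hzS : z ∈ S) : G t z = 0 := by
  have hcont : Continuous fun z => χ z * q t z :=
    (hq.continuous_mul hχ.c1.continuous hχ.supp).comp
      (continuous_const.prodMk continuous_id : Continuous fun z : ℂ => (t, z))
  -- on the interior
  have hint : ∀ z ∈ interior S, G t z = 0 := by
    intro z hzi
    have hzS := interior_subset hzi
    have hz := h.sub hzS
    obtain ⟨g, hg, hgz⟩ := hχ.cover z hzS
    have hgi : mob g z ∈ interior S := h.dom.mob_interior hg hzi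
    have h6 : χ (mob g z) * q t (mob g z) = 0 := by
      by_contra hne
      have hpos : 0 < χ (mob g z) * q t (mob g z) :=
        lt_of_le_of_ne (mul_nonneg (hχ.nonneg _) (hq0 t _ (interior_subset hgi))) (Ne.symm hne)
      have h7 : 0 < ∫ z in interior S, χ z * q t z := by
        rw [setIntegral_pos_iff_support_of_nonneg_ae]
        · refine lt_of_lt_of_le ?_ (measure_mono (?_ :
            (interior S ∩ {w | 0 < χ w * q t w}) ⊆ _))
          · exact (isOpen_interior.inter (isOpen_lt continuous_const hcont)).measure_pos volume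
              ⟨_, hgi, hpos⟩
          · rintro w ⟨hw, hw0⟩
            exact ⟨(show (0:ℝ) < χ w * q t w from hw0).ne', hw⟩
        · refine (ae_restrict_iff' isOpen_interior.measurableSet).mpr (Eventually.of_forall
            fun w hw => mul_nonneg (hχ.nonneg _) (hq0 t _ (interior_subset hw)))
        · exact (hχ.int (hq.slice t)).integrableOn
      rw [JJ] at h4
      linarith
    have h7 : G t (mob g z) = 0 := by
      rcases mul_eq_zero.mp h6 with h9 | h9
      · exact absurd h9 hgz.ne'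
      · exact hqG t _ (interior_subset hgi) h9
    rw [h.G_mob t hg hzS] at h7
    have hd := den_ne (g := g) (h.mem t z hz)
    rcases div_eq_zero_iff.mp h7 with h10 | h10
    · exact h10
    · exact absurd h10 (pow_ne_zero 2 hd)
  exact h.dom.eq_of_interior (f := G t) (g := fun _ => 0) (h.c1G.co.slice t) continuousOn_const
    hint hzS

/-- A closed motion has zero velocity. -/
theorem BEul.velocity_zero (h : BEul m S F G p) (c : BCert m S κ) (hχ : IsCutD Γ S χ)
    (hconn : IsPreconnected S) {T : ℝ} (hT0 : 0 < T) (hT : ∀ z ∈ S, F T z = F 0 z) (t : ℝ) {z : ℂ}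
    (hz : z ∈ S) : G t z = 0 := by
  have h1 := h.energy_le c hχ hconn hT0 hT
  set q : ℝ → ℂ → ℝ := fun t z => (bN c F G t z - 1 / 2 * κ * ve m F G t z) * m.ρ z with hq
  have coq : CO q := co_rho_mul m ((h.co_N c).sub ((CO.const _).mul h.co_e))
  have q_eq : ∀ t z, q t z = m.ρ (F t z) * (m.nab c.X1 c.X2 (F t z) (G t z) -
      1 / 2 * κ * normSq (G t z)) * m.ρ z := by
    intro t z
    simp only [hq]
    rw [bN, ve_eq]
    ring
  have qpos : ∀ t, ∀ z ∈ S, G t z ≠ 0 → 0 < q t z := by
    intro t z hz hG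
    rw [q_eq]
    have := c.pos (F t z) (h.memS t z hz) (G t z) hG
    exact mul_pos (mul_pos (h.R_pos t (h.sub hz)) (by linarith)) (m.pos z (h.sub hz))
  have qzero : ∀ t, ∀ z ∈ S, G t z = 0 → q t z = 0 := by
    intro t z hz hG
    rw [q_eq, hG]
    simp [Met.nab]
  have q0 : ∀ t, ∀ z ∈ S, 0 ≤ q t z := by
    intro t z hz
    by_cases hG : G t z = 0
    · exact (qzero t z hz hG).ge
    · exact (qpos t z hz hG).le
  have qG : ∀ t, ∀ z ∈ S, q t z = 0 → G t z = 0 := by
    intro t z hz hqz
    by_contra hG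
    exact (qpos t z hz hG).ne' hqz
  have hI0 : ∀ t, 0 ≤ JJ S χ (q t) := fun t =>
    hχ.J_nonneg fun z hz => q0 t z (interior_subset hz)
  have h2 : JJ S χ (q 0) = 0 := by
    by_contra hne
    have h3 : 0 < JJ S χ (q 0) := lt_of_le_of_ne (hI0 0) (Ne.symm hne)
    have h4 := intervalIntegral.integral_pos hT0 (hχ.J_cont coq).continuousOn
      (fun t _ => hI0 t) ⟨0, ⟨le_refl _, hT0.le⟩, h3⟩
    exact absurd h1 (not_le.mpr h4)
  have hG0 : ∀ z ∈ S, G 0 z = 0 := fun z hz => h.zero_of_integral hχ coq q0 qG h2 hz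
  -- energy
  have h5 : JJ S χ (fun z => ve m F G 0 z * m.ρ z) = 0 := by
    have : JJ S χ (fun z => ve m F G 0 z * m.ρ z) = JJ S χ (fun _ => 0) := by
      refine JJ_congr fun z hz => ?_
      rw [ve_eq, hG0 z (interior_subset hz)]; simp
    rw [this]
    simp [JJ]
  rw [← h.energy_const hχ t] at h5
  refine h.zero_of_integral hχ (co_rho_mul m h.co_e) (fun t z hz => ?_) (fun t z hz hv => ?_) h5 hz
  · rw [ve_eq]
    exact mul_nonneg (mul_nonneg (h.R_pos t (h.sub hz)).le (normSq_nonneg _))
      (m.pos z (h.sub hz)).le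
  · rw [ve_eq] at hv
    rcases mul_eq_zero.mp hv with h6 | h6
    · rcases mul_eq_zero.mp h6 with h7 | h7
      · exact absurd h7 (h.R_pos t (h.sub hz)).ne'
      · exact normSq_eq_zero.mp h7
    · exact absurd h6 (m.ne (h.sub hz))

/-- **A closed motion is constant.** -/
theorem BEul.motion_const (h : BEul m S F G p) (c : BCert m S κ) (hχ : IsCutD Γ S χ)
    (hconn : IsPreconnected S) {T : ℝ} (hT0 : 0 < T) (hT : ∀ z ∈ S, F T z = F 0 z) (t : ℝ) {z : ℂ}
    (hz : z ∈ S) : F t z = z := by
  rw [h.eq_integral t (h.sub hz), h.start z hz]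
  simp [fun s => h.velocity_zero c hχ hconn hT0 hT s hz]

end Pool.Agent.CG
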