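import Pool.Agent.Lib.MP_35454f_h77.BLift

/-!
# No closed geodesics on surfaces with boundary in the presence of a certificate field
-/

set_option autoImplicit false

open Filter Topology Complex Set
open UpperHalfPlane hiding I
open scoped ContDiff Manifold MatrixGroups

namespace Pool.Agent.CG

variable {Γ : Subgroup SL(2, ℝ)} {D : Set ℍ} {σ : ℍ → ℝ} {κ : ℝ} {φ : ℝ → ℍ → ℍ}

/-- The region as a set of complex numbers. -/
def SD (D : Set ℍ) : Set ℂ := UpperHalfPlane.coe '' D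

lemma coe_mem_SD {z : ℍ} : (z : ℂ) ∈ SD D ↔ z ∈ D := by
  constructor
  · rintro ⟨w, hw, hwz⟩
    rwa [← UpperHalfPlane.ext hwz]
  · exact fun h => ⟨z, h, rfl⟩

lemma SD_sub : SD D ⊆ UU := by
  rintro _ ⟨z, -, rfl⟩
  exact coe_mem_UU z

lemma mem_SD {z : ℂ} (hz : z ∈ UU) : z ∈ SD D ↔ ofComplex z ∈ D := by
  rw [← coe_mem_SD (D := D), ofComplex_mem hz]

lemma coe_mem_interior_SD {z : ℍ} : (z : ℂ) ∈ interior (SD D) ↔ z ∈ interior D := by
  rw [mem_interior_iff_mem_nhds, mem_interior_iff_mem_nhds, SD,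
    isOpenEmbedding_coe.image_mem_nhds]

lemma isChart_iff {h : SL(2, ℝ)} {z : ℍ} : IsChart D h z ↔ Ch (SD D) h z := by
  rw [IsChart, Ch, ← isOpenEmbedding_coe.map_nhds_eq z, Filter.eventually_map]
  have e : ∀ w : ℍ, (h • w).re = (mob h (w : ℂ)).re := by
    intro w
    rw [← UpperHalfPlane.coe_re, coe_smul_eq]
  simp only [e, coe_mem_SD]

lemma IsSurface.frontier_iff (hS : IsSurface Γ D) {z : ℍ} :
    z ∈ frontier D ↔ z ∈ D ∧ z ∉ interior D := by
  rw [hS.closed.frontier_eq]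
  rfl

lemma IsSurface.dom (hS : IsSurface Γ D) : Dom Γ (SD D) where
  sub := SD_sub
  cl := by
    intro z hz hcl
    have h1 : ofComplex z ∈ closure D := by
      rw [isOpenEmbedding_coe.isInducing.closure_eq_preimage_closure_image]
      change ((ofComplex z : ℍ) : ℂ) ∈ closure (UpperHalfPlane.coe '' D)
      rw [ofComplex_mem hz]
      exact hcl
    rw [hS.closed.closure_eq] at h1
    exact (mem_SD hz).mpr h1
  inv := by
    rintro g hg _ ⟨z, hz, rfl⟩
    rw [← coe_smul_eq]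
    exact coe_mem_SD.mpr (hS.invariant g hg z hz)
  bd := by
    rintro _ ⟨z, hz, rfl⟩ hzi
    have hfr : z ∈ frontier D := hS.frontier_iff.mpr ⟨hz, fun h => hzi (coe_mem_interior_SD.mpr h)⟩
    obtain ⟨h, hc⟩ := hS.boundary z hfr
    exact ⟨h, isChart_iff.mp hc⟩

lemma IsSurface.preconnected (hS : IsSurface Γ D) : IsPreconnected (SD D) :=
  hS.connected.isPreconnected.image _ continuous_coe.continuousOn

theorem IsGeodesicD.eul (hS : IsSurface Γ D) (hσ : IsConformalFactor Γ σ)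
    (h : IsGeodesicD Γ D σ φ) (hb : Set.Nonempty (frontier D)) :
    ∃ p : ℝ → ℂ → ℝ, BEul hσ.met (SD D) (pos φ) (vel φ) p := by
  obtain ⟨p, hpc, hp1, hpg, hpi, hacc⟩ := h.euler
  have hC1F : C1 (pos φ) := h.pos_contDiff
  have hC1G : C1 (vel φ) := h.vel_contDiff
  refine ⟨fun t w => p t (ofComplex w), ⟨⟨SD_sub, ?_, ?_, hC1F, hC1G, ?_, ?_⟩, hS.dom, ?_, ?_, ?_,
    ?_, ?_, ?_, ?_, ?_⟩⟩
  · intro t z _
    exact coe_mem_UU _
  · rintro t _ ⟨z, hz, rfl⟩
    rw [pos, ofComplex_apply]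
    exact coe_mem_SD.mpr ((h.bijOn t).mapsTo hz)
  · intro t z hz
    exact hC1F.hasDerivAt t hz
  · rintro t _ ⟨z, hz, rfl⟩
    have h1 := h.area t z hz
    rw [det_clm] at h1
    have h3 : ((φ t z : ℍ) : ℂ) = pos φ t z := by rw [pos, ofComplex_apply]
    rw [h3] at h1
    change (fderiv ℝ (pos φ t) z 1).re * (fderiv ℝ (pos φ t) z I).im -
      (fderiv ℝ (pos φ t) z I).re * (fderiv ℝ (pos φ t) z 1).im = rho σ z / rho σ (pos φ t z)
    have h2 : rho σ (pos φ t z) ≠ 0 := (hσ.rho_pos (coe_mem_UU _)).ne'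
    rw [eq_div_iff h2]
    exact h1
  · rintro t _ ⟨z, hz, rfl⟩ hzi
    have hfr : z ∈ frontier D := hS.frontier_iff.mpr ⟨hz, fun h => hzi (coe_mem_interior_SD.mpr h)⟩
    rw [pos, ofComplex_apply, coe_mem_interior_SD]
    exact (hS.frontier_iff.mp (h.frontier_mem t z hfr)).2
  · rintro _ ⟨z, hz, rfl⟩
    rw [pos, ofComplex_apply, h.start z hz]
  · rintro t g hg _ ⟨z, hz, rfl⟩
    rw [pos, ofComplex_mob g (coe_mem_UU z), ofComplex_apply, h.equivariant t g hg z hz,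
      coe_smul_eq, pos, ofComplex_apply]
  · rintro t g hg _ ⟨z, hz, rfl⟩
    simp only
    rw [ofComplex_mob g (coe_mem_UU z), ofComplex_apply, hpi t g hg z hz]
  · exact fun t => hp1 t
  · have h1 : ContinuousOn (fun q : ℝ × ℂ => (q.1, ofComplex q.2)) UT :=
      continuousOn_fst.prodMk (continuousOn_ofComplex.comp continuousOn_snd fun q hq => hq)
    exact hpc.comp_continuousOn h1
  · exact hpg hb
  · rintro t _ ⟨z, hzD, rfl⟩
    have hz := coe_mem_UU z
    have h1 := hacc t z hzD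
    rw [covAccM, gradM] at h1
    have h2 := hC1G.hasDerivAt t hz
    refine h2.congr_deriv ?_
    have h3 : ((φ t z : ℍ) : ℂ) = pos φ t z := by rw [pos, ofComplex_apply]
    rw [h3] at h1
    change _ = -(((lamX σ (pos φ t z) : ℂ) - I * (lamY σ (pos φ t z) : ℂ)) * (vel φ t z) ^ 2) -
      ((rho σ (pos φ t z) : ℂ))⁻¹ * gp (pos φ) (fun t w => p t (ofComplex w)) t z
    rw [gp]
    linear_combination h1

/-- `∂λ` in terms of the conformal factor. -/
lemma IsConformalFactor.lam_eq (hσ : IsConformalFactor Γ σ) {z : ℂ} (hz : z ∈ UU) :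
    lamX σ z = fderiv ℝ (fun w : ℂ => σ (ofComplex w)) z 1 / (2 * σ (ofComplex z)) ∧
    lamY σ z = fderiv ℝ (fun w : ℂ => σ (ofComplex w)) z I / (2 * σ (ofComplex z)) - 1 / z.im := by
  have hy : z.im ≠ 0 := (mem_UU.mp hz).ne'
  have hs : σ (ofComplex z) ≠ 0 := (hσ.pos _).ne'
  have hd : HasFDerivAt (fun w : ℂ => σ (ofComplex w))
      (fderiv ℝ (fun w : ℂ => σ (ofComplex w)) z) z :=
    ((hσ.contDiff.contDiffAt (isOpen_UU.mem_nhds hz)).differentiableAt
      two_ne_zero).hasFDerivAt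
  have h1 : HasFDerivAt (fun w : ℂ => w.im ^ 2) ((2 * z.im) • imCLM) z := by
    refine (hasFDerivAt_pow' (imCLM.hasFDerivAt (x := z)) 2).congr_fderiv ?_
    ext w
    simp
  have h2 : HasFDerivAt (fun w : ℂ => (w.im ^ 2)⁻¹)
      ((-((z.im ^ 2) ^ 2)⁻¹) • ((2 * z.im) • imCLM)) z :=
    (hasDerivAt_inv (pow_ne_zero 2 hy)).comp_hasFDerivAt z h1
  have h3 : HasFDerivAt (rho σ) (σ (ofComplex z) • ((-((z.im ^ 2) ^ 2)⁻¹) • ((2 * z.im) • imCLM)) +
      (z.im ^ 2)⁻¹ • fderiv ℝ (fun w : ℂ => σ (ofComplex w)) z) z := by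
    refine (hd.fun_mul h2).congr_of_eventuallyEq (Eventually.of_forall fun w => ?_)
    rw [rho, div_eq_mul_inv]
  rw [lamX, lamY, h3.fderiv, rho]
  simp only [add_apply, smul_apply, smul_eq_mul, imCLM_apply, one_im, Complex.I_im]
  constructor
  · field_simp
    ring
  · field_simp
    ring

/-- The certificate in the sense of the proof. -/
noncomputable def IsCertificateD.cert (hS : IsSurface Γ D) (hσ : IsConformalFactor Γ σ)
    {X : ℍ → ℂ} (h : IsCertificateD Γ D σ κ X) : BCert hσ.met (SD D) κ where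
  X1 := fieldX X
  X2 := fieldY X
  c1 := reCLM.contDiff.comp_contDiffOn h.contDiff
  c2 := imCLM.contDiff.comp_contDiffOn h.contDiff
  inv := by
    rintro g hg _ ⟨z, hz, rfl⟩
    have e : ∀ w, ((fieldX X w : ℂ) + I * (fieldY X w : ℂ)) = X (ofComplex w) := by
      intro w
      rw [mul_comm]
      exact re_add_im _
    rw [e, e, ofComplex_mob g (coe_mem_UU z), ofComplex_apply, h.invariant g hg z hz]
    rfl
  div := by
    rintro _ ⟨z, hz, rfl⟩
    have h1 := h.div_eq z hz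
    rw [divM, curvature] at h1
    have h0 := (hσ.rho_pos (coe_mem_UU z)).ne'
    change fderiv ℝ (fun w => rho σ w * fieldX X w) z 1 +
      fderiv ℝ (fun w => rho σ w * fieldY X w) z I =
      -(fderiv ℝ (lamX σ) z 1 + fderiv ℝ (lamY σ) z I) - κ * rho σ z
    field_simp at h1
    linarith
  pos := by
    rintro _ ⟨z, hzD, rfl⟩ v hv
    have hz := coe_mem_UU z
    have h1 := h.nabla_gt z hzD v hv
    rw [covDerM] at h1
    have hd := ((h.contDiff.contDiffAt (isOpen_UU.mem_nhds hz)).differentiableAt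
      one_ne_zero).hasFDerivAt
    have hr : fderiv ℝ (fieldX X) z v = (fderiv ℝ (fun w : ℂ => X (ofComplex w)) z v).re := by
      have : HasFDerivAt (fieldX X) _ (z : ℂ) := reCLM.hasFDerivAt.comp (z : ℂ) hd
      rw [this.fderiv]
      rfl
    have hi : fderiv ℝ (fieldY X) z v = (fderiv ℝ (fun w : ℂ => X (ofComplex w)) z v).im := by
      have : HasFDerivAt (fieldY X) _ (z : ℂ) := imCLM.hasFDerivAt.comp (z : ℂ) hd
      rw [this.fderiv]
      rfl
    change 1 / 2 * κ * normSq v < fderiv ℝ (fieldX X) z v * v.re + fderiv ℝ (fieldY X) z v * v.im +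
      (lamX σ z * fieldX X z + lamY σ z * fieldY X z) * normSq v
    rw [hr, hi]
    refine lt_of_eq_of_lt (by ring) (h1.trans_eq ?_)
    simp only [mul_re, mul_im, add_re, add_im, sub_re, sub_im, conj_re, conj_im, Complex.I_re,
      Complex.I_im, ofReal_re, ofReal_im, normSq_apply, fieldX, fieldY, ofComplex_apply]
    ring
  bdy := by
    rintro _ ⟨z, hzD, rfl⟩ hzi g hc
    have hz := coe_mem_UU z
    have hfr : z ∈ frontier D := hS.frontier_iff.mpr ⟨hzD, fun h => hzi (coe_mem_interior_SD.mpr h)⟩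
    have h1 := h.boundary z hfr _ ⟨g, isChart_iff.mpr hc, rfl⟩
    have hs := hσ.pos z
    have hd := den_ne (g := g) hz
    have hl := hσ.lam_eq hz
    change ((((lamX σ z + rho σ z * fieldX X z : ℝ) : ℂ) -
      I * ((lamY σ z + rho σ z * fieldY X z : ℝ) : ℂ)) * (den g z) ^ 2 +
      2 * ((g 1 0 : ℝ) : ℂ) * den g z).re ≤ 0
    rw [hl.1, hl.2, ofComplex_apply]
    change 0 ≤ fderiv ℝ (fun w : ℂ => σ (ofComplex w)) (z : ℂ) (-1 / (starRingEnd ℂ (den g z)) ^ 2) /
      (2 * σ z) + rho σ z * ((starRingEnd ℂ (-1 / (starRingEnd ℂ (den g z)) ^ 2)) * X z).re at h1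
    have hre : (den g z).re = g 1 0 * (z : ℂ).re + g 1 1 := by simp [den]
    have him : (den g z).im = g 1 0 * (z : ℂ).im := by simp [den]
    set L := fderiv ℝ (fun w : ℂ => σ (ofComplex w)) (z : ℂ) with hL
    set Q := den g z with hQ
    have hy : 0 < (z : ℂ).im := hz
    have hN : 0 < normSq Q := normSq_pos.mpr hd
    have hcQ : starRingEnd ℂ Q ≠ 0 := by simpa using hd
    have en : -1 / (starRingEnd ℂ Q) ^ 2 = ((-(normSq Q ^ 2)⁻¹ : ℝ) : ℂ) * Q ^ 2 := by
      push_cast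
      rw [normSq_eq_conj_mul_self]
      field_simp
    have en2 : starRingEnd ℂ (-1 / (starRingEnd ℂ Q) ^ 2) * X z =
        ((-(normSq Q ^ 2)⁻¹ : ℝ) : ℂ) * (starRingEnd ℂ (Q ^ 2) * X z) := by
      rw [en, map_mul, conj_ofReal]
      ring
    rw [en2, re_ofReal_mul, en] at h1
    have en3 : L (((-(normSq Q ^ 2)⁻¹ : ℝ) : ℂ) * Q ^ 2) = (-(normSq Q ^ 2)⁻¹) * L (Q ^ 2) := by
      rw [← real_smul, map_smul, smul_eq_mul]
    rw [en3, clm_eq L (Q ^ 2)] at h1
    have e1 : (((((L 1) / (2 * σ z) + rho σ z * fieldX X z : ℝ) : ℂ) -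
        I * (((L I) / (2 * σ z) - 1 / (z : ℂ).im + rho σ z * fieldY X z : ℝ) : ℂ)) * Q ^ 2 +
        2 * ((g 1 0 : ℝ) : ℂ) * Q).re = (L 1 * (Q ^ 2).re + L I * (Q ^ 2).im) / (2 * σ z) +
        rho σ z * (starRingEnd ℂ (Q ^ 2) * X z).re := by
      have e2 : (Q ^ 2).im = 2 * Q.re * Q.im := by
        rw [pow_two, mul_im]; ring
      have e3 : (Q ^ 2).im / (z : ℂ).im = 2 * Q.re * g 1 0 := by
        rw [e2, him]
        field_simp
      simp only [mul_re, mul_im, add_re, add_im, sub_re, sub_im, conj_re, conj_im, Complex.I_re,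
        Complex.I_im, ofReal_re, ofReal_im, fieldX, fieldY, ofComplex_apply, re_ofNat, im_ofNat]
      linear_combination (-1 : ℝ) * e3
    rw [e1]
    have e4 : (-(normSq Q ^ 2)⁻¹) * (L 1 * (Q ^ 2).re + L I * (Q ^ 2).im) / (2 * σ z) +
        rho σ z * ((-(normSq Q ^ 2)⁻¹) * (starRingEnd ℂ (Q ^ 2) * X z).re) =
        -((normSq Q ^ 2)⁻¹ * ((L 1 * (Q ^ 2).re + L I * (Q ^ 2).im) / (2 * σ z) +
        rho σ z * (starRingEnd ℂ (Q ^ 2) * X z).re)) := by ring
    rw [e4] at h1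
    by_contra hcon
    push Not at hcon
    have := mul_pos (inv_pos.mpr (pow_pos hN 2)) hcon
    linarith

/-- The case of a boundary. -/
theorem noClosedGeodesicD_of_boundary (hS : IsSurface Γ D) (hσ : IsConformalFactor Γ σ)
    {X : ℍ → ℂ} (hX : IsCertificateD Γ D σ κ X) (hφ : IsGeodesicD Γ D σ φ) {T : ℝ} (hT : 0 < T)
    (hret : ∀ z ∈ D, ∃ γ ∈ Γ, φ T z = γ • z) (hb : Set.Nonempty (frontier D)) (t : ℝ) {z : ℍ}
    (hz : z ∈ D) : φ t z = z := by
  have := hS.discrete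
  obtain ⟨K, hK, hcov⟩ := hS.compact
  obtain ⟨χ, hχ⟩ := exists_chiD Γ hS.dom ⟨K, hK, fun z hz => hcov z (coe_mem_SD.mp hz)⟩
  obtain ⟨p, hE⟩ := hφ.eul hS hσ hb
  have hcont : Continuous (φ T) := by
    have e1 : ContinuousOn (pos φ T) UU := (hE.c1F.co).slice T
    rw [isOpenEmbedding_coe.isInducing.continuous_iff]
    have e2 : (UpperHalfPlane.coe ∘ φ T) = (pos φ T) ∘ UpperHalfPlane.coe := by
      ext w
      simp [pos, ofComplex_apply]
    rw [e2]
    exact e1.comp_continuous continuous_coe fun w => coe_mem_UU w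
  have hid : ∀ z ∈ D, φ T z = z := fun z hz =>
    eq_id_of_orbitsD hS hcont (hφ.equivariant T) hret hz
  have hT' : ∀ z ∈ SD D, pos φ T z = pos φ 0 z := by
    rintro _ ⟨z, hz, rfl⟩
    rw [pos, pos, ofComplex_apply, hid z hz, hφ.start z hz]
  have h7 := hE.motion_const (hX.cert hS hσ) hχ hS.preconnected hT hT' t (coe_mem_SD.mpr hz)
  rw [pos, ofComplex_apply] at h7
  exact UpperHalfPlane.ext h7

/-- **No closed geodesics in the presence of a certificate.** -/
theorem noClosedGeodesicD (hS : IsSurface Γ D) (hσ : IsConformalFactor Γ σ)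
    {X : ℍ → ℂ} (hX : IsCertificateD Γ D σ κ X) (hφ : IsGeodesicD Γ D σ φ) {T : ℝ} (hT : 0 < T)
    (hret : ∀ z ∈ D, ∃ γ ∈ Γ, φ T z = γ • z) (t : ℝ) {z : ℍ} (hz : z ∈ D) : φ t z = z := by
  by_cases hb : Set.Nonempty (frontier D)
  · exact noClosedGeodesicD_of_boundary hS hσ hX hφ hT hret hb t hz
  · rw [Set.not_nonempty_iff_eq_empty, ← isClopen_iff_frontier_eq_empty] at hb
    have hu : D = univ := hb.eq_univ hS.connected.nonempty
    subst hu
    have hΓ : IsClosedSurfaceGroup Γ := ⟨hS.discrete, fun γ hγ z => hS.free γ hγ z (mem_univ z), by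
      obtain ⟨K, hK, hcov⟩ := hS.compact
      exact ⟨K, hK, fun z => hcov z (mem_univ z)⟩⟩
    have hX' : IsCertificate Γ σ κ X :=
      ⟨hX.contDiff, fun γ hγ z => hX.invariant γ hγ z (mem_univ z),
        fun z => hX.div_eq z (mem_univ z), fun z => hX.nabla_gt z (mem_univ z)⟩
    obtain ⟨p, hpc, hp1, -, hpi, hacc⟩ := hφ.euler
    have hφ' : IsGeodesicM Γ σ φ := ⟨fun z => hφ.start z (mem_univ z),
      fun t => Set.bijOn_univ.mp (hφ.bijOn t), fun t γ hγ z => hφ.equivariant t γ hγ z (mem_univ z),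
      hφ.pos_contDiff, hφ.vel_contDiff, fun t z => hφ.area t z (mem_univ z),
      ⟨p, hpc, fun t γ hγ z => hpi t γ hγ z (mem_univ z), hp1, fun t z => hacc t z (mem_univ z)⟩⟩
    exact noClosedGeodesic_of_certificate hΓ hσ hX' φ hφ' T hT (fun z => hret z (mem_univ z)) t z

end Pool.Agent.CG
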