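import Pool.Agent.Lib.MP_35454f_h77.BK

/-!
# Weighted integrals over the domain; invariance of the stress form
-/

set_option autoImplicit false

open MeasureTheory Filter Topology Complex Set
open UpperHalfPlane hiding I
open scoped ContDiff Manifold MatrixGroups Interval

namespace Pool.Agent.CG

variable {Γ : Subgroup SL(2, ℝ)} {S : Set ℂ} {m : Met Γ} {F G : ℝ → ℂ → ℂ}
  {p : ℝ → ℂ → ℝ} {κ : ℝ} {χ : ℂ → ℝ} {f g : ℂ → ℝ}

/-- The weighted integral over the interior of the domain. -/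
noncomputable def JJ (S : Set ℂ) (χ f : ℂ → ℝ) : ℝ := ∫ z in interior S, χ z * f z

lemma JJ_congr (h : ∀ z ∈ interior S, f z = g z) : JJ S χ f = JJ S χ g :=
  setIntegral_congr_fun isOpen_interior.measurableSet fun z hz => by simp only [h z hz]

lemma JJ_smul (c : ℝ) (f : ℂ → ℝ) : JJ S χ (fun z => c * f z) = c * JJ S χ f := by
  rw [JJ, JJ, ← integral_const_mul]
  congr 1
  ext z
  ring

lemma JJ_neg (f : ℂ → ℝ) : JJ S χ (fun z => - f z) = - JJ S χ f := by
  have := JJ_smul (S := S) (χ := χ) (-1) f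
  simpa using this

lemma IsCutD.J_add (hχ : IsCutD Γ S χ) (hf : ContinuousOn f UU) (hg : ContinuousOn g UU) :
    JJ S χ (fun z => f z + g z) = JJ S χ f + JJ S χ g := by
  rw [JJ, JJ, JJ, ← integral_add (hχ.int hf).integrableOn (hχ.int hg).integrableOn]
  congr 1
  ext z
  ring

lemma IsCutD.J_sub (hχ : IsCutD Γ S χ) (hf : ContinuousOn f UU) (hg : ContinuousOn g UU) :
    JJ S χ (fun z => f z - g z) = JJ S χ f - JJ S χ g := by
  rw [JJ, JJ, JJ, ← integral_sub (hχ.int hf).integrableOn (hχ.int hg).integrableOn]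
  congr 1
  ext z
  ring

lemma IsCutD.J_mono (hχ : IsCutD Γ S χ) (hf : ContinuousOn f UU) (hg : ContinuousOn g UU)
    (h : ∀ z ∈ interior S, f z ≤ g z) : JJ S χ f ≤ JJ S χ g :=
  setIntegral_mono_on (hχ.int hf).integrableOn (hχ.int hg).integrableOn
    isOpen_interior.measurableSet fun z hz => mul_le_mul_of_nonneg_left (h z hz) (hχ.nonneg z)

lemma IsCutD.J_nonneg (hχ : IsCutD Γ S χ) (h : ∀ z ∈ interior S, 0 ≤ f z) : 0 ≤ JJ S χ f :=
  setIntegral_nonneg isOpen_interior.measurableSet fun z hz => mul_nonneg (hχ.nonneg z) (h z hz)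

lemma IsCutD.J_cont (hχ : IsCutD Γ S χ) {q : ℝ → ℂ → ℝ} (hq : CO q) :
    Continuous fun t => JJ S χ (q t) := by
  have h1 := continuous_parametric_integral_of_continuous
    (μ := (volume : Measure ℂ).restrict (interior S))
    (f := fun (t : ℝ) (z : ℂ) => χ z * q t z) (hq.continuous_mul hχ.c1.continuous hχ.supp)
    (s := tsupport χ) hχ.cpt
  refine h1.congr fun t => ?_
  refine setIntegral_eq_integral_of_forall_compl_eq_zero fun z hz => ?_
  simp [image_eq_zero_of_notMem_tsupport hz]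

lemma IsCutD.J_fubini (hχ : IsCutD Γ S χ) {q : ℝ → ℂ → ℝ} (hq : CO q) (a b : ℝ) :
    JJ S χ (fun z => ∫ t in a..b, q t z) = ∫ t in a..b, JJ S χ (q t) := by
  have hcont : Continuous fun w : ℝ × ℂ => χ w.2 * q w.1 w.2 :=
    hq.continuous_mul hχ.c1.continuous hχ.supp
  have hint : Integrable (Function.uncurry fun (t : ℝ) (z : ℂ) => χ z * q t z)
      ((volume.restrict (Ι a b)).prod ((volume : Measure ℂ).restrict (interior S))) := by
    have h1 : IntegrableOn (fun w : ℝ × ℂ => χ w.2 * q w.1 w.2) ((uIcc a b) ×ˢ tsupport χ)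
        ((volume : Measure ℝ).prod (volume : Measure ℂ)) :=
      hcont.continuousOn.integrableOn_compact (isCompact_uIcc.prod hχ.cpt)
    have h2 : IntegrableOn (fun w : ℝ × ℂ => χ w.2 * q w.1 w.2) ((Ι a b) ×ˢ univ)
        ((volume : Measure ℝ).prod (volume : Measure ℂ)) := by
      have h3 : IntegrableOn (fun w : ℝ × ℂ => χ w.2 * q w.1 w.2) ((Ι a b) ×ˢ tsupport χ)
          ((volume : Measure ℝ).prod (volume : Measure ℂ)) :=
        h1.mono_set (prod_mono uIoc_subset_uIcc (subset_refl _))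
      refine h3.of_forall_sdiff_eq_zero (measurableSet_uIoc.prod MeasurableSet.univ) ?_
      rintro ⟨t, z⟩ ⟨h4, h5⟩
      have : z ∉ tsupport χ := fun h => h5 ⟨h4.1, h⟩
      simp [image_eq_zero_of_notMem_tsupport this]
    have h6 := h2.mono_set (prod_mono (subset_refl (Ι a b)) (subset_univ (interior S)))
    rw [IntegrableOn, ← Measure.prod_restrict] at h6
    exact h6
  have := intervalIntegral_integral_swap hint
  simp only [JJ]
  rw [this]
  congr 1
  ext z
  rw [intervalIntegral.integral_const_mul]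

/-- `J` of the curvature of an invariant form with a sign on the boundary. -/
lemma IsCutD.J_le (hχ : IsCutD Γ S χ) (hS : Dom Γ S) {β : ℂ → ℂ →L[ℝ] ℝ}
    (hw : WDO (interior S) β f) (hi : InvFormD Γ S β)
    (hb : ∀ z ∈ S, z ∉ interior S → ∀ h, Ch S h z → β z (tau h z) ≤ 0) : JJ S χ f ≤ 0 := by
  refine hχ.wd_le hS hw hi fun z hz hzi h hc => ?_
  rw [wedge_drh h (hS.sub hz)]
  have h1 := div_nonneg (neg_nonneg.mpr (hb z hz hzi h hc)) (sq_nonneg (normSq (den h z)))
  rw [neg_div] at h1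
  exact h1

lemma IsCutD.J_zero (hχ : IsCutD Γ S χ) (hS : Dom Γ S) {β : ℂ → ℂ →L[ℝ] ℝ}
    (hw : WDO (interior S) β f) (hi : InvFormD Γ S β)
    (hb : ∀ z ∈ S, z ∉ interior S → ∀ h, Ch S h z → β z (tau h z) = 0) : JJ S χ f = 0 := by
  refine hχ.wd hS hw hi fun z hz hzi h hc => ?_
  rw [wedge_drh h (hS.sub hz), hb z hz hzi h hc, zero_div, neg_zero]

lemma InvFormD.smul {θ : ℂ → ℝ} {β : ℂ → ℂ →L[ℝ] ℝ} (hθ : InvFunD Γ S θ) (hβ : InvFormD Γ S β) :
    InvFormD Γ S (fun z => θ z • β z) := by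
  intro g hg z hz w
  simp only [smul_apply]
  rw [hθ g hg z (interior_subset hz), hβ g hg z hz w]

lemma bxi_eq (c : BCert m S κ) (t : ℝ) (z w : ℂ) :
    bxi c F t z w = m.ρ (F t z) *
      ((starRingEnd ℂ ((c.X1 (F t z) : ℂ) + I * (c.X2 (F t z) : ℂ))) * fderiv ℝ (F t) z w).im := by
  simp only [bxi, sub_apply, smul_apply, smul_eq_mul, dRe_apply, dIm_apply, mul_im, conj_re, conj_im]
  simp
  ring

lemma buX_eq (c : BCert m S κ) (t : ℝ) (z : ℂ) :
    buX c F G t z = m.ρ (F t z) *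
      ((starRingEnd ℂ ((c.X1 (F t z) : ℂ) + I * (c.X2 (F t z) : ℂ))) * G t z).re := by
  simp only [buX, mul_re, conj_re, conj_im]
  simp
  ring

lemma BEul.inv_xi (h : BEul m S F G p) (c : BCert m S κ) (t : ℝ) : InvFormD Γ S (bxi c F t) := by
  intro g hg z hzi w
  have hzS := interior_subset hzi
  have hz := h.sub hzS
  have hd := den_ne (g := g) (h.mem t z hz)
  have hn : normSq (den g (F t z)) ≠ 0 := by simpa using hd
  rw [bxi_eq, bxi_eq, h.equiv t g hg z hzS, c.inv g hg _ (h.memS t z hzS), h.dF_mob t hg hzi,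
    conj_div_mul, m.inv g hg _ (h.mem t z hz),
    ← ofReal_inv, im_ofReal_mul]
  field_simp

lemma BEul.inv_uX (h : BEul m S F G p) (c : BCert m S κ) (t : ℝ) : InvFunD Γ S (buX c F G t) := by
  intro g hg z hzS
  have hz := h.sub hzS
  have hd := den_ne (g := g) (h.mem t z hz)
  have hn : normSq (den g (F t z)) ≠ 0 := by simpa using hd
  rw [buX_eq, buX_eq, h.equiv t g hg z hzS, c.inv g hg _ (h.memS t z hzS), h.G_mob t hg hzS,
    conj_div_mul, m.inv g hg _ (h.mem t z hz),
    ← ofReal_inv, re_ofReal_mul]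
  field_simp

lemma BEul.inv_T (h : BEul m S F G p) (c : BCert m S κ) (t : ℝ) : InvFormD Γ S (bT c F G t) := by
  intro g hg z hz w
  simp only [bT, sub_apply, smul_apply, smul_eq_mul]
  rw [h.inv_e t g hg z (interior_subset hz), h.inv_xi c t g hg z hz,
    h.inv_uX c t g hg z (interior_subset hz), h.inv_Z t g hg z hz]

/-- `J (dθ ∧ ζ) = 0` for invariant `θ`. -/
lemma BEul.flux_zero (h : BEul m S F G p) (hχ : IsCutD Γ S χ) (t : ℝ) {θ : ℂ → ℝ}
    (hθ : ContDiffOn ℝ 1 θ UU) (hi : InvFunD Γ S θ) :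
    JJ S χ (fun z => wedge (fderiv ℝ θ z) (vZ m F G t z)) = 0 := by
  have hO : interior S ⊆ UU := interior_subset.trans h.sub
  have := hχ.J_zero h.dom (WDO.leibniz hO hθ (h.wd_Z t)) (InvFormD.smul hi (h.inv_Z t)) ?_
  · simpa using this
  · intro z hz hzi g hc
    simp only [smul_apply]
    rw [h.Z_tau (h.sub hz) hc t, smul_zero]

lemma BMot.wedge_ZA (h : BMot m S F G) (t : ℝ) {z : ℂ} (hzS : z ∈ S) :
    wedge (vZ m F G t z) (vA m F G t z) = - (ve m F G t z * m.ρ z) := by
  have hz := h.sub hzS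
  have hXY := h.wXY t hzS
  simp only [vZ, vA, wedge_sub_left, wedge_add_right, wedge_smul_left, wedge_smul_right,
    wedge_self]
  rw [wedge_swap (dIm F t z) (dRe F t z), hXY, ve]
  have h1 := h.R_ne t z hz
  field_simp
  ring

/-- The flux of the initial velocity form: `J (ζ_t ∧ α_0) = - J (e_t)`. -/
lemma BEul.int_ZA (h : BEul m S F G p) (hχ : IsCutD Γ S χ) (t : ℝ) :
    JJ S χ (fun z => wedge (vZ m F G t z) (vA m F G 0 z)) =
      - JJ S χ (fun z => ve m F G t z * m.ρ z) := by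
  have h1 := h.flux_zero hχ t (h.c1_pot t) (h.inv_pot t)
  have hZ := h.co_Z.slice t
  have hee : ContinuousOn (fun z => ve m F G t z * m.ρ z) UU := (co_rho_mul m h.co_e).slice t
  have hth : ContinuousOn (fun z => fderiv ℝ (vpot m F G p t) z) UU :=
    (h.c1_pot t).continuousOn_fderiv_of_isOpen isOpen_UU (by simp)
  have e1 : JJ S χ (fun z => wedge (vZ m F G t z) (vA m F G 0 z)) =
      JJ S χ (fun z => -(ve m F G t z * m.ρ z) + wedge (fderiv ℝ (vpot m F G p t) z)
        (vZ m F G t z)) := by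
    refine JJ_congr fun z hz => ?_
    have hzS := interior_subset hz
    rw [h.weber t hzS, wedge_sub_left, wedge_swap (vA m F G t z), h.wedge_ZA t hzS,
        wedge_swap (vA m F G 0 z)]
    ring
  have hne : ContinuousOn (fun z => -(ve m F G t z * m.ρ z)) UU := hee.neg
  rw [e1, hχ.J_add hne (ContinuousOn.wedge hth hZ), h1, add_zero, JJ_neg]

end Pool.Agent.CG
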