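import Pool.Agent.Lib.MP_35454f_h77.BBdry2

/-!
# The total rotation of a closed motion vanishes if there is a boundary
-/

set_option autoImplicit false

open MeasureTheory Filter Topology Complex Set
open UpperHalfPlane hiding I
open scoped ContDiff Manifold MatrixGroups Interval

namespace Pool.Agent.CG

variable {Γ : Subgroup SL(2, ℝ)} {S : Set ℂ} {m : Met Γ} {F G : ℝ → ℂ → ℂ}
  {p : ℝ → ℂ → ℝ} {κ : ℝ}

lemma tau_ne (g : SL(2, ℝ)) {z : ℂ} (hz : z ∈ UU) : tau g z ≠ 0 :=
  mul_ne_zero (pow_ne_zero 2 (den_ne hz)) (neg_ne_zero.mpr I_ne_zero)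

/-- At a boundary point the complex linear part of the differential maps the tangent direction to
within a right angle of the tangent direction. -/
lemma BEul.cl_tau (h : BEul m S F G p) {g : SL(2, ℝ)} {z : ℂ} (hz : z ∈ UU) (hc : Ch S g z)
    (t : ℝ) : 0 < (cl F t z * tau g z / tau g (F t z)).re := by
  obtain ⟨l, hl0, hl⟩ := h.dF_tau hz hc t
  have hFU := h.mem t z hz
  have hJ := h.wXY t hc.mem
  have hJ0 : 0 < m.ρ z / m.ρ (F t z) := div_pos (m.pos z hz) (h.R_pos t hz)
  simp only [wedge, dRe_apply, dIm_apply] at hJ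
  set A : ℂ := fderiv ℝ (F t) z 1 + I * fderiv ℝ (F t) z I with hA
  have hAC : normSq A < normSq (cl F t z) := by
    have : normSq (cl F t z) - normSq A = 4 * (m.ρ z / m.ρ (F t z)) := by
      rw [← hJ]
      simp only [cl, hA, normSq_apply, add_re, add_im, sub_re, sub_im, mul_re, mul_im,
        Complex.I_re, Complex.I_im]
      ring
    linarith
  have hdec : ∀ w : ℂ, fderiv ℝ (F t) z w = (cl F t z * w + A * starRingEnd ℂ w) / 2 := by
    intro w
    have e1 : w = w.re • (1:ℂ) + w.im • I := by
      apply Complex.ext <;> simp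
    have e2 : fderiv ℝ (F t) z w = w.re • fderiv ℝ (F t) z 1 + w.im • fderiv ℝ (F t) z I := by
      conv_lhs => rw [e1]
      rw [map_add, map_smul, map_smul]
    rw [e2, cl, hA]
    generalize fderiv ℝ (F t) z 1 = P
    generalize fderiv ℝ (F t) z I = Q
    apply Complex.ext
    · simp [mul_re, mul_im]
      ring
    · simp [mul_re, mul_im]
      ring
  have hτ := tau_ne g hz
  have hτF := tau_ne g hFU
  set x : ℂ := A * starRingEnd ℂ (tau g z) / tau g (F t z) with hx
  set q : ℂ := cl F t z * tau g z / tau g (F t z) with hq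
  have h1 : q = ((2 * l : ℝ) : ℂ) - x := by
    have h2 := hdec (tau g z)
    rw [hl] at h2
    rw [hq, hx, eq_sub_iff_add_eq, ← add_div, div_eq_iff hτF]
    push_cast
    linear_combination (-2) * h2
  have h3 : normSq x < normSq q := by
    rw [hx, hq, map_div₀, map_div₀, map_mul, map_mul, normSq_conj]
    refine div_lt_div_of_pos_right ?_ (normSq_pos.mpr hτF)
    exact mul_lt_mul_of_pos_right hAC (normSq_pos.mpr hτ)
  rw [h1, normSq_sub, normSq_ofReal] at h3
  simp only [re_ofReal_mul, conj_re] at h3
  rw [h1, sub_re, ofReal_re]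
  have h4 : (2 * l) * x.re < 2 * l ^ 2 := by nlinarith
  have h5 : x.re < l := by
    by_contra h6
    push Not at h6
    nlinarith
  linarith

/-- The total rotation of a boundary particle vanishes. -/
lemma BEul.rot_bdy (h : BEul m S F G p) (hD : Dom Γ S) {g : SL(2, ℝ)} {z : ℂ} (hz : z ∈ UU)
    (hc : Ch S g z) {T : ℝ} (hT : ∀ z ∈ S, F T z = F 0 z) :
    ∫ t in (0:ℝ)..T, rr F G t z = 0 := by
  have hzS := hc.mem
  have hτ := tau_ne g hz
  set q : ℝ → ℂ := fun t => cl F t z * tau g z / tau g (F t z) with hq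
  set r : ℝ → ℂ := fun t => cl G t z / cl F t z with hr
  set s : ℝ → ℂ := fun t => ((g 1 0 : ℝ) : ℂ) * G t z / den g (F t z) with hs
  have hcD : Continuous fun t => den g (F t z) := by
    have := h.c1F.co.slice_t hz
    unfold den
    fun_prop
  have hsc : Continuous s :=
    Continuous.div (continuous_const.mul (h.c1G.co.slice_t hz)) hcD
      fun t => den_ne (h.mem t z hz)
  have hrc : Continuous r :=
    (h.c1G.co_cl.slice_t hz).div (h.c1F.co_cl.slice_t hz) fun t => (h.rot_point t hzS).1
  have hder : ∀ t, HasDerivAt (fun t => Complex.log (q t)) (r t - 2 * s t) t := by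
    intro t
    have hd := den_ne (g := g) (h.mem t z hz)
    have hcl := (h.rot_point t hzS).1
    have h1 : HasDerivAt (fun t => tau g (F t z))
        (2 * den g (F t z) * (((g 1 0 : ℝ) : ℂ) * G t z) * (-I)) t := by
      have h2 : HasDerivAt (fun s => den g (F s z)) (((g 1 0 : ℝ) : ℂ) * G t z) t :=
        (hasDerivAt_den g (F t z)).comp_of_eq t (h.dF t z hz) rfl
      refine ((h2.fun_pow 2).mul_const (-I)).congr_deriv ?_
      push_cast
      ring
    have h3 : HasDerivAt q _ t :=
      ((h.hasDerivAt_cl t hz).mul_const (tau g z)).fun_div h1 (tau_ne g (h.mem t z hz))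
    have h4 := h3.clog_real (Or.inl (h.cl_tau hz hc t))
    refine h4.congr_deriv ?_
    have hI : I ≠ 0 := I_ne_zero
    simp only [hq, hr, hs, tau]
    have hd2 := den_ne (g := g) hz
    field_simp
  have h3 := intervalIntegral.integral_eq_sub_of_hasDerivAt (a := 0) (b := T)
    (fun t _ => hder t) ((hrc.sub (continuous_const.mul hsc)).intervalIntegrable _ _)
  have hqT : q T = q 0 := by
    simp only [hq, cl, h.fderiv_T hD hT hzS, hT z hzS]
  rw [hqT, sub_self] at h3
  have hrs : Continuous fun t => r t - 2 * s t := hrc.sub (continuous_const.mul hsc)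
  have h5 := imCLM.intervalIntegral_comp_comm (hrs.intervalIntegrable (μ := volume) 0 T)
  rw [h3] at h5
  simp only [imCLM_apply, sub_im, Complex.zero_im] at h5
  have h6 : ∀ t, (2 * s t).im = 2 * (s t).im := by
    intro t
    simp [mul_im]
  simp only [h6] at h5
  rw [intervalIntegral.integral_sub, intervalIntegral.integral_const_mul,
    h.int_den g hz (hT z hzS), mul_zero, sub_zero] at h5
  · exact h5
  · exact (continuous_im.comp hrc).intervalIntegrable _ _
  · exact (continuous_const.mul (continuous_im.comp hsc)).intervalIntegrable _ _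

end Pool.Agent.CG
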