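import Pool.Agent.Lib.MP_35454f.VDefs

/-!
# Geodesics of the group of area-preserving diffeomorphisms of a compact surface, with or without
boundary

By uniformization (of the double of the surface) every compact connected oriented surface of
negative Euler characteristic, with or without boundary, with a Riemannian metric, is isometric to
`Γ \ D` with a metric `σ (dx² + dy²) / y²`, where `D` is a closed region of the upper half-plane
with geodesic boundary (`D = ℍ` if the surface has no boundary), invariant under the discrete group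
`Γ`, which acts freely on `D` with compact quotient, and `σ` is a positive `Γ`-invariant function.
-/

set_option autoImplicit false

open Filter Topology Complex Set
open UpperHalfPlane hiding I
open scoped ContDiff Manifold MatrixGroups

namespace Pool.Agent.CG

/-- Near `z` the region `D` is the closed half-plane `{Re (h w) ≥ 0}` (bounded by the geodesic
`{Re (h w) = 0}`), and `z` lies on this geodesic. -/
def IsChart (D : Set ℍ) (h : SL(2, ℝ)) (z : ℍ) : Prop :=
  (h • z).re = 0 ∧ ∀ᶠ w in 𝓝 z, (w ∈ D ↔ 0 ≤ (h • w).re)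

/-- `Γ \ D` is a compact connected surface with (possibly empty) boundary `Γ \ frontier D`: `Γ` is
discrete and acts freely on the closed connected region `D` (up to elements acting trivially), some
compact set meets every orbit in `D`, and the boundary of `D` consists of geodesics. -/
structure IsSurface (Γ : Subgroup SL(2, ℝ)) (D : Set ℍ) : Prop where
  discrete : DiscreteTopology Γ
  closed : IsClosed D
  connected : IsConnected D
  invariant : ∀ γ ∈ Γ, ∀ z ∈ D, γ • z ∈ D
  free : ∀ γ ∈ Γ, ∀ z ∈ D, γ • z = z → ∀ w : ℍ, γ • w = w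
  compact : ∃ K : Set ℍ, IsCompact K ∧ ∀ z ∈ D, ∃ γ ∈ Γ, γ • z ∈ K
  boundary : ∀ z ∈ frontier D, ∃ h : SL(2, ℝ), IsChart D h z

/-- `φ` is (the lift to `D` of) a geodesic, starting at the identity, of the group of
area-preserving `C¹` diffeomorphisms of the surface `Γ \ D` with the metric `σ (dx² + dy²) / y²`,
for the right-invariant `L²` metric: each `φ t` maps `D` bijectively onto `D` and the boundary to
the boundary, commutes with `Γ` and preserves the area form `ρ dx dy`; positions and velocities are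
(restrictions to `D` of) functions on `ℍ` which are jointly `C¹` in time and space, and the covariant
acceleration of each particle is minus the gradient of a pressure `p`, (the restriction of) a
function which is jointly continuous in time and space and `C¹` in space, and whose space derivative
is jointly continuous if the surface has a boundary (the Euler equations in Lagrangian form). -/
structure IsGeodesicD (Γ : Subgroup SL(2, ℝ)) (D : Set ℍ) (σ : ℍ → ℝ) (φ : ℝ → ℍ → ℍ) : Prop where
  start : ∀ z ∈ D, φ 0 z = z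
  bijOn : ∀ t, BijOn (φ t) D D
  frontier_mem : ∀ t, ∀ z ∈ frontier D, φ t z ∈ frontier D
  equivariant : ∀ t, ∀ γ ∈ Γ, ∀ z ∈ D, φ t (γ • z) = γ • φ t z
  pos_contDiff : ContDiffOn ℝ 1 (fun q : ℝ × ℂ => pos φ q.1 q.2) {q | 0 < q.2.im}
  vel_contDiff : ContDiffOn ℝ 1 (fun q : ℝ × ℂ => vel φ q.1 q.2) {q | 0 < q.2.im}
  area : ∀ t, ∀ z ∈ D, (fderiv ℝ (pos φ t) (z : ℂ)).det * rho σ (φ t z) = rho σ z
  euler : ∃ p : ℝ → ℍ → ℝ, Continuous (fun q : ℝ × ℍ => p q.1 q.2) ∧
    (∀ t, ContDiffOn ℝ 1 (fun w : ℂ => p t (ofComplex w)) {w | 0 < w.im}) ∧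
    ((frontier D).Nonempty → ContinuousOn
      (fun q : ℝ × ℂ => fderiv ℝ (fun w : ℂ => p q.1 (ofComplex w)) q.2) {q | 0 < q.2.im}) ∧
    (∀ t, ∀ γ ∈ Γ, ∀ z ∈ D, p t (γ • z) = p t z) ∧
    ∀ t, ∀ z ∈ D, covAccM σ φ t (z : ℂ) = - gradM σ (p t) (φ t z)

/-- `n` is an outer normal vector (not normalised) of the region `D` at the boundary point `z`: up
to sign, the Euclidean gradient `1 / conj (c z + d)²` of `Re (h z)` for a chart `h`. -/
def IsOuterNormal (D : Set ℍ) (z : ℍ) (n : ℂ) : Prop :=
  ∃ h : SL(2, ℝ), IsChart D h z ∧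
    n = -1 / (starRingEnd ℂ (((h 1 0 : ℝ) : ℂ) * z + ((h 1 1 : ℝ) : ℂ))) ^ 2

/-- `X` is a `C¹` vector field on `Γ \ D` with `div X = K - κ`, `⟨∇_v X, v⟩ > (κ / 2) |v|²` for all
nonzero tangent vectors `v`, and `κ_g + ⟨X, ν⟩ ≥ 0` on the boundary, where `ν` is the outer unit
normal and `κ_g` the geodesic curvature of the boundary. Here the last condition is written for an
outer normal vector `n` which is not normalised: since the boundary is geodesic for the metric
`(dx² + dy²) / y²`, its geodesic curvature for the metric `σ (dx² + dy²) / y²` is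
`dσ(ν) / (2 σ)`. -/
structure IsCertificateD (Γ : Subgroup SL(2, ℝ)) (D : Set ℍ) (σ : ℍ → ℝ) (κ : ℝ) (X : ℍ → ℂ) :
    Prop where
  contDiff : ContDiffOn ℝ 1 (fun w : ℂ => X (ofComplex w)) {w | 0 < w.im}
  invariant : ∀ γ ∈ Γ, ∀ z ∈ D,
    X (γ • z) = X z / (((γ 1 0 : ℝ) : ℂ) * z + ((γ 1 1 : ℝ) : ℂ)) ^ 2
  div_eq : ∀ z ∈ D, divM σ X z = curvature σ z - κ
  nabla_gt : ∀ z ∈ D, ∀ v : ℂ, v ≠ 0 →
    κ / 2 * normSq v < ((starRingEnd ℂ v) * covDerM σ X z v).re
  boundary : ∀ z ∈ frontier D, ∀ n : ℂ, IsOuterNormal D z n →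
    0 ≤ fderiv ℝ (fun w : ℂ => σ (ofComplex w)) (z : ℂ) n / (2 * σ z) +
      rho σ z * ((starRingEnd ℂ n) * X z).re

end Pool.Agent.CG
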