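import Pool.Agent.Lib.MP_35454f_h77.BEnergy
import Pool.Agent.Lib.MP_35454f_h77.Defs

/-!
# Maps of the domain covering the identity of the surface
-/

set_option autoImplicit false

open MeasureTheory Filter Topology Complex Set
open UpperHalfPlane hiding I
open scoped ContDiff Manifold MatrixGroups Interval

namespace Pool.Agent.CG

/-- A continuous map preserving the orbits of a group acting freely and properly discontinuously
on a connected set agrees there with a single group element. -/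
lemma single_elementD (Γ : Subgroup SL(2, ℝ)) [ProperlyDiscontinuousSMul Γ ℍ] {D : Set ℍ}
    (hconn : IsConnected D)
    (hfree : ∀ γ ∈ Γ, ∀ z ∈ D, γ • z = z → ∀ w : ℍ, γ • w = w)
    {f : ℍ → ℍ} (hf : Continuous f) (horb : ∀ z ∈ D, ∃ γ ∈ Γ, f z = γ • z) :
    ∃ γ ∈ Γ, ∀ z ∈ D, f z = γ • z := by
  obtain ⟨⟨x, hx⟩, hpre⟩ := hconn
  obtain ⟨γ, hγ, hγi⟩ := horb x hx
  refine ⟨γ, hγ, ?_⟩
  have hpc : PreconnectedSpace D := Subtype.preconnectedSpace hpre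
  have hcl : IsClosed {z : D | f z = γ • (z : ℍ)} :=
    isClosed_eq (hf.comp continuous_subtype_val)
      ((continuous_const_smul γ).comp continuous_subtype_val)
  have hop : IsOpen {z : D | f z = γ • (z : ℍ)} := by
    rw [isOpen_iff_mem_nhds]
    intro z₀ hz₀
    obtain ⟨L, hL, hLn⟩ := exists_compact_mem_nhds (z₀ : ℍ)
    have hfin := finite_set Γ hL (hL.image hf)
    have h1 : ∀ g ∈ hfin.toFinset, ∀ᶠ z in 𝓝 (z₀ : ℍ), f z = g • z → f z = γ • z := by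
      intro g _
      by_cases hg : g • (z₀ : ℍ) = γ • (z₀ : ℍ)
      · refine Eventually.of_forall fun z hz => ?_
        rw [hz]
        have h2 : (γ⁻¹ * (g : SL(2, ℝ))) • (z₀ : ℍ) = z₀ := by
          rw [mul_smul, show (g : SL(2, ℝ)) • (z₀ : ℍ) = g • (z₀ : ℍ) from rfl, hg, inv_smul_smul]
        have h3 := hfree _ (Γ.mul_mem (Γ.inv_mem hγ) g.2) z₀ z₀.2 h2 z
        rw [mul_smul, inv_smul_eq_iff] at h3
        exact h3
      · have h2 : f z₀ ≠ g • (z₀ : ℍ) := by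
          rw [show f z₀ = γ • (z₀ : ℍ) from hz₀]
          exact fun h => hg h.symm
        have h3 : ∀ᶠ z in 𝓝 (z₀ : ℍ), f z ≠ g • z :=
          (isOpen_ne_fun hf (continuous_const_smul g)).mem_nhds h2
        filter_upwards [h3] with z hz h
        exact absurd h hz
    have h4 : ∀ᶠ z in 𝓝 (z₀ : ℍ), ∀ g ∈ hfin.toFinset, f z = g • z → f z = γ • z :=
      (Finset.eventually_all _).mpr h1
    have h5 : ∀ᶠ z in 𝓝 (z₀ : ℍ), z ∈ D → f z = γ • z := by
      filter_upwards [hLn, h4] with z hzL hz hzD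
      obtain ⟨g, hg, hgz⟩ := horb z hzD
      refine hz ⟨g, hg⟩ ?_ hgz
      rw [Set.Finite.mem_toFinset]
      exact ⟨z, hzL, ⟨z, hzL, hgz⟩⟩
    filter_upwards [(continuous_subtype_val.tendsto z₀).eventually h5] with z hz using hz z.2
  have hun : {z : D | f z = γ • (z : ℍ)} = univ :=
    IsClopen.eq_univ ⟨hcl, hop⟩ ⟨⟨x, hx⟩, hγi⟩
  intro z hz
  have hz : (⟨z, hz⟩ : D) ∈ {z : D | f z = γ • (z : ℍ)} := by rw [hun]; trivial
  exact hz

/-- The displacement of a Möbius transformation. -/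
lemma cosh_disp (γ : SL(2, ℝ)) (z : ℍ) : Real.cosh (dist z (γ • z)) =
    1 + normSq (((γ 1 0 : ℝ) : ℂ) * (z : ℂ) ^ 2 + (((γ 1 1 : ℝ) : ℂ) - ((γ 0 0 : ℝ) : ℂ)) * z -
      ((γ 0 1 : ℝ) : ℂ)) / (2 * (z : ℂ).im ^ 2) := by
  have hz : (z : ℂ) ∈ UU := coe_mem_UU z
  rw [UpperHalfPlane.cosh_dist, coe_smul_eq]
  have h3 : (γ • z).im = (mob γ z).im := by
    rw [← UpperHalfPlane.coe_im, coe_smul_eq]
  rw [h3, im_mob γ hz]
  have hden := den_ne (g := γ) hz
  have hN : 0 < normSq (den γ z) := normSq_pos.mpr hden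
  have hy : 0 < (z : ℂ).im := hz
  have h4 : dist (z : ℂ) (mob γ z) ^ 2 = normSq (((γ 1 0 : ℝ) : ℂ) * (z : ℂ) ^ 2 +
      (((γ 1 1 : ℝ) : ℂ) - ((γ 0 0 : ℝ) : ℂ)) * z - ((γ 0 1 : ℝ) : ℂ)) / normSq (den γ z) := by
    rw [Complex.dist_eq, Complex.sq_norm, ← normSq_div]
    congr 1
    rw [mob, eq_div_iff hden, sub_mul, div_mul_cancel₀ _ hden, den]
    ring
  rw [h4, ← UpperHalfPlane.coe_im]
  field_simp

/-- A local maximum of the displacement, relative to a closed half-plane, at a point of the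
boundary of the half-plane. -/
lemma coeff_of_max {a b c d y : ℝ} (hy : 0 < y)
    (hmax : ∀ᶠ w in 𝓝 ((y : ℂ) * I), 0 ≤ w.re →
      normSq ((c : ℂ) * w ^ 2 + ((d : ℂ) - (a : ℂ)) * w - (b : ℂ)) / (2 * w.im ^ 2) ≤
      normSq ((c : ℂ) * ((y : ℂ) * I) ^ 2 + ((d : ℂ) - (a : ℂ)) * ((y : ℂ) * I) - (b : ℂ)) /
        (2 * ((y : ℂ) * I).im ^ 2)) :
    b = 0 ∧ c = 0 ∧ a = d := by
  -- along the imaginary axis
  have hax : ∀ u : ℝ, 0 < u → normSq ((c : ℂ) * ((u : ℂ) * I) ^ 2 + ((d : ℂ) - (a : ℂ)) *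
      ((u : ℂ) * I) - (b : ℂ)) / (2 * ((u : ℂ) * I).im ^ 2) =
      ((c * u) ^ 2 + (b / u) ^ 2 + 2 * b * c + (d - a) ^ 2) / 2 := by
    intro u hu
    have e1 : (c : ℂ) * ((u : ℂ) * I) ^ 2 + ((d : ℂ) - (a : ℂ)) * ((u : ℂ) * I) - (b : ℂ) =
        ((-(c * u ^ 2 + b) : ℝ) : ℂ) + (((d - a) * u : ℝ) : ℂ) * I := by
      push_cast
      linear_combination ((c : ℂ) * (u : ℂ) ^ 2) * I_sq
    rw [e1, normSq_add_mul_I]
    have e2 : ((u : ℂ) * I).im = u := by simp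
    rw [e2]
    field_simp
    ring
  have h0 : Tendsto (fun r : ℝ => (((y * r : ℝ) : ℂ)) * I) (𝓝 1) (𝓝 ((y : ℂ) * I)) := by
    have : Tendsto (fun r : ℝ => (((y * r : ℝ) : ℂ)) * I) (𝓝 1) (𝓝 (((y * 1 : ℝ) : ℂ) * I)) :=
      Continuous.tendsto (by fun_prop) 1
    rwa [mul_one] at this
  have h0' : Tendsto (fun r : ℝ => (((y * r⁻¹ : ℝ) : ℂ)) * I) (𝓝 1) (𝓝 ((y : ℂ) * I)) := by
    have h1 : Tendsto (fun r : ℝ => r⁻¹) (𝓝 1) (𝓝 1) := by
      have := (continuousAt_inv₀ (one_ne_zero : (1:ℝ) ≠ 0)).tendsto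
      rwa [inv_one] at this
    exact h0.comp h1
  have hbc : b = 0 ∧ c = 0 := by
    obtain ⟨r, ⟨⟨h1, h2⟩, hr0⟩, hr1⟩ := ((((h0.eventually hmax).and (h0'.eventually hmax)).and
      (lt_mem_nhds (zero_lt_one : (0:ℝ) < 1))).filter_mono
      (nhdsWithin_le_nhds (s := {(1:ℝ)}ᶜ)) |>.and self_mem_nhdsWithin).exists
    have hr1' : r ≠ 1 := hr1
    have h1' := h1 (by simp)
    have h2' := h2 (by simp)
    rw [hax _ (mul_pos hy hr0), hax _ hy] at h1'
    rw [hax _ (mul_pos hy (inv_pos.mpr hr0)), hax _ hy] at h2'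
    have h3 : (c * (y * r)) ^ 2 + (b / (y * r)) ^ 2 ≤ (c * y) ^ 2 + (b / y) ^ 2 := by linarith
    have h4 : (c * (y * r⁻¹)) ^ 2 + (b / (y * r⁻¹)) ^ 2 ≤ (c * y) ^ 2 + (b / y) ^ 2 := by linarith
    set P := (c * y) ^ 2 with hP
    set R := (b / y) ^ 2 with hR
    have e3 : (c * (y * r)) ^ 2 = P * r ^ 2 := by rw [hP]; ring
    have e4 : (b / (y * r)) ^ 2 = R * (r⁻¹) ^ 2 := by rw [hR]; field_simp
    have e5 : (c * (y * r⁻¹)) ^ 2 = P * (r⁻¹) ^ 2 := by rw [hP]; ring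
    have e6 : (b / (y * r⁻¹)) ^ 2 = R * r ^ 2 := by rw [hR]; field_simp
    rw [e3, e4] at h3
    rw [e5, e6] at h4
    have h5 : (P + R) * (r ^ 2 + (r⁻¹) ^ 2 - 2) ≤ 0 := by nlinarith
    have h6 : 0 < r ^ 2 + (r⁻¹) ^ 2 - 2 := by
      have h7 : r ^ 2 + (r⁻¹) ^ 2 - 2 = (r - r⁻¹) ^ 2 := by
        have : r * r⁻¹ = 1 := mul_inv_cancel₀ hr0.ne'
        linear_combination 2 * this
      rw [h7]
      have h8 : r - r⁻¹ ≠ 0 := by
        intro h9
        have h10 : r ^ 2 = 1 := by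
          have h11 : r = r⁻¹ := by linarith
          have : r * r = 1 := by
            nth_rewrite 2 [h11]
            exact mul_inv_cancel₀ hr0.ne'
          nlinarith
        have h12 : (r - 1) * (r + 1) = 0 := by nlinarith
        rcases mul_eq_zero.mp h12 with h13 | h13
        · exact hr1' (by linarith)
        · linarith
      positivity
    have hP0 : 0 ≤ P := sq_nonneg _
    have hR0 : 0 ≤ R := sq_nonneg _
    have h7 : P + R ≤ 0 := by
      by_contra h8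
      push Not at h8
      have := mul_pos h8 h6
      linarith
    have hP1 : P = 0 := by linarith
    have hR1 : R = 0 := by linarith
    constructor
    · have h9 : b / y = 0 := by simpa [hR] using hR1
      rcases div_eq_zero_iff.mp h9 with h10 | h10
      · exact h10
      · exact absurd h10 hy.ne'
    · have h9 : c * y = 0 := by simpa [hP] using hP1
      rcases mul_eq_zero.mp h9 with h10 | h10
      · exact h10
      · exact absurd h10 hy.ne'
  refine ⟨hbc.1, hbc.2, ?_⟩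
  -- in the horizontal direction
  have h1 : Tendsto (fun x : ℝ => (x : ℂ) + (y : ℂ) * I) (𝓝[>] 0) (𝓝 ((y : ℂ) * I)) := by
    have : Tendsto (fun x : ℝ => (x : ℂ) + (y : ℂ) * I) (𝓝 0) (𝓝 (((0:ℝ) : ℂ) + (y : ℂ) * I)) :=
      Continuous.tendsto (by fun_prop) 0
    rw [ofReal_zero, zero_add] at this
    exact this.mono_left nhdsWithin_le_nhds
  obtain ⟨x, hx, hx0⟩ := ((h1.eventually hmax).and self_mem_nhdsWithin).exists
  have hx0' : (0:ℝ) < x := hx0
  have h2 := hx (by simp [hx0'.le])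
  rw [hax y hy, hbc.1, hbc.2] at h2
  have e1 : normSq (((0:ℝ) : ℂ) * ((x : ℂ) + (y : ℂ) * I) ^ 2 + ((d : ℂ) - (a : ℂ)) *
      ((x : ℂ) + (y : ℂ) * I) - ((0:ℝ) : ℂ)) = (d - a) ^ 2 * (x ^ 2 + y ^ 2) := by
    have : ((0:ℝ) : ℂ) * ((x : ℂ) + (y : ℂ) * I) ^ 2 + ((d : ℂ) - (a : ℂ)) *
      ((x : ℂ) + (y : ℂ) * I) - ((0:ℝ) : ℂ) = ((d - a : ℝ) : ℂ) * ((x : ℂ) + (y : ℂ) * I) := by
      push_cast; ring
    rw [this, map_mul, normSq_ofReal, normSq_add_mul_I]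
    ring
  have e2 : ((x : ℂ) + (y : ℂ) * I).im = y := by simp
  rw [e1, e2, div_le_iff₀ (by positivity)] at h2
  have h3 : (d - a) ^ 2 * x ^ 2 ≤ 0 := by
    have e3 : ((0 * y) ^ 2 + (0 / y) ^ 2 + 2 * 0 * 0 + (d - a) ^ 2) / 2 * (2 * y ^ 2) =
        (d - a) ^ 2 * y ^ 2 := by ring
    rw [e3] at h2
    nlinarith
  by_contra hne
  have h4 : 0 < (d - a) ^ 2 := by
    have : d - a ≠ 0 := fun h => hne (by linarith)
    positivity
  have h5 : 0 < (d - a) ^ 2 * x ^ 2 := mul_pos h4 (by positivity)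
  linarith

/-- A transformation with diagonal matrix `a = d` acts trivially. -/
lemma smul_eq_of_coeff (g : SL(2, ℝ)) (h : g 0 1 = 0 ∧ g 1 0 = 0 ∧ g 0 0 = g 1 1) (z : ℍ) :
    g • z = z := by
  have hdet := det_eq g
  obtain ⟨hb0, hc0, hda⟩ := h
  rw [hc0, hda] at hdet
  have ha0 : g 1 1 ≠ 0 := by
    intro h
    rw [h] at hdet
    simp at hdet
  apply UpperHalfPlane.ext
  rw [coe_smul_eq, mob, den, hb0, hc0, hda]
  have : ((g 1 1 : ℝ) : ℂ) ≠ 0 := ofReal_ne_zero.mpr ha0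
  field_simp
  simp [this]

/-- If the displacement of `γ`, restricted to a half-plane near a boundary point, is maximal at
this boundary point, then `γ` acts trivially. -/
lemma trivial_of_max (γ h : SL(2, ℝ)) {z₁ : ℍ} (h0 : (h • z₁).re = 0)
    (hmax : ∀ᶠ w in 𝓝 z₁, 0 ≤ (h • w).re → dist w (γ • w) ≤ dist z₁ (γ • z₁)) (z : ℍ) :
    γ • z = z := by
  set g : SL(2, ℝ) := h * γ * h⁻¹ with hg
  have hconj : ∀ w : ℍ, dist (h⁻¹ • w) (γ • h⁻¹ • w) = dist w (g • w) := by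
    intro w
    rw [← dist_smul h (h⁻¹ • w) (γ • h⁻¹ • w), smul_inv_smul, hg, mul_smul, mul_smul]
  set w₁ : ℍ := h • z₁ with hw₁
  have hz₁ : z₁ = h⁻¹ • w₁ := by rw [hw₁, inv_smul_smul]
  have hy : 0 < w₁.im := w₁.im_pos
  have hw₁c : (w₁ : ℂ) = ((w₁.im : ℝ) : ℂ) * I := by
    apply Complex.ext
    · simpa using h0
    · simp
  -- the maximum in the chart
  have h1 : ∀ᶠ w in 𝓝 w₁, 0 ≤ w.re → dist w (g • w) ≤ dist w₁ (g • w₁) := by
    have h2 : Tendsto (fun w : ℍ => h⁻¹ • w) (𝓝 w₁) (𝓝 z₁) := by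
      have := (continuous_const_smul (T := ℍ) h⁻¹).tendsto w₁
      rwa [← hz₁] at this
    filter_upwards [h2.eventually hmax] with w hw hw0
    have h3 := hw (by rwa [smul_inv_smul])
    rw [hconj] at h3
    rwa [hz₁, hconj] at h3
  have h4 : ∀ᶠ w in 𝓝 (((w₁.im : ℝ) : ℂ) * I), 0 ≤ w.re →
      normSq (((g 1 0 : ℝ) : ℂ) * w ^ 2 + (((g 1 1 : ℝ) : ℂ) - ((g 0 0 : ℝ) : ℂ)) * w -
        ((g 0 1 : ℝ) : ℂ)) / (2 * w.im ^ 2) ≤
      normSq (((g 1 0 : ℝ) : ℂ) * (((w₁.im : ℝ) : ℂ) * I) ^ 2 +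
        (((g 1 1 : ℝ) : ℂ) - ((g 0 0 : ℝ) : ℂ)) * (((w₁.im : ℝ) : ℂ) * I) - ((g 0 1 : ℝ) : ℂ)) /
        (2 * ((((w₁.im : ℝ) : ℂ) * I)).im ^ 2) := by
    rw [← hw₁c]
    have h5 : Tendsto ofComplex (𝓝 (w₁ : ℂ)) (𝓝 w₁) := by
      have := (continuousOn_ofComplex.continuousAt (isOpen_UU.mem_nhds (coe_mem_UU w₁))).tendsto
      rwa [ofComplex_apply] at this
    filter_upwards [h5.eventually h1, isOpen_UU.mem_nhds (coe_mem_UU w₁)] with w hw hwU hw0
    have hwc : ((ofComplex w : ℍ) : ℂ) = w := by rw [ofComplex_mem hwU]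
    have h6 := hw (by rw [← UpperHalfPlane.coe_re, hwc]; exact hw0)
    have h7 : Real.cosh (dist (ofComplex w) (g • ofComplex w)) ≤
        Real.cosh (dist w₁ (g • w₁)) := by
      rw [Real.cosh_le_cosh, abs_of_nonneg dist_nonneg, abs_of_nonneg dist_nonneg]
      exact h6
    rw [cosh_disp, cosh_disp, hwc] at h7
    linarith
  obtain ⟨hb, hc, had⟩ := coeff_of_max hy h4
  have h8 := smul_eq_of_coeff g ⟨hb, hc, had⟩ (h • z)
  rw [hg, mul_smul, mul_smul, inv_smul_smul] at h8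
  exact MulAction.injective h h8

/-- A continuous map of `D`, covering the identity of the compact surface `Γ \ D` and commuting
with `Γ`, is the identity. -/
theorem eq_id_of_orbitsD {Γ : Subgroup SL(2, ℝ)} {D : Set ℍ} (hS : IsSurface Γ D)
    {f : ℍ → ℍ} (hf : Continuous f) (hequiv : ∀ γ ∈ Γ, ∀ z ∈ D, f (γ • z) = γ • f z)
    (horb : ∀ z ∈ D, ∃ γ ∈ Γ, f z = γ • z) {z : ℍ} (hz : z ∈ D) : f z = z := by
  have := hS.discrete
  obtain ⟨γ, hγ, hfγ⟩ := single_elementD Γ hS.connected hS.free hf horb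
  obtain ⟨K, hKc, hcov⟩ := hS.compact
  have hcont : Continuous fun z : ℍ => dist z (γ • z) :=
    continuous_id.dist (continuous_const_smul γ)
  have hKD : IsCompact (K ∩ D) := hKc.inter_right hS.closed
  have hne : (K ∩ D).Nonempty := by
    obtain ⟨g, hg, hgK⟩ := hcov z hz
    exact ⟨g • z, hgK, hS.invariant g hg z hz⟩
  obtain ⟨z₁, hz₁, hm⟩ := hKD.exists_isMaxOn hne hcont.continuousOn
  have hb : ∀ w ∈ D, dist w (γ • w) ≤ dist z₁ (γ • z₁) := by
    intro w hw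
    obtain ⟨g, hg, hgK⟩ := hcov w hw
    have hgD := hS.invariant g hg w hw
    have h1 : dist (g • w) (γ • g • w) ≤ dist z₁ (γ • z₁) := hm ⟨hgK, hgD⟩
    rw [← hfγ (g • w) hgD, hequiv g hg w hw, dist_smul, hfγ w hw] at h1
    exact h1
  rw [hfγ z hz]
  by_cases hzi : z₁ ∈ interior D
  · -- interior point: translate it to the imaginary axis
    set h : SL(2, ℝ) := ⟨!![1, -z₁.re; 0, 1], by simp [Matrix.det_fin_two_of]⟩ with hh
    refine trivial_of_max γ h (z₁ := z₁) ?_ ?_ z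
    · rw [← UpperHalfPlane.coe_re, coe_smul_eq]
      have e1 : mob h z₁ = (z₁ : ℂ) - (z₁.re : ℂ) := by
        simp [mob, den, hh, sub_eq_add_neg]
      rw [e1]
      simp
    · filter_upwards [isOpen_interior.mem_nhds hzi] with w hw _
      exact hb w (interior_subset hw)
  · have hfr : z₁ ∈ frontier D := by
      rw [hS.closed.frontier_eq]
      exact ⟨hz₁.2, hzi⟩
    obtain ⟨h, hc0, hc⟩ := hS.boundary z₁ hfr
    refine trivial_of_max γ h (z₁ := z₁) hc0 ?_ z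
    filter_upwards [hc] with w hw hw0
    exact hb w (hw.mpr hw0)

end Pool.Agent.CG
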