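import Pool.Agent.Lib.MP_35454f_h77.BInt

/-!
# The main inequality for closed Euler motions of a domain with geodesic boundary
-/

set_option autoImplicit false

open MeasureTheory Filter Topology Complex Set
open UpperHalfPlane hiding I
open scoped ContDiff Manifold MatrixGroups Interval

namespace Pool.Agent.CG

variable {Γ : Subgroup SL(2, ℝ)} {S : Set ℂ} {m : Met Γ} {F G : ℝ → ℂ → ℂ}
  {p : ℝ → ℂ → ℝ} {κ : ℝ} {χ : ℂ → ℝ}

/-- The total rotation `k` of a closed motion; `k` times the total vorticity vanishes. -/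
lemma BEul.exists_k (h : BEul m S F G p) (hχ : IsCutD Γ S χ) (hconn : IsPreconnected S) {T : ℝ}
    (hT : ∀ z ∈ S, F T z = F 0 z) : ∃ k : ℝ, (∀ z ∈ S, ∫ t in (0:ℝ)..T, rr F G t z = k) ∧
      k * JJ S χ (vOm m F G 0) = 0 := by
  by_cases hb : ∃ z ∈ S, z ∉ interior S
  · obtain ⟨z, hz, hzi⟩ := hb
    obtain ⟨g, hc⟩ := h.dom.bd z hz hzi
    refine ⟨0, fun w hw => ?_, zero_mul _⟩
    rw [h.rot_const h.dom hconn hT w hw z hz]
    exact h.rot_bdy h.dom (h.sub hz) hc hT
  · push Not at hb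
    have h0 : JJ S χ (vOm m F G 0) = 0 :=
      hχ.J_zero h.dom (h.wd_A 0) (h.inv_A 0) fun z hz hzi => absurd (hb z hz) hzi
    by_cases hne : S.Nonempty
    · obtain ⟨z, hz⟩ := hne
      exact ⟨∫ t in (0:ℝ)..T, rr F G t z, fun w hw => h.rot_const h.dom hconn hT w hw z hz,
        by rw [h0, mul_zero]⟩
    · exact ⟨0, fun w hw => absurd ⟨w, hw⟩ hne, zero_mul _⟩

/-- The stress identity and the Bochner identity, combined. -/
lemma BEul.stress_le (h : BEul m S F G p) (c : BCert m S κ) (hχ : IsCutD Γ S χ) (t : ℝ) :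
    JJ S χ (fun z => vss m F G t z * m.ρ z) ≤
      JJ S χ (fun z => vOm m F G 0 z ^ 2 / (4 * m.ρ z)) +
      JJ S χ (fun z => bbu c F G t z * vOm m F G 0 z) - JJ S χ (fun z => bN c F G t z * m.ρ z) -
      1 / 2 * κ * JJ S χ (fun z => ve m F G t z * m.ρ z) := by
  have hO : interior S ⊆ UU := interior_subset.trans h.sub
  have hy : ∀ z ∈ UU, m.ρ z ≠ 0 := fun z hz => m.ne hz
  have hyc : ContinuousOn m.ρ UU := m.hρ.continuousOn
  have hΩc : ContinuousOn (fun z => vOm m F G 0 z) UU := h.co_Om.slice 0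
  have cS : ContinuousOn (fun z => vss m F G t z * m.ρ z) UU := (co_rho_mul m h.co_ss).slice t
  have cQ : ContinuousOn (fun z => vOm m F G 0 z ^ 2 / (4 * m.ρ z)) UU :=
    (hΩc.pow 2).div (continuousOn_const.mul hyc) fun z hz => mul_ne_zero four_ne_zero (hy z hz)
  have cb : ContinuousOn (fun z => bbu c F G t z * vOm m F G 0 z) UU :=
    ((h.co_bu c).slice t).mul hΩc
  have cN : ContinuousOn (fun z => bN c F G t z * m.ρ z) UU := (co_rho_mul m (h.co_N c)).slice t
  have ce : ContinuousOn (fun z => 1 / 2 * κ * (ve m F G t z * m.ρ z)) UU :=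
    continuousOn_const.mul ((co_rho_mul m h.co_e).slice t)
  have c1 : ContinuousOn (fun z => vss m F G t z * m.ρ z - vOm m F G 0 z ^ 2 / (4 * m.ρ z)) UU :=
    cS.sub cQ
  have c2 : ContinuousOn (fun z => vss m F G t z * m.ρ z - vOm m F G 0 z ^ 2 / (4 * m.ρ z) -
      bbu c F G t z * vOm m F G 0 z) UU := c1.sub cb
  have c3 : ContinuousOn (fun z => vss m F G t z * m.ρ z - vOm m F G 0 z ^ 2 / (4 * m.ρ z) -
      bbu c F G t z * vOm m F G 0 z + bN c F G t z * m.ρ z) UU := c2.add cN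
  have hw := ((h.wd_T c t).add hO (h.wd_B t)).neg
  have hw' : WDO (interior S) (fun z => -(bT c F G t z + vB m F G t z)) (fun z =>
      vss m F G t z * m.ρ z - vOm m F G 0 z ^ 2 / (4 * m.ρ z) -
      bbu c F G t z * vOm m F G 0 z + bN c F G t z * m.ρ z +
      1 / 2 * κ * (ve m F G t z * m.ρ z)) := by
    refine hw.congr hw.1 (c3.add ce) (fun _ _ => rfl) fun z hz => ?_
    rw [h.om_const t hz, ve]
    ring
  have hinv : InvFormD Γ S (fun z => -(bT c F G t z + vB m F G t z)) := by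
    intro g hg z hz w
    rw [neg_apply, neg_apply, add_apply, add_apply, h.inv_T c t g hg z hz w,
      h.inv_B t g hg z hz w]
  have h1 := hχ.J_le h.dom hw' hinv fun z hz _ g hc => by
    rw [neg_apply]
    exact neg_nonpos.mpr (h.TB_tau c (h.sub hz) hc t)
  rw [hχ.J_add c3 ce, hχ.J_add c2 cN, hχ.J_sub c1 cb, hχ.J_sub cS cQ, JJ_smul] at h1
  linarith

/-- The rotation inequality. -/
lemma BEul.rot_le (h : BEul m S F G p) {T k : ℝ} (hT0 : 0 < T)
    (hk : ∀ z ∈ S, ∫ t in (0:ℝ)..T, rr F G t z = k) {z : ℂ} (hzi : z ∈ interior S) :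
    (1 / 2 * T * (vOm m F G 0 z / m.ρ z) - ((∫ t in (0:ℝ)..T, vth m F G t z) + k)) ^ 2 ≤
      T * ∫ t in (0:ℝ)..T, vss m F G t z := by
  have hzS := interior_subset hzi
  have hz := h.sub hzS
  have hc1 : Continuous fun t => 1 / 2 * rt F G t z * (m.ρ (F t z) / m.ρ z) :=
    (continuous_const.mul (h.co_rt.slice_t hz)).mul ((h.c1R.co.slice_t hz).div_const _)
  have hc2 : Continuous fun t => rr F G t z := h.cont_rr_t hzS
  have hc3 : Continuous fun t => vss m F G t z := h.co_ss.slice_t hz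
  have e1 : ∀ t, 1 / 2 * rt F G t z * (m.ρ (F t z) / m.ρ z) =
      1 / 2 * (vOm m F G 0 z / m.ρ z) - vth m F G t z := by
    intro t
    rw [← h.om_const t hzi, vOm]
    have h2 := m.ne hz
    field_simp
    ring
  have e2 : ∫ t in (0:ℝ)..T, (1 / 2 * rt F G t z * (m.ρ (F t z) / m.ρ z) - rr F G t z) =
      1 / 2 * T * (vOm m F G 0 z / m.ρ z) - ((∫ t in (0:ℝ)..T, vth m F G t z) + k) := by
    rw [intervalIntegral.integral_sub (hc1.intervalIntegrable _ _) (hc2.intervalIntegrable _ _),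
      hk z hzS]
    simp only [e1]
    rw [intervalIntegral.integral_sub (continuous_const.intervalIntegrable _ _)
      ((h.co_th.slice_t hz).intervalIntegrable _ _), intervalIntegral.integral_const]
    simp only [smul_eq_mul, sub_zero]
    ring
  rw [← e2]
  have hc4 : Continuous fun t =>
      1 / 2 * rt F G t z * (m.ρ (F t z) / m.ρ z) - rr F G t z := hc1.sub hc2
  refine (cs_time hc4 hT0).trans ?_
  refine mul_le_mul_of_nonneg_left ?_ hT0.le
  refine intervalIntegral.integral_mono_on hT0.le ((hc4.pow 2).intervalIntegrable _ _)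
    (hc3.intervalIntegrable _ _) fun t _ => ?_
  have := (h.rot_point t hzS).2
  have e3 : (1 / 2 * rt F G t z * (m.ρ (F t z) / m.ρ z) - rr F G t z) ^ 2 =
    (rr F G t z - 1 / 2 * rt F G t z * (m.ρ (F t z) / m.ρ z)) ^ 2 := by ring
  rw [e3]
  exact this

/-- `J (α Ω) = κ ∫ J (e)` for the area function `α`. -/
lemma BEul.area_int (h : BEul m S F G p) (c : BCert m S κ) (hχ : IsCutD Γ S χ) {T : ℝ}
    (hT : ∀ z ∈ S, F T z = F 0 z) : JJ S χ (fun z => bar c F G T z * vOm m F G 0 z) =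
      κ * ∫ t in (0:ℝ)..T, JJ S χ (fun z => ve m F G t z * m.ρ z) := by
  have hO : interior S ⊆ UU := interior_subset.trans h.sub
  have hαc : ContinuousOn (bar c F G T) UU := (h.c1_ar c T).continuousOn
  have hΩc : ContinuousOn (vOm m F G 0) UU := h.co_Om.slice 0
  have hda : ContinuousOn (fun z => fderiv ℝ (bar c F G T) z) UU :=
    (h.c1_ar c T).continuousOn_fderiv_of_isOpen isOpen_UU (by simp)
  have h1 := hχ.J_zero h.dom (WDO.leibniz hO (h.c1_ar c T) (h.wd_A 0))
    (InvFormD.smul (h.inv_ar c hT) (h.inv_A 0)) fun z hz _ g hc => by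
      simp only [smul_apply]
      rw [h.ar_bdy c (h.sub hz) hc (hT z hz), zero_smul]
  have hαΩ : ContinuousOn (fun z => bar c F G T z * vOm m F G 0 z) UU := hαc.mul hΩc
  rw [hχ.J_add (ContinuousOn.wedge hda (h.co_A.slice 0)) hαΩ] at h1
  have hcoZA : CO (fun t z => wedge (vZ m F G t z) (vA m F G 0 z)) := by
    have hA0 : CO (fun _ z => vA m F G 0 z) :=
      ContinuousOn.comp (g := fun z => vA m F G 0 z) (f := fun q : ℝ × ℂ => q.2)
        (h.co_A.slice 0) continuousOn_snd fun q hq => hq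
    exact h.co_Z.wedge hA0
  have h2 : JJ S χ (fun z => wedge (fderiv ℝ (bar c F G T) z) (vA m F G 0 z)) =
      κ * ∫ t in (0:ℝ)..T, JJ S χ (fun z => wedge (vZ m F G t z) (vA m F G 0 z)) := by
    rw [← hχ.J_fubini hcoZA, ← JJ_smul]
    exact JJ_congr fun z hz => h.wedge_ar c hT hz _
  rw [h2] at h1
  have h3 : ∫ t in (0:ℝ)..T, JJ S χ (fun z => wedge (vZ m F G t z) (vA m F G 0 z)) =
      -∫ t in (0:ℝ)..T, JJ S χ (fun z => ve m F G t z * m.ρ z) := by
    rw [← intervalIntegral.integral_neg]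
    exact intervalIntegral.integral_congr fun t _ => h.int_ZA hχ t
  rw [h3] at h1
  linarith

/-- **Main inequality.** -/
theorem BEul.energy_le (h : BEul m S F G p) (c : BCert m S κ) (hχ : IsCutD Γ S χ)
    (hconn : IsPreconnected S) {T : ℝ} (hT0 : 0 < T) (hT : ∀ z ∈ S, F T z = F 0 z) :
    ∫ t in (0:ℝ)..T, JJ S χ (fun z => (bN c F G t z - 1 / 2 * κ * ve m F G t z) * m.ρ z) ≤ 0 := by
  obtain ⟨k, hk, hk0⟩ := h.exists_k hχ hconn hT
  have hy : ∀ z ∈ UU, m.ρ z ≠ 0 := fun z hz => m.ne hz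
  -- abbreviations
  set Ω : ℂ → ℝ := vOm m F G 0 with hΩ
  set a : ℂ → ℝ := fun z => ∫ t in (0:ℝ)..T, vth m F G t z with ha
  set α : ℂ → ℝ := bar c F G T with hα
  have hΩc : ContinuousOn Ω UU := h.co_Om.slice 0
  have hac : ContinuousOn a UU := h.co_th.continuousOn_integral 0 T
  have hαc : ContinuousOn α UU := (h.c1_ar c T).continuousOn
  have hyc : ContinuousOn m.ρ UU := m.hρ.continuousOn
  have co_e : CO (fun t z => ve m F G t z * m.ρ z) := co_rho_mul m h.co_e
  have co_s : CO (fun t z => vss m F G t z * m.ρ z) := co_rho_mul m h.co_ss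
  have co_N : CO (fun t z => bN c F G t z * m.ρ z) := co_rho_mul m (h.co_N c)
  have co_b : CO (fun t z => bbu c F G t z * Ω z) := (h.co_bu c).mul (co_const_t hΩc)
  have E3 := h.area_int c hχ hT
  -- integrate the rotation inequality
  have cL : ContinuousOn (fun z => (1 / 2 * T * (Ω z / m.ρ z) - (a z + k)) ^ 2 * m.ρ z) UU :=
    ((((continuousOn_const.mul (hΩc.div hyc hy)).sub (hac.add continuousOn_const)).pow 2)).mul hyc
  have cR : ContinuousOn (fun z => T * ∫ t in (0:ℝ)..T, vss m F G t z * m.ρ z) UU :=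
    continuousOn_const.mul (co_s.continuousOn_integral 0 T)
  have E6 : JJ S χ (fun z => (1 / 2 * T * (Ω z / m.ρ z) - (a z + k)) ^ 2 * m.ρ z) ≤
      JJ S χ (fun z => T * ∫ t in (0:ℝ)..T, vss m F G t z * m.ρ z) := by
    refine hχ.J_mono cL cR fun z hzi => ?_
    have hz := h.sub (interior_subset hzi)
    rw [intervalIntegral.integral_mul_const, ← mul_assoc]
    exact mul_le_mul_of_nonneg_right (h.rot_le hT0 hk hzi) (m.pos z hz).le
  -- the right-hand side
  have iE : IntervalIntegrable (fun t => JJ S χ (fun z => ve m F G t z * m.ρ z)) volume 0 T :=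
    (hχ.J_cont co_e).intervalIntegrable _ _
  have iN : IntervalIntegrable (fun t => JJ S χ (fun z => bN c F G t z * m.ρ z)) volume 0 T :=
    (hχ.J_cont co_N).intervalIntegrable _ _
  have ib : IntervalIntegrable (fun t => JJ S χ (fun z => bbu c F G t z * Ω z)) volume 0 T :=
    (hχ.J_cont co_b).intervalIntegrable _ _
  have iS : IntervalIntegrable (fun t => JJ S χ (fun z => vss m F G t z * m.ρ z)) volume 0 T :=
    (hχ.J_cont co_s).intervalIntegrable _ _
  set Q : ℝ := JJ S χ (fun z => Ω z ^ 2 / (4 * m.ρ z)) with hQ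
  have E7 : JJ S χ (fun z => T * ∫ t in (0:ℝ)..T, vss m F G t z * m.ρ z) ≤
      T * (T * Q + (∫ t in (0:ℝ)..T, JJ S χ (fun z => bbu c F G t z * Ω z)) -
        (∫ t in (0:ℝ)..T, JJ S χ (fun z => bN c F G t z * m.ρ z)) -
        1 / 2 * κ * ∫ t in (0:ℝ)..T, JJ S χ (fun z => ve m F G t z * m.ρ z)) := by
    rw [JJ_smul, hχ.J_fubini co_s]
    refine mul_le_mul_of_nonneg_left ?_ hT0.le
    have e1 : T * Q + (∫ t in (0:ℝ)..T, JJ S χ (fun z => bbu c F G t z * Ω z)) -
        (∫ t in (0:ℝ)..T, JJ S χ (fun z => bN c F G t z * m.ρ z)) -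
        1 / 2 * κ * (∫ t in (0:ℝ)..T, JJ S χ (fun z => ve m F G t z * m.ρ z)) =
        ∫ t in (0:ℝ)..T, (Q + JJ S χ (fun z => bbu c F G t z * Ω z) -
          JJ S χ (fun z => bN c F G t z * m.ρ z) -
          1 / 2 * κ * JJ S χ (fun z => ve m F G t z * m.ρ z)) := by
      rw [intervalIntegral.integral_sub, intervalIntegral.integral_sub,
        intervalIntegral.integral_add, intervalIntegral.integral_const,
        intervalIntegral.integral_const_mul]
      · simp
      · exact intervalIntegrable_const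
      · exact ib
      · exact intervalIntegrable_const.add ib
      · exact iN
      · exact (intervalIntegrable_const.add ib).sub iN
      · exact iE.const_mul _
    rw [e1]
    exact intervalIntegral.integral_mono_on hT0.le iS
      (((intervalIntegrable_const.add ib).sub iN).sub (iE.const_mul _))
      fun t _ => h.stress_le c hχ t
  -- the left-hand side
  have E8 : JJ S χ (fun z => (1 / 2 * T * (Ω z / m.ρ z) - (a z + k)) ^ 2 * m.ρ z) =
      T ^ 2 * Q - T * JJ S χ (fun z => a z * Ω z) -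
        T * k * JJ S χ Ω + JJ S χ (fun z => (a z + k) ^ 2 * m.ρ z) := by
    have e1 : JJ S χ (fun z => (1 / 2 * T * (Ω z / m.ρ z) - (a z + k)) ^ 2 * m.ρ z) =
        JJ S χ (fun z => T ^ 2 * (Ω z ^ 2 / (4 * m.ρ z)) - T * (a z * Ω z) -
        T * k * Ω z + (a z + k) ^ 2 * m.ρ z) := by
      refine JJ_congr fun z hzi => ?_
      have := hy z (h.sub (interior_subset hzi))
      field_simp
      ring
    have c1 : ContinuousOn (fun z => T ^ 2 * (Ω z ^ 2 / (4 * m.ρ z))) UU :=
      continuousOn_const.mul ((hΩc.pow 2).div (continuousOn_const.mul hyc)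
        fun z hz => mul_ne_zero four_ne_zero (hy z hz))
    have c2 : ContinuousOn (fun z => T * (a z * Ω z)) UU := continuousOn_const.mul (hac.mul hΩc)
    have c3 : ContinuousOn (fun z => T * k * Ω z) UU := continuousOn_const.mul hΩc
    have c4 : ContinuousOn (fun z => (a z + k) ^ 2 * m.ρ z) UU :=
      ((hac.add continuousOn_const).pow 2).mul hyc
    have c12 : ContinuousOn (fun z => T ^ 2 * (Ω z ^ 2 / (4 * m.ρ z)) - T * (a z * Ω z)) UU :=
      c1.sub c2
    have c123 : ContinuousOn (fun z => T ^ 2 * (Ω z ^ 2 / (4 * m.ρ z)) - T * (a z * Ω z) -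
        T * k * Ω z) UU := c12.sub c3
    rw [e1, hχ.J_add c123 c4, hχ.J_sub c12 c3, hχ.J_sub c1 c2, JJ_smul, JJ_smul, JJ_smul]
  have E9 : 0 ≤ JJ S χ (fun z => (a z + k) ^ 2 * m.ρ z) :=
    hχ.J_nonneg fun z hzi => mul_nonneg (sq_nonneg _) (m.pos z (h.sub (interior_subset hzi))).le
  -- `a = α - ∫ b`
  have E10 : JJ S χ (fun z => a z * Ω z) = JJ S χ (fun z => α z * Ω z) -
      ∫ t in (0:ℝ)..T, JJ S χ (fun z => bbu c F G t z * Ω z) := by
    have cα : ContinuousOn (fun z => α z * Ω z) UU := hαc.mul hΩc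
    have cb : ContinuousOn (fun z => ∫ t in (0:ℝ)..T, bbu c F G t z * Ω z) UU :=
      co_b.continuousOn_integral 0 T
    rw [← hχ.J_fubini co_b, ← hχ.J_sub cα cb]
    refine JJ_congr fun z hzi => ?_
    have hz := h.sub (interior_subset hzi)
    rw [intervalIntegral.integral_mul_const]
    have e2 : a z = α z - ∫ t in (0:ℝ)..T, bbu c F G t z := by
      simp only [ha, hα, bar]
      rw [← intervalIntegral.integral_sub (((h.co_au c).slice_t hz).intervalIntegrable _ _)
        (((h.co_bu c).slice_t hz).intervalIntegrable _ _)]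
      congr 1
      ext t
      rw [vth, bau, bbu, BCert.M1, BCert.M2]
      ring
    rw [e2]
    ring
  have E12 : ∫ t in (0:ℝ)..T, JJ S χ (fun z => (bN c F G t z - 1 / 2 * κ * ve m F G t z) * m.ρ z) =
      (∫ t in (0:ℝ)..T, JJ S χ (fun z => bN c F G t z * m.ρ z)) -
      1 / 2 * κ * ∫ t in (0:ℝ)..T, JJ S χ (fun z => ve m F G t z * m.ρ z) := by
    rw [← intervalIntegral.integral_const_mul, ← intervalIntegral.integral_sub iN
      (iE.const_mul _)]
    refine intervalIntegral.integral_congr fun t _ => ?_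
    have ce : ContinuousOn (fun z => 1 / 2 * κ * (ve m F G t z * m.ρ z)) UU :=
      continuousOn_const.mul (co_e.slice t)
    rw [← JJ_smul, ← hχ.J_sub (co_N.slice t) ce]
    refine JJ_congr fun z _ => ?_
    ring
  have hk1 : T * k * JJ S χ Ω = 0 := by rw [mul_assoc, hk0, mul_zero]
  rw [E8, hk1, E10, E3] at E6
  rw [E12]
  have h7 := E6.trans E7
  nlinarith

end Pool.Agent.CG
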