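import Pool.Agent.Lib.MP_35454f_h77.Cut

/-!
# Motions of a domain with geodesic boundary preserving the area form of a conformal metric
-/

set_option autoImplicit false

open MeasureTheory Filter Topology Complex Set
open UpperHalfPlane hiding I
open scoped ContDiff Manifold MatrixGroups Interval

namespace Pool.Agent.CG

variable {Γ : Subgroup SL(2, ℝ)} {S : Set ℂ} {m : Met Γ} {F G : ℝ → ℂ → ℂ}

/-- A motion `F` of the domain `S` with velocity `G = ∂ₜ F` preserving the area form of `m`. -/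
structure BMot (m : Met Γ) (S : Set ℂ) (F G : ℝ → ℂ → ℂ) : Prop where
  sub : S ⊆ UU
  mem : ∀ t, ∀ z ∈ UU, F t z ∈ UU
  memS : ∀ t, ∀ z ∈ S, F t z ∈ S
  c1F : C1 F
  c1G : C1 G
  dF : ∀ t, ∀ z ∈ UU, HasDerivAt (fun s => F s z) (G t z) t
  area : ∀ t, ∀ z ∈ S, wedge (dRe F t z) (dIm F t z) = m.ρ z / m.ρ (F t z)

lemma BMot.c1R (h : BMot m S F G) : C1 (fun t z => m.ρ (F t z)) := C1.comp_F m.hρ h.c1F h.mem

lemma BMot.c1L1 (h : BMot m S F G) : C1 (fun t z => m.l1 (F t z)) := C1.comp_F m.hl1 h.c1F h.mem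

lemma BMot.c1L2 (h : BMot m S F G) : C1 (fun t z => m.l2 (F t z)) := C1.comp_F m.hl2 h.c1F h.mem

lemma BMot.R_pos (h : BMot m S F G) (t : ℝ) {z : ℂ} (hz : z ∈ UU) : 0 < m.ρ (F t z) :=
  m.pos _ (h.mem t z hz)

lemma BMot.R_ne (h : BMot m S F G) : ∀ t, ∀ z ∈ UU, m.ρ (F t z) ≠ 0 :=
  fun t _ hz => (h.R_pos t hz).ne'

lemma BMot.wXY (h : BMot m S F G) (t : ℝ) {z : ℂ} (hz : z ∈ S) :
    wedge (dRe F t z) (dIm F t z) = m.ρ z / m.ρ (F t z) := h.area t z hz

/-- the position in terms of the velocity -/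
lemma BMot.eq_integral (h : BMot m S F G) (t : ℝ) {z : ℂ} (hz : z ∈ UU) :
    F t z = F 0 z + ∫ s in (0:ℝ)..t, G s z := by
  rw [intervalIntegral.integral_eq_sub_of_hasDerivAt (fun s _ => h.dF s z hz)
    ((h.c1G.co.slice_t hz).intervalIntegrable _ _)]
  ring

lemma BMot.fderiv_eq_integral (h : BMot m S F G) (t : ℝ) {z : ℂ} (hz : z ∈ UU) :
    fderiv ℝ (F t) z = fderiv ℝ (F 0) z + ∫ s in (0:ℝ)..t, fderiv ℝ (G s) z := by
  have h1 : F t =ᶠ[𝓝 z] fun w => F 0 w + ∫ s in (0:ℝ)..t, G s w := by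
    filter_upwards [isOpen_UU.mem_nhds hz] with w hw using h.eq_integral t hw
  have h2 : HasFDerivAt (fun w => F 0 w + ∫ s in (0:ℝ)..t, G s w)
      (fderiv ℝ (F 0) z + ∫ s in (0:ℝ)..t, fderiv ℝ (G s) z) z :=
    (h.c1F.hasFDerivAt 0 hz).add (hasFDerivAt_param h.c1G.co h.c1G.co_fderiv
      (fun t z hz => h.c1G.hasFDerivAt t hz) 0 t hz)
  rw [h1.fderiv_eq, h2.fderiv]

/-- the mixed second derivative -/
lemma BMot.hasDerivAt_fderiv (h : BMot m S F G) (t : ℝ) {z : ℂ} (hz : z ∈ UU) :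
    HasDerivAt (fun s => fderiv ℝ (F s) z) (fderiv ℝ (G t) z) t := by
  have h1 : (fun s => fderiv ℝ (F s) z) =
      fun t => fderiv ℝ (F 0) z + ∫ s in (0:ℝ)..t, fderiv ℝ (G s) z := by
    ext1 s
    exact h.fderiv_eq_integral s hz
  rw [h1]
  exact (intervalIntegral.integral_hasDerivAt_right
    ((h.c1G.co_fderiv.slice_t hz).intervalIntegrable _ _)
    ((h.c1G.co_fderiv.slice_t hz).stronglyMeasurableAtFilter _ _)
    (h.c1G.co_fderiv.slice_t hz).continuousAt).const_add _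

lemma BMot.hasDerivAt_dRe (h : BMot m S F G) (t : ℝ) {z : ℂ} (hz : z ∈ UU) (w : ℂ) :
    HasDerivAt (fun s => dRe F s z w) (dRe G t z w) t := by
  have h1 := ((h.hasDerivAt_fderiv t hz).clm_apply (hasDerivAt_const t w))
  simp only [map_zero, add_zero] at h1
  exact reCLM.hasFDerivAt.comp_hasDerivAt t h1

lemma BMot.hasDerivAt_dIm (h : BMot m S F G) (t : ℝ) {z : ℂ} (hz : z ∈ UU) (w : ℂ) :
    HasDerivAt (fun s => dIm F s z w) (dIm G t z w) t := by
  have h1 := ((h.hasDerivAt_fderiv t hz).clm_apply (hasDerivAt_const t w))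
  simp only [map_zero, add_zero] at h1
  exact imCLM.hasFDerivAt.comp_hasDerivAt t h1

lemma BMot.hasDerivAt_re (h : BMot m S F G) (t : ℝ) {z : ℂ} (hz : z ∈ UU) :
    HasDerivAt (fun s => (F s z).re) (G t z).re t :=
  reCLM.hasFDerivAt.comp_hasDerivAt t (h.dF t z hz)

lemma BMot.hasDerivAt_im (h : BMot m S F G) (t : ℝ) {z : ℂ} (hz : z ∈ UU) :
    HasDerivAt (fun s => (F s z).im) (G t z).im t :=
  imCLM.hasFDerivAt.comp_hasDerivAt t (h.dF t z hz)

/-- time derivative of a function along the motion -/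
lemma BMot.hasDerivAt_comp (h : BMot m S F G) {f : ℂ → ℝ} (hf : ContDiffOn ℝ 1 f UU) (t : ℝ) {z : ℂ}
    (hz : z ∈ UU) : HasDerivAt (fun s => f (F s z)) (fderiv ℝ f (F t z) (G t z)) t :=
  (((hf.contDiffAt (isOpen_UU.mem_nhds (h.mem t z hz))).differentiableAt
    one_ne_zero).hasFDerivAt).comp_hasDerivAt t (h.dF t z hz)

/-- space derivative of a function along the motion -/
lemma BMot.hasFDerivAt_comp (h : BMot m S F G) {f : ℂ → ℝ} (hf : ContDiffOn ℝ 1 f UU) (t : ℝ) {z : ℂ}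
    (hz : z ∈ UU) : HasFDerivAt (fun z => f (F t z))
      ((fderiv ℝ f (F t z) 1) • dRe F t z + (fderiv ℝ f (F t z) I) • dIm F t z) z := by
  have h1 : HasFDerivAt f (fderiv ℝ f (F t z)) (F t z) :=
    ((hf.contDiffAt (isOpen_UU.mem_nhds (h.mem t z hz))).differentiableAt
      one_ne_zero).hasFDerivAt
  refine (h1.comp z (h.c1F.hasFDerivAt t hz)).congr_fderiv ?_
  ext w
  rw [fderiv_comp_eq]
  rfl

lemma BMot.hasDerivAt_R (h : BMot m S F G) (t : ℝ) {z : ℂ} (hz : z ∈ UU) :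
    HasDerivAt (fun s => m.ρ (F s z)) (2 * m.ρ (F t z) * (m.l1 (F t z) * (G t z).re +
      m.l2 (F t z) * (G t z).im)) t := by
  refine ((m.dρ _ (h.mem t z hz)).comp_hasDerivAt t (h.dF t z hz)).congr_deriv ?_
  simp only [add_apply, smul_apply, smul_eq_mul, reCLM_apply, imCLM_apply]
  ring

lemma BMot.hasFDerivAt_R (h : BMot m S F G) (t : ℝ) {z : ℂ} (hz : z ∈ UU) :
    HasFDerivAt (fun z => m.ρ (F t z)) (dR m F t z) z := by
  refine ((m.dρ _ (h.mem t z hz)).comp z (h.c1F.hasFDerivAt t hz)).congr_fderiv ?_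
  ext w
  simp only [dR, ContinuousLinearMap.comp_apply, add_apply, smul_apply, smul_eq_mul,
    reCLM_apply, imCLM_apply, dRe_apply, dIm_apply]

/-- Incompressibility in Lagrangian variables. -/
lemma BMot.incompr (h : BMot m S F G) (t : ℝ) {z : ℂ} (hzS : z ∈ S) :
    wedge (dRe G t z) (dIm F t z) - wedge (dIm G t z) (dRe F t z) =
      -(2 * m.ρ z * (m.l1 (F t z) * (G t z).re + m.l2 (F t z) * (G t z).im)) / m.ρ (F t z) := by
  have hz := h.sub hzS
  have h0 := h.R_ne t z hz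
  have h1 : HasDerivAt (fun s => wedge (dRe F s z) (dIm F s z))
      (-(2 * m.ρ z * (m.l1 (F t z) * (G t z).re + m.l2 (F t z) * (G t z).im)) / m.ρ (F t z)) t := by
    have h2 : (fun s => wedge (dRe F s z) (dIm F s z)) = fun s => m.ρ z / m.ρ (F s z) := by
      ext s; exact h.wXY s hzS
    rw [h2]
    refine ((hasDerivAt_const t (m.ρ z)).fun_div (h.hasDerivAt_R t hz) h0).congr_deriv ?_
    field_simp
    ring
  have h3 : HasDerivAt (fun s => wedge (dRe F s z) (dIm F s z))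
      ((dRe G t z 1 * dIm F t z I + dRe F t z 1 * dIm G t z I) -
        (dRe G t z I * dIm F t z 1 + dRe F t z I * dIm G t z 1)) t :=
    ((h.hasDerivAt_dRe t hz 1).mul (h.hasDerivAt_dIm t hz I)).sub
      ((h.hasDerivAt_dRe t hz I).mul (h.hasDerivAt_dIm t hz 1))
  rw [← h3.unique h1]
  simp only [wedge]
  ring

lemma BMot.co_rt (h : BMot m S F G) : CO (rt F G) :=
  (h.c1G.co_dRe.wedge h.c1F.co_dRe).add (h.c1G.co_dIm.wedge h.c1F.co_dIm)

lemma BMot.co_th (h : BMot m S F G) : CO (vth m F G) :=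
  (h.c1L1.co.mul h.c1G.im.co).sub (h.c1L2.co.mul h.c1G.re.co)

lemma BMot.co_Om (h : BMot m S F G) : CO (vOm m F G) :=
  (h.c1R.co.mul h.co_rt).add (((CO.const 2).mul m.co_ρ).mul h.co_th)

lemma BMot.c1_e (h : BMot m S F G) : C1 (ve m F G) :=
  h.c1R.mul ((h.c1G.re.pow 2).add (h.c1G.im.pow 2))

lemma BMot.co_e (h : BMot m S F G) : CO (ve m F G) := h.c1_e.co

lemma BMot.co_ss (h : BMot m S F G) : CO (vss m F G) := by
  refine CO.mul (CO.mul (CO.const _) (CO.pow (CO.div h.c1R.co m.co_ρ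
    fun t z hz => m.ne hz) 2)) (CO.add (CO.pow (CO.sub ?_ ?_) 2)
    (CO.pow (CO.add ?_ ?_) 2))
  · exact h.c1G.co_dIm.wedge h.c1F.co_dIm
  · exact h.c1G.co_dRe.wedge h.c1F.co_dRe
  · exact h.c1G.co_dRe.wedge h.c1F.co_dIm
  · exact h.c1G.co_dIm.wedge h.c1F.co_dRe

lemma BMot.co_A (h : BMot m S F G) : CO (vA m F G) :=
  ((h.c1R.co.mul h.c1G.re.co).smul h.c1F.co_dRe).addf
  ((h.c1R.co.mul h.c1G.im.co).smul h.c1F.co_dIm)

lemma BMot.co_Z (h : BMot m S F G) : CO (vZ m F G) :=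
  ((h.c1R.co.mul h.c1G.re.co).smul h.c1F.co_dIm).subf
  ((h.c1R.co.mul h.c1G.im.co).smul h.c1F.co_dRe)

lemma BMot.hasFDerivAt_RG_re (h : BMot m S F G) (t : ℝ) {z : ℂ} (hz : z ∈ UU) :
    HasFDerivAt (fun z => m.ρ (F t z) * (G t z).re)
      (m.ρ (F t z) • dRe G t z + (G t z).re • dR m F t z) z :=
  (h.hasFDerivAt_R t hz).fun_mul (h.c1G.hasFDerivAt_re t hz)

lemma BMot.hasFDerivAt_RG_im (h : BMot m S F G) (t : ℝ) {z : ℂ} (hz : z ∈ UU) :
    HasFDerivAt (fun z => m.ρ (F t z) * (G t z).im)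
      (m.ρ (F t z) • dIm G t z + (G t z).im • dR m F t z) z :=
  (h.hasFDerivAt_R t hz).fun_mul (h.c1G.hasFDerivAt_im t hz)

lemma BMot.hasFDerivAt_e (h : BMot m S F G) (t : ℝ) {z : ℂ} (hz : z ∈ UU) :
    HasFDerivAt (ve m F G t) (vde m F G t z) z := by
  have hsq : HasFDerivAt (fun z => (G t z).re ^ 2 + (G t z).im ^ 2)
      ((2 * (G t z).re) • dRe G t z + (2 * (G t z).im) • dIm G t z) z := by
    have := (hasFDerivAt_pow' (h.c1G.hasFDerivAt_re t hz) 2).fun_add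
      (hasFDerivAt_pow' (h.c1G.hasFDerivAt_im t hz) 2)
    refine this.congr_fderiv ?_
    ext w
    simp
  refine ((h.hasFDerivAt_R t hz).fun_mul hsq).congr_fderiv ?_
  ext w
  simp only [vde, add_apply, smul_apply, smul_eq_mul]
  ring

/-- `α` has weak exterior derivative the vorticity. -/
lemma BMot.wd_A (h : BMot m S F G) (t : ℝ) : WDO (interior S) (vA m F G t) (vOm m F G t) := by
  refine (((WD.mul ((h.c1R.mul h.c1G.re).slice t) (h.c1F.re.slice t)).add
    (WD.mul ((h.c1R.mul h.c1G.im).slice t) (h.c1F.im.slice t))).wdo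
    (interior_subset.trans h.sub)).congr (h.co_A.slice t) (h.co_Om.slice t)
    (fun z hzi => ?_) (fun z hzi => ?_) <;> (have hzS := interior_subset hzi) <;>
    (have hz := h.sub hzS)
  · rw [(h.c1F.hasFDerivAt_re t hz).fderiv, (h.c1F.hasFDerivAt_im t hz).fderiv]
    rfl
  · rw [(h.c1F.hasFDerivAt_re t hz).fderiv, (h.c1F.hasFDerivAt_im t hz).fderiv,
      (h.hasFDerivAt_RG_re t hz).fderiv, (h.hasFDerivAt_RG_im t hz).fderiv]
    simp only [dR, wedge_add_left, wedge_smul_left, wedge_self]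
    rw [wedge_swap (dIm F t z) (dRe F t z), h.wXY t hzS, vOm, rt, vth]
    have h1 := h.R_ne t z hz
    field_simp
    ring

/-- `ζ` is weakly closed. -/
lemma BMot.wd_Z (h : BMot m S F G) (t : ℝ) : WDO (interior S) (vZ m F G t) (fun _ => 0) := by
  refine (((WD.mul ((h.c1R.mul h.c1G.re).slice t) (h.c1F.im.slice t)).sub
    (WD.mul ((h.c1R.mul h.c1G.im).slice t) (h.c1F.re.slice t))).wdo
    (interior_subset.trans h.sub)).congr (h.co_Z.slice t) continuousOn_const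
    (fun z hzi => ?_) (fun z hzi => ?_) <;> (have hzS := interior_subset hzi) <;>
    (have hz := h.sub hzS)
  · rw [(h.c1F.hasFDerivAt_re t hz).fderiv, (h.c1F.hasFDerivAt_im t hz).fderiv]
    rfl
  · rw [(h.c1F.hasFDerivAt_re t hz).fderiv, (h.c1F.hasFDerivAt_im t hz).fderiv,
      (h.hasFDerivAt_RG_re t hz).fderiv, (h.hasFDerivAt_RG_im t hz).fderiv]
    simp only [dR, wedge_add_left, wedge_smul_left, wedge_self]
    have h3 := h.incompr t hzS
    have h4 : wedge (dRe G t z) (dIm F t z) = wedge (dIm G t z) (dRe F t z) +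
      -(2 * m.ρ z * (m.l1 (F t z) * (G t z).re + m.l2 (F t z) * (G t z).im)) / m.ρ (F t z) := by
      linarith
    rw [wedge_swap (dIm F t z) (dRe F t z), h.wXY t hzS, h4]
    have h1 := h.R_ne t z hz
    field_simp
    ring

lemma BMot.co_B (h : BMot m S F G) : CO (vB m F G) := by
  have hC := CO.const (1/2)
  exact CO.addf (CO.subf (CO.smul (hC.mul (h.c1R.co.mul h.c1G.re.co)) h.c1G.co_dIm)
    (CO.smul (hC.mul (h.c1R.co.mul h.c1G.im.co)) h.c1G.co_dRe))
    (CO.subf (CO.smul (hC.mul (h.co_e.mul h.c1L1.co)) h.c1F.co_dIm)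
    (CO.smul (hC.mul (h.co_e.mul h.c1L2.co)) h.c1F.co_dRe))

lemma co_fderiv_compB {f : ℂ → ℝ} (hf : ContDiffOn ℝ 1 f UU) (h : BMot m S F G) (v : ℂ) :
    CO (fun t z => fderiv ℝ f (F t z) v) := by
  have h1 : ContinuousOn (fun z => fderiv ℝ f z v) UU :=
    (hf.continuousOn_fderiv_of_isOpen isOpen_UU (by simp)).clm_apply continuousOn_const
  exact CO.comp_F h1 h.c1F.co h.mem

lemma BMot.co_kc (h : BMot m S F G) : CO (fun t z => m.kc (F t z)) :=
  CO.neg (CO.add (co_fderiv_compB m.hl1 h 1) (co_fderiv_compB m.hl2 h I))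

lemma BMot.co_κB (h : BMot m S F G) :
    CO (fun t z => vOm m F G t z ^ 2 / (4 * m.ρ z) - vss m F G t z * m.ρ z -
      1 / 2 * (m.kc (F t z) * ((G t z).re ^ 2 + (G t z).im ^ 2) * m.ρ z)) := by
  refine CO.sub (CO.sub (CO.div (h.co_Om.pow 2) ((CO.const 4).mul m.co_ρ) ?_)
    (h.co_ss.mul m.co_ρ)) ((CO.const (1/2)).mul ((h.co_kc.mul
      ((h.c1G.re.co.pow 2).add (h.c1G.im.co.pow 2))).mul m.co_ρ))
  exact fun t z hz => mul_ne_zero four_ne_zero (m.ne hz)

/-- The Bochner identity. -/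
lemma BMot.wd_B (h : BMot m S F G) (t : ℝ) :
    WDO (interior S) (vB m F G t) (fun z => vOm m F G t z ^ 2 / (4 * m.ρ z) - vss m F G t z * m.ρ z -
      1 / 2 * (m.kc (F t z) * ((G t z).re ^ 2 + (G t z).im ^ 2) * m.ρ z)) := by
  refine (((((WD.mul ((h.c1R.mul h.c1G.re).slice t) (h.c1G.im.slice t)).smul_const (1/2)).sub
    ((WD.mul ((h.c1R.mul h.c1G.im).slice t) (h.c1G.re.slice t)).smul_const (1/2))).add
    (((WD.mul ((h.c1_e.mul h.c1L1).slice t) (h.c1F.im.slice t)).smul_const (1/2)).sub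
    ((WD.mul ((h.c1_e.mul h.c1L2).slice t) (h.c1F.re.slice t)).smul_const (1/2)))).wdo
    (interior_subset.trans h.sub)).congr (h.co_B.slice t) (h.co_κB.slice t)
    (fun z hzi => ?_) (fun z hzi => ?_) <;> (have hzS := interior_subset hzi) <;>
    (have hz := h.sub hzS)
  · rw [(h.c1F.hasFDerivAt_re t hz).fderiv, (h.c1F.hasFDerivAt_im t hz).fderiv,
      (h.c1G.hasFDerivAt_re t hz).fderiv, (h.c1G.hasFDerivAt_im t hz).fderiv]
    ext w
    simp only [vB, add_apply, smul_apply, sub_apply, smul_eq_mul]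
    ring
  · have he1 := (h.hasFDerivAt_e t hz).fun_mul (h.hasFDerivAt_comp m.hl1 t hz)
    have he2 := (h.hasFDerivAt_e t hz).fun_mul (h.hasFDerivAt_comp m.hl2 t hz)
    rw [(h.c1F.hasFDerivAt_re t hz).fderiv, (h.c1F.hasFDerivAt_im t hz).fderiv,
      (h.c1G.hasFDerivAt_re t hz).fderiv, (h.c1G.hasFDerivAt_im t hz).fderiv,
      (h.hasFDerivAt_RG_re t hz).fderiv, (h.hasFDerivAt_RG_im t hz).fderiv,
      he1.fderiv, he2.fderiv]
    simp only [dR, vde, wedge_sub_left, wedge_smul_left, wedge_self, wedge_sub_right,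
      wedge_smul_right, wedge_add_left]
    have hinc := h.incompr t hzS
    have hpl := plucker (dRe G t z) (dIm G t z) (dRe F t z) (dIm F t z)
    have hXY := h.wXY t hzS
    rw [hXY] at hpl
    rw [wedge_swap (dIm F t z) (dRe F t z), wedge_swap (dIm F t z) (dRe G t z),
      wedge_swap (dIm F t z) (dIm G t z), wedge_swap (dRe F t z) (dRe G t z),
      wedge_swap (dRe F t z) (dIm G t z),
      wedge_swap (dIm G t z) (dRe G t z), hXY, vOm, rt, vss, ve, vth, Met.kc]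
    have h1 := h.R_ne t z hz
    have h2 : m.ρ z ≠ 0 := m.ne hz
    generalize wedge (dRe G t z) (dRe F t z) = al at *
    generalize wedge (dIm G t z) (dIm F t z) = de at *
    generalize wedge (dRe G t z) (dIm G t z) = ka at *
    generalize wedge (dIm G t z) (dRe F t z) = ga at *
    generalize wedge (dRe G t z) (dIm F t z) = be at *
    generalize (G t z).re = P at *
    generalize (G t z).im = Q at *
    generalize m.ρ (F t z) = R at *
    generalize m.ρ z = r at *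
    generalize m.l1 (F t z) = L at *
    generalize m.l2 (F t z) = M at *
    generalize fderiv ℝ m.l1 (F t z) 1 = L1 at *
    generalize fderiv ℝ m.l1 (F t z) I = L2 at *
    generalize fderiv ℝ m.l2 (F t z) 1 = M1 at *
    generalize fderiv ℝ m.l2 (F t z) I = M2 at *
    have hbe : be = ga + -(2 * r * (L * P + M * Q)) / R := by linarith
    have hka : ka = (al * de - be * ga) * (R / r) := by
      field_simp at hpl ⊢
      linarith
    rw [hka, hbe]
    field_simp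
    ring

end Pool.Agent.CG
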