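import Pool.Agent.Lib.MP_35454f_h77.BFinal
import Pool.Agent.Lib.MP_35454f.VNear2

/-!
# Surfaces with boundary and metrics close to a hyperbolic metric with geodesic boundary
-/

set_option autoImplicit false

open Filter Topology Complex Set
open UpperHalfPlane hiding I
open scoped ContDiff Manifold MatrixGroups

namespace Pool.Agent.CG

variable {Γ : Subgroup SL(2, ℝ)} {D : Set ℍ} {f : ℍ → ℝ}

/-- The boundary condition of the certificate `X` is `df (n) ≥ 0`. -/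
lemma Good.bdy_XX (h : Good Γ f) (hε : ∀ w ∈ UU, 0 < 1 + (1:ℝ) * sc f w) (z : ℍ) (n : ℂ) :
    fderiv ℝ (fun w : ℂ => sig f 1 (ofComplex w)) (z : ℂ) n / (2 * sig f 1 z) +
      rho (sig f 1) z * ((starRingEnd ℂ n) * XX f 1 z).re =
      fderiv ℝ (fun w : ℂ => f (ofComplex w)) (z : ℂ) n := by
  have hz := coe_mem_UU z
  have hσ := h.conf hε
  have hl := hσ.lam_eq hz
  have h1 := fieldX_XX h hε hz
  have h2 := fieldY_XX h hε hz
  rw [hl.1] at h1
  rw [hl.2] at h2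
  rw [ofComplex_apply] at h1 h2
  have hs := hσ.pos z
  set L := fderiv ℝ (fun w : ℂ => sig f 1 (ofComplex w)) (z : ℂ) with hL
  set M := fderiv ℝ (fun w : ℂ => f (ofComplex w)) (z : ℂ) with hM
  have hx : fx f z = M 1 := rfl
  have hy : fy f z = M I := rfl
  rw [hx] at h1
  rw [hy] at h2
  have e1 : rho (sig f 1) z * ((starRingEnd ℂ n) * XX f 1 z).re =
      rho (sig f 1) z * fieldX (XX f 1) z * n.re + rho (sig f 1) z * fieldY (XX f 1) z * n.im := by
    simp only [mul_re, conj_re, conj_im, fieldX, fieldY, ofComplex_apply]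
    ring
  rw [e1, h1, h2, clm_eq L n, clm_eq M n]
  field_simp
  ring

/-- **Near-hyperbolic metrics on surfaces with boundary have no closed geodesics.** -/
theorem noClosedGeodesic_nearD (hS : IsSurface Γ D)
    (hf : ContDiffOn ℝ 4 (fun w : ℂ => f (ofComplex w)) {w | 0 < w.im})
    (hi : ∀ γ ∈ Γ, ∀ z, f (γ • z) = f z)
    (hb : ∀ j : ℕ, 1 ≤ j → j ≤ 4 → ∀ z : ℍ,
      z.im ^ j * ‖iteratedFDeriv ℝ j (fun w : ℂ => f (ofComplex w)) z‖ ≤ 1 / 50)
    (hn : ∀ z ∈ frontier D, ∀ n : ℂ, IsOuterNormal D z n →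
      0 ≤ fderiv ℝ (fun w : ℂ => f (ofComplex w)) (z : ℂ) n) :
    IsConformalFactor Γ (fun z => 1 + hypLap f z) ∧
    ∀ φ : ℝ → ℍ → ℍ, IsGeodesicD Γ D (fun z => 1 + hypLap f z) φ → ∀ T : ℝ, 0 < T →
      (∀ z ∈ D, ∃ γ ∈ Γ, φ T z = γ • z) → ∀ t, ∀ z ∈ D, φ t z = z := by
  have h : Good Γ f := ⟨hf, hi⟩
  have hB : ∀ z : ℍ, Bd f z := fun z => ⟨hb 1 le_rfl (by norm_num) z, hb 2 (by norm_num) (by norm_num) z,
    hb 3 (by norm_num) (by norm_num) z, hb 4 (by norm_num) le_rfl z⟩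
  have hε : ∀ w ∈ UU, 0 < 1 + (1:ℝ) * sc f w := by
    intro w hw
    have h1 := h.S0 (hB ⟨w, hw⟩)
    have h2 : |sc f w| ≤ 1 / 25 := h1
    have := (abs_le.mp h2).1
    linarith
  have hσ := h.conf hε
  have e : sig f 1 = fun z => 1 + hypLap f z := by
    funext z
    simp [sig]
  have hcert : IsCertificateD Γ D (sig f 1) (-1) (XX f 1) :=
    ⟨h.contDiffOn_XX hε, fun γ hγ z _ => h.XX_inv hε hγ z, fun z _ => h.div_XX hε z,
      fun z _ v hv => h.near_pos hB z hv, fun z hz n hzn => by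
        rw [h.bdy_XX hε z n]
        exact hn z hz n hzn⟩
  rw [← e]
  exact ⟨hσ, fun φ hφ T hT hret t z hz => noClosedGeodesicD hS hσ hcert hφ hT hret t hz⟩

end Pool.Agent.CG
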