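import Pool.Agent.Lib.MP_35454f_h77.BArea

/-!
# Rotation of material line elements and the stress form, domains with geodesic boundary
-/

set_option autoImplicit false

open MeasureTheory Filter Topology Complex Set
open UpperHalfPlane hiding I
open scoped ContDiff Manifold MatrixGroups Interval

namespace Pool.Agent.CG

variable {Γ : Subgroup SL(2, ℝ)} {S : Set ℂ} {m : Met Γ} {F G : ℝ → ℂ → ℂ}
  {p : ℝ → ℂ → ℝ} {κ : ℝ}

lemma BMot.rot_point (h : BMot m S F G) (t : ℝ) {z : ℂ} (hzS : z ∈ S) :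
    cl F t z ≠ 0 ∧ (rr F G t z - 1 / 2 * rt F G t z * (m.ρ (F t z) / m.ρ z)) ^ 2 ≤
      vss m F G t z := by
  have hz := h.sub hzS
  have hy : 0 < m.ρ z := m.pos z hz
  have hY := h.R_pos t hz
  have hJ := h.wXY t hzS
  simp only [wedge, dRe_apply, dIm_apply] at hJ
  have hJ0 : 0 < m.ρ z / m.ρ (F t z) := by positivity
  have hc : cl F t z = ⟨(fderiv ℝ (F t) z 1).re + (fderiv ℝ (F t) z I).im,
      (fderiv ℝ (F t) z 1).im - (fderiv ℝ (F t) z I).re⟩ := by
    apply Complex.ext <;> simp [cl]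
  have hc' : cl G t z = ⟨(fderiv ℝ (G t) z 1).re + (fderiv ℝ (G t) z I).im,
      (fderiv ℝ (G t) z 1).im - (fderiv ℝ (G t) z I).re⟩ := by
    apply Complex.ext <;> simp [cl]
  have h1 := rot_alg (Px := (fderiv ℝ (G t) z 1).re) (Py := (fderiv ℝ (G t) z I).re)
    (Qx := (fderiv ℝ (G t) z 1).im) (Qy := (fderiv ℝ (G t) z I).im) hJ hJ0 hc hc'
  refine ⟨h1.1, ?_⟩
  have h2 := h1.2
  rw [rr, rt, vss]
  simp only [wedge, dRe_apply, dIm_apply]
  have e1 : m.ρ (F t z) / m.ρ z = 1 / (m.ρ z / m.ρ (F t z)) := by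
    rw [one_div_div]
  rw [e1]
  refine le_trans (le_of_eq ?_) (h2.trans (le_of_eq ?_))
  · congr 1
    ring
  · ring

lemma BMot.hasDerivAt_cl (h : BMot m S F G) (t : ℝ) {z : ℂ} (hz : z ∈ UU) :
    HasDerivAt (fun s => cl F s z) (cl G t z) t := by
  have h1 : ∀ w : ℂ, HasDerivAt (fun s => fderiv ℝ (F s) z w) (fderiv ℝ (G t) z w) t := by
    intro w
    have := ((h.hasDerivAt_fderiv t hz).clm_apply (hasDerivAt_const t w))
    simpa using this
  exact (h1 1).sub ((h1 I).const_mul I)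

lemma BMot.cont_rr (h : BMot m S F G) : Continuous fun q : S × ℝ => rr F G q.2 q.1 := by
  have hm : ∀ q : S × ℝ, (q.2, (q.1 : ℂ)) ∈ UT := fun q => h.sub q.1.2
  have hc : Continuous fun q : S × ℝ => (q.2, (q.1 : ℂ)) := by fun_prop
  have h1 : Continuous fun q : S × ℝ => cl G q.2 q.1 :=
    ContinuousOn.comp_continuous (g := fun q : ℝ × ℂ => cl G q.1 q.2) h.c1G.co_cl hc hm
  have h2 : Continuous fun q : S × ℝ => cl F q.2 q.1 :=
    ContinuousOn.comp_continuous (g := fun q : ℝ × ℂ => cl F q.1 q.2) h.c1F.co_cl hc hm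
  exact continuous_im.comp (h1.div h2 fun q => (h.rot_point q.2 q.1.2).1)

lemma BMot.cont_rr_t (h : BMot m S F G) {z : ℂ} (hz : z ∈ S) : Continuous fun t => rr F G t z :=
  h.cont_rr.comp (f := fun t : ℝ => ((⟨z, hz⟩ : S), t)) (by fun_prop)

/-- A closed motion has the same differential at time `0` and at time `T`. -/
lemma BMot.fderiv_T (h : BMot m S F G) (hD : Dom Γ S) {T : ℝ} (hT : ∀ z ∈ S, F T z = F 0 z)
    {z : ℂ} (hz : z ∈ S) : fderiv ℝ (F T) z = fderiv ℝ (F 0) z := by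
  refine hD.eq_of_interior (f := fun z => fderiv ℝ (F T) z) (g := fun z => fderiv ℝ (F 0) z)
    (h.c1F.co_fderiv.slice T) (h.c1F.co_fderiv.slice 0) (fun z hz => ?_) hz
  have h4 : F T =ᶠ[𝓝 z] F 0 := by
    filter_upwards [isOpen_interior.mem_nhds hz] with w hw using hT w (interior_subset hw)
  exact h4.fderiv_eq

/-- The total rotation of a closed motion is a multiple of `2π`. -/
lemma BMot.rot_int (h : BMot m S F G) (hD : Dom Γ S) {T : ℝ}
    (hT : ∀ z ∈ S, F T z = F 0 z) {z : ℂ} (hzS : z ∈ S) :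
    ∃ n : ℤ, ∫ t in (0:ℝ)..T, rr F G t z = n * (2 * Real.pi) := by
  have hz := h.sub hzS
  set q : ℝ → ℂ := fun t => cl G t z / cl F t z with hq
  have hqc : Continuous q :=
    (h.c1G.co_cl.slice_t hz).div (h.c1F.co_cl.slice_t hz) fun t => (h.rot_point t hzS).1
  have hI : ∀ t, HasDerivAt (fun t => ∫ s in (0:ℝ)..t, q s) (q t) t := fun t =>
    intervalIntegral.integral_hasDerivAt_right (hqc.intervalIntegrable _ _)
      (hqc.stronglyMeasurableAtFilter _ _) hqc.continuousAt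
  have hE : ∀ t, HasDerivAt (fun t => cl F t z * Complex.exp (-∫ s in (0:ℝ)..t, q s)) 0 t := by
    intro t
    refine ((h.hasDerivAt_cl t hz).mul (hI t).fun_neg.cexp).congr_deriv ?_
    simp only [hq]
    have := (h.rot_point t hzS).1
    field_simp
    ring
  have h0 := is_const_of_deriv_eq_zero (fun t => (hE t).differentiableAt)
    (fun t => (hE t).deriv) T 0
  simp only [intervalIntegral.integral_same, neg_zero, Complex.exp_zero, mul_one] at h0
  have h5 : cl F T z = cl F 0 z := by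
    simp only [cl, h.fderiv_T hD hT hzS]
  rw [h5] at h0
  have h6 : Complex.exp (-∫ s in (0:ℝ)..T, q s) = 1 :=
    mul_left_cancel₀ (h.rot_point 0 hzS).1 (by rw [h0, mul_one])
  obtain ⟨n, hn⟩ := Complex.exp_eq_one_iff.mp h6
  refine ⟨-n, ?_⟩
  have h7 := imCLM.intervalIntegral_comp_comm (hqc.intervalIntegrable (μ := volume) 0 T)
  simp only [imCLM_apply] at h7
  rw [show (∫ t in (0:ℝ)..T, rr F G t z) = ∫ t in (0:ℝ)..T, (q t).im from rfl, h7]
  have h8 : ∫ s in (0:ℝ)..T, q s = -(n * (2 * Real.pi * I)) := by rw [← hn]; ring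
  rw [h8]
  simp

/-- The total rotation does not depend on the particle. -/
lemma BMot.rot_const (h : BMot m S F G) (hD : Dom Γ S) (hconn : IsPreconnected S) {T : ℝ}
    (hT : ∀ z ∈ S, F T z = F 0 z) :
    ∀ a ∈ S, ∀ b ∈ S, ∫ t in (0:ℝ)..T, rr F G t a = ∫ t in (0:ℝ)..T, rr F G t b := by
  have hcont : Continuous fun z : S => ∫ t in (0:ℝ)..T, rr F G t z :=
    intervalIntegral.continuous_parametric_intervalIntegral_of_continuous'
      (f := fun (z : S) (t : ℝ) => rr F G t z) h.cont_rr 0 T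
  have hpc : PreconnectedSpace S := Subtype.preconnectedSpace hconn
  -- intermediate value
  have key : ∀ a ∈ S, ∀ b ∈ S, ¬ (∫ t in (0:ℝ)..T, rr F G t a) < ∫ t in (0:ℝ)..T, rr F G t b := by
    intro a ha b hb hlt
    obtain ⟨m, hm⟩ := h.rot_int hD hT ha
    obtain ⟨n, hn⟩ := h.rot_int hD hT hb
    have hpi := Real.pi_pos
    have hmn : m < n := by
      rw [hm, hn] at hlt
      have := lt_of_mul_lt_mul_right hlt (by positivity)
      exact_mod_cast this
    have hmn' : (m : ℝ) + 1 ≤ n := by exact_mod_cast hmn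
    have hmem : ((m : ℝ) + 1 / 2) * (2 * Real.pi) ∈
        Icc (∫ t in (0:ℝ)..T, rr F G t a) (∫ t in (0:ℝ)..T, rr F G t b) := by
      rw [hm, hn]
      constructor <;> nlinarith
    obtain ⟨c, hc'⟩ := intermediate_value_univ (⟨a, ha⟩ : S) (⟨b, hb⟩ : S) hcont hmem
    obtain ⟨l, hl⟩ := h.rot_int hD hT c.2
    simp only at hc'
    rw [hl] at hc'
    have h9 : (l : ℝ) = m + 1 / 2 := by
      exact mul_right_cancel₀ (by positivity : (2 * Real.pi) ≠ 0) hc'
    have h10 : (2 * l : ℝ) = 2 * m + 1 := by linarith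
    have h11 : 2 * l = 2 * m + 1 := by exact_mod_cast h10
    omega
  intro a ha b hb
  exact le_antisymm (not_lt.mp (key b hb a ha)) (not_lt.mp (key a ha b hb))

/-- The flux of the field `X`, pulled back: `ρ (X1 dY - X2 dX)`. -/
noncomputable def bxi (c : BCert m S κ) (F : ℝ → ℂ → ℂ) (t : ℝ) (z : ℂ) : ℂ →L[ℝ] ℝ :=
  (m.ρ (F t z) * c.X1 (F t z)) • dIm F t z - (m.ρ (F t z) * c.X2 (F t z)) • dRe F t z

/-- `⟨u, X⟩` -/
noncomputable def buX (c : BCert m S κ) (F G : ℝ → ℂ → ℂ) (t : ℝ) (z : ℂ) : ℝ :=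
  m.ρ (F t z) * c.X1 (F t z) * (G t z).re + m.ρ (F t z) * c.X2 (F t z) * (G t z).im

/-- `ρ (X1 u2 - X2 u1)` -/
noncomputable def bbu (c : BCert m S κ) (F G : ℝ → ℂ → ℂ) (t : ℝ) (z : ℂ) : ℝ :=
  m.ρ (F t z) * c.X1 (F t z) * (G t z).im - m.ρ (F t z) * c.X2 (F t z) * (G t z).re

/-- `⟨∇_u X, u⟩` along the motion -/
noncomputable def bN (c : BCert m S κ) (F G : ℝ → ℂ → ℂ) (t : ℝ) (z : ℂ) : ℝ :=
  m.ρ (F t z) * m.nab c.X1 c.X2 (F t z) (G t z)

/-- The stress form. -/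
noncomputable def bT (c : BCert m S κ) (F G : ℝ → ℂ → ℂ) (t : ℝ) (z : ℂ) : ℂ →L[ℝ] ℝ :=
  (1 / 2 * ve m F G t z) • bxi c F t z - buX c F G t z • vZ m F G t z

lemma BCert.hRX1 (c : BCert m S κ) : ContDiffOn ℝ 1 (fun z => m.ρ z * c.X1 z) UU := m.hρ.mul c.c1

lemma BCert.hRX2 (c : BCert m S κ) : ContDiffOn ℝ 1 (fun z => m.ρ z * c.X2 z) UU := m.hρ.mul c.c2

lemma C1.comp_B {f : ℂ → ℝ} (hf : ContDiffOn ℝ 1 f UU) (h : BMot m S F G) :
    C1 (fun t z => f (F t z)) := C1.comp_F hf h.c1F h.mem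

lemma BMot.co_xi (h : BMot m S F G) (c : BCert m S κ) : CO (bxi c F) :=
  CO.subf (CO.smul (C1.comp_B c.hRX1 h).co h.c1F.co_dIm)
    (CO.smul (C1.comp_B c.hRX2 h).co h.c1F.co_dRe)

lemma BMot.co_κxi (h : BMot m S F G) :
    CO (fun t z => (m.kc (F t z) - κ * m.ρ (F t z)) * (m.ρ z / m.ρ (F t z))) :=
  (h.co_kc.sub ((CO.const κ).mul h.c1R.co)).mul (CO.div m.co_ρ h.c1R.co h.R_ne)

lemma BMot.co_uX (h : BMot m S F G) (c : BCert m S κ) : CO (buX c F G) :=
  ((C1.comp_B c.hRX1 h).co.mul h.c1G.re.co).add ((C1.comp_B c.hRX2 h).co.mul h.c1G.im.co)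

lemma BMot.co_T (h : BMot m S F G) (c : BCert m S κ) : CO (bT c F G) :=
  CO.subf (CO.smul ((CO.const (1/2)).mul h.co_e) (h.co_xi c)) (CO.smul (h.co_uX c) h.co_Z)

lemma BMot.co_bu (h : BMot m S F G) (c : BCert m S κ) : CO (bbu c F G) :=
  ((C1.comp_B c.hRX1 h).co.mul h.c1G.im.co).sub ((C1.comp_B c.hRX2 h).co.mul h.c1G.re.co)

lemma BMot.co_N (h : BMot m S F G) (c : BCert m S κ) : CO (bN c F G) := by
  have e : bN c F G = fun t z => m.ρ (F t z) *
      ((fderiv ℝ c.X1 (F t z) 1 * (G t z).re + fderiv ℝ c.X1 (F t z) I * (G t z).im) * (G t z).re +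
      (fderiv ℝ c.X2 (F t z) 1 * (G t z).re + fderiv ℝ c.X2 (F t z) I * (G t z).im) * (G t z).im +
      (m.l1 (F t z) * c.X1 (F t z) + m.l2 (F t z) * c.X2 (F t z)) *
        ((G t z).re * (G t z).re + (G t z).im * (G t z).im)) := by
    funext t z
    rw [bN, Met.nab, clm_eq (fderiv ℝ c.X1 (F t z)) (G t z),
      clm_eq (fderiv ℝ c.X2 (F t z)) (G t z), normSq_apply]
  rw [e]
  have hX1 := (C1.comp_B c.c1 h).co
  have hX2 := (C1.comp_B c.c2 h).co
  have hre := h.c1G.re.co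
  have him := h.c1G.im.co
  exact h.c1R.co.mul (((((((co_fderiv_compB c.c1 h 1).mul hre).add
    ((co_fderiv_compB c.c1 h I).mul him)).mul hre)).add
    ((((co_fderiv_compB c.c2 h 1).mul hre).add ((co_fderiv_compB c.c2 h I).mul him)).mul him)).add
    (((h.c1L1.co.mul hX1).add (h.c1L2.co.mul hX2)).mul ((hre.mul hre).add (him.mul him))))

lemma BMot.co_κT (h : BMot m S F G) (c : BCert m S κ) :
    CO (fun t z => vOm m F G t z * bbu c F G t z +
      1 / 2 * ((G t z).re ^ 2 + (G t z).im ^ 2) * (m.kc (F t z) - κ * m.ρ (F t z)) * m.ρ z -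
      bN c F G t z * m.ρ z) :=
  CO.sub (CO.add (h.co_Om.mul (h.co_bu c)) ((((CO.const (1/2)).mul
    ((h.c1G.re.co.pow 2).add (h.c1G.im.co.pow 2))).mul (h.co_kc.sub ((CO.const κ).mul h.c1R.co))).mul
    m.co_ρ)) ((h.co_N c).mul m.co_ρ)

/-- `ξ` has exterior derivative `div (ρ X) dX ∧ dY`. -/
lemma BMot.wd_xi (h : BMot m S F G) (c : BCert m S κ) (t : ℝ) :
    WDO (interior S) (bxi c F t) (fun z => (m.kc (F t z) - κ * m.ρ (F t z)) * (m.ρ z / m.ρ (F t z))) := by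
  refine (((WD.mul ((C1.comp_B c.hRX1 h).slice t) (h.c1F.im.slice t)).sub
    (WD.mul ((C1.comp_B c.hRX2 h).slice t) (h.c1F.re.slice t))).wdo
    (interior_subset.trans h.sub)).congr ((h.co_xi c).slice t) ((h.co_κxi).slice t)
    (fun z hzi => ?_) (fun z hzi => ?_) <;> (have hzS := interior_subset hzi) <;>
    (have hz := h.sub hzS)
  · rw [(h.c1F.hasFDerivAt_re t hz).fderiv, (h.c1F.hasFDerivAt_im t hz).fderiv]
    rfl
  · rw [(h.c1F.hasFDerivAt_re t hz).fderiv, (h.c1F.hasFDerivAt_im t hz).fderiv,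
      (h.hasFDerivAt_comp c.hRX1 t hz).fderiv, (h.hasFDerivAt_comp c.hRX2 t hz).fderiv]
    simp only [wedge_add_left, wedge_smul_left, wedge_self]
    rw [wedge_swap (dIm F t z) (dRe F t z), h.wXY t hzS]
    have h3 := c.div _ (h.memS t z hzS)
    rw [← h3]
    ring

lemma BMot.wd_T (h : BMot m S F G) (c : BCert m S κ) (t : ℝ) :
    WDO (interior S) (bT c F G t) (fun z => vOm m F G t z * bbu c F G t z +
      1 / 2 * ((G t z).re ^ 2 + (G t z).im ^ 2) * (m.kc (F t z) - κ * m.ρ (F t z)) * m.ρ z -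
      bN c F G t z * m.ρ z) := by
  have hX1 := C1.comp_B c.hRX1 h
  have hX2 := C1.comp_B c.hRX2 h
  have hcuX : C1 (buX c F G) := (hX1.mul h.c1G.re).add (hX2.mul h.c1G.im)
  have hO : interior S ⊆ UU := interior_subset.trans h.sub
  refine ((WDO.leibniz hO (((C1.const (1/2)).mul h.c1_e).slice t) (h.wd_xi c t)).sub hO
    (WDO.leibniz hO (hcuX.slice t) (h.wd_Z t))).congr ((h.co_T c).slice t) ((h.co_κT c).slice t)
    (fun z hz => rfl) (fun z hzi => ?_)
  have hzS := interior_subset hzi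
  have hz := h.sub hzS
  have h1 : HasFDerivAt (buX c F G t) _ z :=
    ((h.hasFDerivAt_comp c.hRX1 t hz).fun_mul (h.c1G.hasFDerivAt_re t hz)).fun_add
    ((h.hasFDerivAt_comp c.hRX2 t hz).fun_mul (h.c1G.hasFDerivAt_im t hz))
  have h2 := (h.hasFDerivAt_e t hz).const_mul (1 / 2)
  have hn := isOpen_UU.mem_nhds (h.mem t z hz)
  have hx1 := ((c.c1.contDiffAt hn).differentiableAt one_ne_zero).hasFDerivAt
  have hx2 := ((c.c2.contDiffAt hn).differentiableAt one_ne_zero).hasFDerivAt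
  have hR := m.dρ _ (h.mem t z hz)
  have e1 : fderiv ℝ (fun z => m.ρ z * c.X1 z) (F t z) = m.ρ (F t z) • fderiv ℝ c.X1 (F t z) +
      c.X1 (F t z) • ((2 * m.ρ (F t z) * m.l1 (F t z)) • reCLM +
        (2 * m.ρ (F t z) * m.l2 (F t z)) • imCLM) := (hR.fun_mul hx1).fderiv
  have e2 : fderiv ℝ (fun z => m.ρ z * c.X2 z) (F t z) = m.ρ (F t z) • fderiv ℝ c.X2 (F t z) +
      c.X2 (F t z) • ((2 * m.ρ (F t z) * m.l1 (F t z)) • reCLM +
        (2 * m.ρ (F t z) * m.l2 (F t z)) • imCLM) := (hR.fun_mul hx2).fderiv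
  have hdiv := c.div _ (h.memS t z hzS)
  rw [← hdiv]
  rw [h1.fderiv, h2.fderiv, e1, e2]
  have hinc := h.incompr t hzS
  have hXY := h.wXY t hzS
  simp only [bxi, vZ, vde, dR, bN, Met.nab, vOm, bbu, vth, rt, ve]
  rw [clm_eq (fderiv ℝ c.X1 (F t z)) (G t z), clm_eq (fderiv ℝ c.X2 (F t z)) (G t z)]
  simp only [wedge_add_left, wedge_smul_left, wedge_self, wedge_sub_right, wedge_smul_right,
    add_apply, smul_apply, smul_eq_mul, reCLM_apply, imCLM_apply, one_re, one_im, Complex.I_re, Complex.I_im,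
    normSq_apply]
  rw [wedge_swap (dIm F t z) (dRe F t z), hXY]
  have h1 := h.R_ne t z hz
  have h2 : m.ρ z ≠ 0 := m.ne hz
  generalize wedge (dRe G t z) (dRe F t z) = al at *
  generalize wedge (dIm G t z) (dIm F t z) = de at *
  generalize wedge (dIm G t z) (dRe F t z) = ga at *
  generalize wedge (dRe G t z) (dIm F t z) = be at *
  generalize (G t z).re = P at *
  generalize (G t z).im = Q at *
  generalize m.ρ (F t z) = R at *
  generalize m.ρ z = r at *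
  generalize m.l1 (F t z) = L at *
  generalize m.l2 (F t z) = M at *
  generalize fderiv ℝ c.X1 (F t z) 1 = L1 at *
  generalize fderiv ℝ c.X1 (F t z) I = L2 at *
  generalize fderiv ℝ c.X2 (F t z) 1 = M1 at *
  generalize fderiv ℝ c.X2 (F t z) I = M2 at *
  generalize c.X1 (F t z) = A at *
  generalize c.X2 (F t z) = B at *
  have hbe : be = ga + -(2 * r * (L * P + M * Q)) / R := by linarith
  rw [hbe]
  field_simp
  ring

end Pool.Agent.CG
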