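import Pool.Agent.Lib.MP_35454f_h77.Stokes3

/-!
# A cutoff function adapted to a group acting cocompactly on a domain with geodesic boundary
-/

set_option autoImplicit false

open MeasureTheory Filter Topology Complex Set
open UpperHalfPlane hiding I
open scoped ContDiff Manifold MatrixGroups

namespace Pool.Agent.CG

/-- One-forms which are invariant under `Γ` on the interior of `S`. -/
def InvFormD (Γ : Subgroup SL(2, ℝ)) (S : Set ℂ) (β : ℂ → ℂ →L[ℝ] ℝ) : Prop :=
  ∀ g ∈ Γ, ∀ z ∈ interior S, ∀ w, β (mob g z) (w / (den g z) ^ 2) = β z w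

/-- Functions which are invariant under `Γ` on `S`. -/
def InvFunD (Γ : Subgroup SL(2, ℝ)) (S : Set ℂ) (f : ℂ → ℝ) : Prop :=
  ∀ g ∈ Γ, ∀ z ∈ S, f (mob g z) = f z

/-- A cutoff function adapted to `Γ` and `S`. -/
structure IsCutD (Γ : Subgroup SL(2, ℝ)) (S : Set ℂ) (χ : ℂ → ℝ) : Prop where
  c1 : ContDiff ℝ 1 χ
  cpt : HasCompactSupport χ
  supp : tsupport χ ⊆ UU
  nonneg : ∀ z, 0 ≤ χ z
  cover : ∀ z ∈ S, ∃ g ∈ Γ, 0 < χ (mob g z)
  zero : ∀ β : ℂ → ℂ →L[ℝ] ℝ, ContinuousOn β UU → InvFormD Γ S β →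
    ∫ z in interior S, wedge (fderiv ℝ χ z) (β z) = 0

/-- `T (a) / a` with `T = 0` for `a ≤ 1 / 4` and `T = 1` for `a ≥ 1 / 2`. -/
noncomputable def invc (a : ℝ) : ℝ := Real.smoothTransition (4 * a - 1) * a⁻¹

lemma invc_nonneg {a : ℝ} (ha : 0 ≤ a) : 0 ≤ invc a :=
  mul_nonneg (Real.smoothTransition.nonneg _) (inv_nonneg.mpr ha)

lemma mul_invc {a : ℝ} (ha : 1 / 2 ≤ a) : a * invc a = 1 := by
  rw [invc, Real.smoothTransition.one_of_one_le (by linarith), one_mul, mul_inv_cancel₀]
  linarith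

lemma invc_pos {a : ℝ} (ha : 1 / 2 ≤ a) : 0 < invc a := by
  rw [invc, Real.smoothTransition.one_of_one_le (by linarith), one_mul]
  exact inv_pos.mpr (by linarith)

lemma contDiff_invc : ContDiff ℝ ∞ invc := by
  refine contDiff_iff_contDiffAt.mpr fun a => ?_
  rcases lt_or_ge a (1 / 4) with ha | ha
  · have h1 : invc =ᶠ[𝓝 a] fun _ => 0 := by
      filter_upwards [gt_mem_nhds ha] with x hx
      rw [invc, Real.smoothTransition.zero_of_nonpos (by linarith), zero_mul]
    exact contDiffAt_const.congr_of_eventuallyEq h1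
  · have ha0 : a ≠ 0 := by linarith
    refine ContDiffAt.mul ?_ (contDiffAt_inv ℝ ha0)
    exact (Real.smoothTransition.contDiff.contDiffAt).comp a
      ((contDiffAt_const.mul contDiffAt_id).sub contDiffAt_const)

theorem exists_chiD (Γ : Subgroup SL(2, ℝ)) [ProperlyDiscontinuousSMul Γ ℍ] {S : Set ℂ}
    (hS : Dom Γ S)
    (hK : ∃ K : Set ℍ, IsCompact K ∧ ∀ z : ℍ, (z : ℂ) ∈ S → ∃ g ∈ Γ, g • z ∈ K) :
    ∃ χ : ℂ → ℝ, IsCutD Γ S χ := by
  obtain ⟨K, hK, hcov⟩ := hK
  obtain ⟨b, hb, hbc, hbU, hb1, hb01⟩ := exists_cut (hK.image continuous_coe) isOpen_UU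
    (by rintro _ ⟨z, -, rfl⟩; exact coe_mem_UU z)
  have hb0 : ∀ z, 0 ≤ b z := fun z => (hb01 z).1
  have hbg : ∀ z ∈ S, ∃ g ∈ Γ, b (mob g z) = 1 := by
    intro z hz
    obtain ⟨g, hg, hgz⟩ := hcov ⟨z, hS.sub hz⟩ hz
    refine ⟨g, hg, ?_⟩
    have h2 := (eventually_nhdsSet_iff_forall.mp hb1) (mob g z)
      ⟨g • ⟨z, hS.sub hz⟩, hgz, coe_smul_eq g _⟩
    exact h2.self_of_nhds
  have hA0 : ∀ z ∈ UU, 0 ≤ avg Γ b z := fun z _ => finsum_nonneg fun g => hb0 _
  have hA : ∀ z ∈ S, 1 ≤ avg Γ b z := by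
    intro z hz
    obtain ⟨g, hg, hg1⟩ := hbg z hz
    obtain ⟨Sf, hSf⟩ := exists_nhd (Γ := Γ) hbc hbU (hS.sub hz)
    have hSf' := hSf.self_of_nhds
    rw [avg_eq_sum hSf']
    have hmem : (⟨g, hg⟩ : Γ) ∈ Sf := by
      by_contra hgS
      have := hSf' ⟨g, hg⟩ hgS
      rw [show mob ((⟨g, hg⟩ : Γ) : SL(2, ℝ)) z = mob g z from rfl, hg1] at this
      exact one_ne_zero this
    calc (1:ℝ) = b (mob ((⟨g, hg⟩ : Γ) : SL(2, ℝ)) z) := hg1.symm
      _ ≤ ∑ g ∈ Sf, b (mob g z) :=
        Finset.single_le_sum (f := fun g : Γ => b (mob g z)) (fun g _ => hb0 _) hmem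
  have hAc : ContinuousOn (avg Γ b) UU := fun z hz =>
    (contDiffAt_avg hb hbc hbU hz).continuousAt.continuousWithinAt
  set χ : ℂ → ℝ := fun z => b z * invc (avg Γ b z) with hχ
  have hinvC : ContDiffOn ℝ 1 (fun z => invc (avg Γ b z)) UU := by
    intro z hz
    have h1 := (contDiffAt_avg (Γ := Γ) hb hbc hbU hz).of_le (by simp : (1 : ℕ∞ω) ≤ ∞)
    exact ((contDiff_invc.of_le (by simp)).contDiffAt.comp z h1).contDiffWithinAt
  have hχC : ContDiff ℝ 1 χ := contDiff_mul_loc isOpen_UU (hb.of_le (by simp)) hbU hinvC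
  have hχc : HasCompactSupport χ := hbc.mul_right
  have hχs : tsupport χ ⊆ tsupport b :=
    closure_mono (fun x hx => by intro h; exact hx (by simp [hχ, h]))
  have hχU : tsupport χ ⊆ UU := hχs.trans hbU
  have hχm : ∀ g ∈ Γ, ∀ z ∈ UU, χ (mob g z) = b (mob g z) * invc (avg Γ b z) := by
    intro g hg z hz
    simp only [hχ]
    rw [avg_mob hg hz]
  refine ⟨χ, hχC, hχc, hχU, ?_, ?_, ?_⟩
  · intro z
    by_cases hz : z ∈ tsupport b
    · exact mul_nonneg (hb0 z) (invc_nonneg (hA0 z (hbU hz)))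
    · simp [hχ, image_eq_zero_of_notMem_tsupport hz]
  · intro z hz
    obtain ⟨g, hg, hg'⟩ := hbg z hz
    refine ⟨g, hg, ?_⟩
    rw [hχm g hg z (hS.sub hz), hg', one_mul]
    exact invc_pos (by linarith [hA z hz])
  · intro β hβ hβi
    -- the finite set of relevant group elements
    have hKb : IsCompact (UpperHalfPlane.coe ⁻¹' tsupport b) := preimage_compact hbc hbU
    obtain ⟨L, hL, hKL⟩ := exists_compact_superset hKb
    set S₁ : Set Γ := {g : Γ | ∃ z ∈ L, g • z ∈ UpperHalfPlane.coe ⁻¹' tsupport b} with hS₁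
    have hS₁f : S₁.Finite := finite_set Γ hL hKb
    set Sf : Finset Γ := (hS₁f.union (hS₁f.preimage (f := fun g : Γ => g⁻¹)
      (inv_injective.injOn))).toFinset with hSf
    have hSinv : ∀ g : Γ, g ∈ Sf → g⁻¹ ∈ Sf := by
      intro g hg
      simp only [hSf, Set.Finite.mem_toFinset, Set.mem_union, Set.mem_preimage, inv_inv] at hg ⊢
      exact hg.symm
    have hSb : ∀ z : ℍ, z ∈ L → ∀ g : Γ, g ∉ Sf → b (mob g z) = 0 := by
      intro z hz g hg
      by_contra hne
      apply hg
      simp only [hSf, Set.Finite.mem_toFinset, Set.mem_union]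
      left
      refine ⟨z, hz, ?_⟩
      change ((g • z : ℍ) : ℂ) ∈ tsupport b
      rw [show (g • z : ℍ) = (g : SL(2, ℝ)) • z from rfl, coe_smul_eq]
      exact subset_tsupport _ hne
    -- the sum of the translates
    have hsum : ∀ z : ℍ, z ∈ L → 1 / 2 ≤ avg Γ b z → ∑ g ∈ Sf, χ (mob g z) = 1 := by
      intro z hz hz2
      have h1 : ∑ g ∈ Sf, χ (mob g z) = (∑ g ∈ Sf, b (mob g z)) * invc (avg Γ b z) := by
        rw [Finset.sum_mul]
        exact Finset.sum_congr rfl fun g _ => hχm g g.2 z (coe_mem_UU z)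
      rw [h1, ← avg_eq_sum (hSb z hz), mul_invc hz2]
    -- the density
    set D₀ : ℂ → ℝ := fun z => wedge (fderiv ℝ χ z) (β z) with hD₀
    have hDc : ContinuousOn D₀ UU :=
      ContinuousOn.wedge (hχC.continuous_fderiv one_ne_zero).continuousOn hβ
    have hD0 : ∀ z, z ∉ tsupport χ → D₀ z = 0 := by
      intro z hz
      simp only [hD₀]
      rw [(fderiv_zero_off hz).2, wedge_zero_left]
    set d₀ : ℂ → ℝ := fun z => D₀ z * z.im ^ 2 with hd₀
    set d : ℂ → ℝ := (interior S).indicator d₀ with hd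
    have hint : ∫ z in interior S, D₀ z = ∫ z : ℍ, d (z : ℂ) := by
      rw [integral_uhp, ← integral_indicator isOpen_interior.measurableSet,
        ← setIntegral_eq_integral_of_forall_compl_eq_zero (s := UU)]
      · refine setIntegral_congr_fun isOpen_UU.measurableSet fun z hz => ?_
        have : z.im ≠ 0 := (mem_UU.mp hz).ne'
        by_cases hzi : z ∈ interior S
        · simp only [hd]
          rw [indicator_of_mem hzi, indicator_of_mem hzi]
          simp only [hd₀]
          field_simp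
        · simp only [hd]
          rw [indicator_of_notMem hzi, indicator_of_notMem hzi, zero_div]
      · intro z hz
        exact indicator_of_notMem (fun h => hz (hS.interior_sub h)) _
    change ∫ z in interior S, D₀ z = 0
    rw [hint]
    -- transformation of `d`
    have hdm : ∀ g ∈ Γ, ∀ z ∈ interior S, d (mob g z) =
        z.im ^ 2 * wedge (fderiv ℝ (fun w => χ (mob g w)) z) (β z) := by
      intro g hg z hzi
      have hz := hS.interior_sub hzi
      have hdn := den_ne (g := g) hz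
      have hfd : HasFDerivAt (fun w => χ (mob g w)) ((fderiv ℝ χ (mob g z)).comp
          ((1 / (den g z) ^ 2) • (1 : ℂ →L[ℝ] ℂ))) z :=
        ((hχC.differentiable one_ne_zero (mob g z)).hasFDerivAt).comp z (hasFDerivAt_mob g hz)
      rw [hfd.fderiv]
      have hw := wedge_mob (d := den g z) (α := (fderiv ℝ χ (mob g z)).comp
          ((1 / (den g z) ^ 2) • (1 : ℂ →L[ℝ] ℂ))) (β := β z) (α' := fderiv ℝ χ (mob g z))
          (β' := β (mob g z)) ?_ (hβi g hg z hzi)
      · rw [hw]
        simp only [hd]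
        rw [indicator_of_mem (hS.mob_interior hg hzi)]
        simp only [hd₀, hD₀]
        rw [im_mob g hz]
        have : normSq (den g z) ≠ 0 := by simpa using hdn
        field_simp
      · intro w
        simp only [ContinuousLinearMap.comp_apply, smul_apply,
          one_apply_eq_self, smul_eq_mul]
        congr 1
        ring
    have hdm0 : ∀ g ∈ Γ, ∀ z ∈ UU, z ∉ interior S → d (mob g z) = 0 := by
      intro g hg z hz hzi
      simp only [hd]
      refine indicator_of_notMem (fun h => hzi ?_) _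
      rw [← mob_inv_mob g hz]
      exact hS.mob_interior (Γ.inv_mem hg) h
    -- `d` is integrable
    have hopen : IsOpen {z : ℍ | (z : ℂ) ∈ interior S} := isOpen_interior.preimage continuous_coe
    have hdH : Continuous fun z : ℍ => d₀ (z : ℂ) := by
      have h1 : ContinuousOn d₀ UU := hDc.mul (Complex.continuous_im.pow 2).continuousOn
      exact h1.comp_continuous continuous_coe coe_mem_UU
    have hdsupp₀ : ∀ z : ℍ, z ∉ UpperHalfPlane.coe ⁻¹' tsupport b → d₀ (z : ℂ) = 0 := by
      intro z hz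
      simp only [hd₀]
      rw [hD0 _ fun h => hz (hχs h), zero_mul]
    have hdsupp : ∀ z : ℍ, z ∉ UpperHalfPlane.coe ⁻¹' tsupport b → d (z : ℂ) = 0 := by
      intro z hz
      simp only [hd]
      by_cases hzi : (z : ℂ) ∈ interior S
      · rw [indicator_of_mem hzi, hdsupp₀ z hz]
      · rw [indicator_of_notMem hzi]
    have hdcomp : HasCompactSupport fun z : ℍ => d₀ (z : ℂ) :=
      HasCompactSupport.intro hKb hdsupp₀
    have hind : ∀ z : ℍ, d (z : ℂ) =
        {z : ℍ | (z : ℂ) ∈ interior S}.indicator (fun z : ℍ => d₀ (z : ℂ)) z := by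
      intro z
      simp only [hd]
      by_cases hzi : (z : ℂ) ∈ interior S
      · rw [indicator_of_mem hzi, indicator_of_mem (show z ∈ {z : ℍ | (z : ℂ) ∈ interior S} from hzi)]
      · rw [indicator_of_notMem hzi,
          indicator_of_notMem (show z ∉ {z : ℍ | (z : ℂ) ∈ interior S} from hzi)]
    -- unfold
    have e1 : ∀ z : ℍ, d (z : ℂ) = ∑ g ∈ Sf, χ (mob g z) * d z := by
      intro z
      by_cases hz : z ∈ UpperHalfPlane.coe ⁻¹' tsupport b
      · by_cases hzi : (z : ℂ) ∈ interior S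
        · rw [← Finset.sum_mul, hsum z (interior_subset (hKL hz))
            (by linarith [hA z (interior_subset hzi)]), one_mul]
        · have : d (z : ℂ) = 0 := indicator_of_notMem hzi _
          simp [this]
      · simp [hdsupp z hz]
    have iterm : ∀ g : Γ, Integrable fun z : ℍ => χ (mob g z) * d z := by
      intro g
      have h1 : Integrable fun z : ℍ => χ (mob g z) * d₀ z :=
        Continuous.integrable_of_hasCompactSupport
          ((hχC.continuous.comp (continuous_mobH g)).mul hdH) hdcomp.mul_left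
      refine (h1.indicator hopen.measurableSet).congr (Eventually.of_forall fun z => ?_)
      simp only
      rw [hind z]
      by_cases hzi : z ∈ {z : ℍ | (z : ℂ) ∈ interior S}
      · rw [indicator_of_mem hzi, indicator_of_mem hzi]
      · rw [indicator_of_notMem hzi, indicator_of_notMem hzi, mul_zero]
    calc ∫ z : ℍ, d (z : ℂ) = ∫ z : ℍ, ∑ g ∈ Sf, χ (mob g z) * d z := by
          congr 1; ext z; exact e1 z
      _ = ∑ g ∈ Sf, ∫ z : ℍ, χ (mob g z) * d z := integral_finsetSum _ fun g _ => iterm g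
      _ = ∑ g ∈ Sf, ∫ z : ℍ, χ z * d (mob (g : SL(2, ℝ))⁻¹ z) := by
          refine Finset.sum_congr rfl fun g _ => ?_
          rw [← integral_smul_uhp (g : SL(2, ℝ)) fun z : ℍ => χ z * d (mob (g : SL(2, ℝ))⁻¹ z)]
          congr 1
          ext z
          rw [coe_smul_eq, mob_inv_mob _ (coe_mem_UU z)]
      _ = ∫ z : ℍ, ∑ g ∈ Sf, χ z * d (mob (g : SL(2, ℝ))⁻¹ z) := by
          symm
          refine integral_finsetSum _ fun g _ => ?_
          have h1 : Integrable fun z : ℍ => χ z * d₀ (mob (g : SL(2, ℝ))⁻¹ z) := by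
            refine Continuous.integrable_of_hasCompactSupport ?_ ?_
            · refine (hχC.continuous.comp continuous_coe).mul ?_
              have h2 := hdH.comp (continuous_const_smul (g : SL(2, ℝ))⁻¹)
              refine h2.congr fun z => ?_
              simp only [Function.comp_apply]
              rw [coe_smul_eq]
            · refine HasCompactSupport.intro hKb fun z hz => ?_
              have : χ (z : ℂ) = 0 := image_eq_zero_of_notMem_tsupport fun h => hz (hχs h)
              simp [this]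
          refine (h1.indicator hopen.measurableSet).congr (Eventually.of_forall fun z => ?_)
          simp only
          by_cases hzi : (z : ℂ) ∈ interior S
          · rw [indicator_of_mem (show z ∈ {z : ℍ | (z : ℂ) ∈ interior S} from hzi)]
            simp only [hd]
            rw [indicator_of_mem (hS.mob_interior (Γ.inv_mem g.2) hzi)]
          · rw [indicator_of_notMem (show z ∉ {z : ℍ | (z : ℂ) ∈ interior S} from hzi),
              hdm0 _ (Γ.inv_mem g.2) z (coe_mem_UU z) hzi, mul_zero]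
      _ = ∫ z : ℍ, (0 : ℝ) := by
          congr 1
          ext z
          by_cases hz : z ∈ UpperHalfPlane.coe ⁻¹' tsupport b
          · by_cases hzi : (z : ℂ) ∈ interior S
            · rw [← Finset.mul_sum]
              have h3 : ∑ g ∈ Sf, d (mob (g : SL(2, ℝ))⁻¹ z) =
                  (z : ℂ).im ^ 2 * wedge (fderiv ℝ (fun w => ∑ g ∈ Sf, χ (mob (g : SL(2, ℝ))⁻¹ w)) z)
                    (β z) := by
                have h4 : fderiv ℝ (fun w => ∑ g ∈ Sf, χ (mob (g : SL(2, ℝ))⁻¹ w)) z =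
                    ∑ g ∈ Sf, fderiv ℝ (fun w => χ (mob (g : SL(2, ℝ))⁻¹ w)) z := by
                  refine fderiv_fun_sum fun g _ => ?_
                  exact (((hχC.differentiable one_ne_zero (mob (g : SL(2, ℝ))⁻¹ z)).hasFDerivAt).comp
                    (z : ℂ) (hasFDerivAt_mob (g : SL(2, ℝ))⁻¹ (coe_mem_UU z))).differentiableAt
                rw [h4]
                have h5 : wedge (∑ g ∈ Sf, fderiv ℝ (fun w => χ (mob (g : SL(2, ℝ))⁻¹ w)) z) (β z) =
                    ∑ g ∈ Sf, wedge (fderiv ℝ (fun w => χ (mob (g : SL(2, ℝ))⁻¹ w)) z) (β z) := by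
                  simp only [wedge, sum_apply, Finset.sum_mul,
                    ← Finset.sum_sub_distrib]
                rw [h5, Finset.mul_sum]
                exact Finset.sum_congr rfl fun g _ => hdm _ (Γ.inv_mem g.2) z hzi
              rw [h3]
              have h6 : (fun w : ℂ => ∑ g ∈ Sf, χ (mob (g : SL(2, ℝ))⁻¹ w)) =ᶠ[𝓝 (z : ℂ)]
                  fun _ => 1 := by
                have h7 : UpperHalfPlane.coe '' L ∈ 𝓝 (z : ℂ) :=
                  isOpenEmbedding_coe.image_mem_nhds.mpr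
                    (mem_of_superset (isOpen_interior.mem_nhds (hKL hz)) interior_subset)
                have h8 : ∀ᶠ w in 𝓝 (z : ℂ), 1 / 2 < avg Γ b w :=
                  (hAc.continuousAt (isOpen_UU.mem_nhds (coe_mem_UU z))).eventually_const_lt
                    (by linarith [hA z (interior_subset hzi)])
                filter_upwards [h7, h8] with w hw hw8
                obtain ⟨w', hw', rfl⟩ := hw
                rw [← hsum w' hw' hw8.le]
                refine Finset.sum_bij' (fun g _ => g⁻¹) (fun g _ => g⁻¹) (fun g hg => hSinv g hg)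
                  (fun g hg => hSinv g hg) (fun g _ => inv_inv g) (fun g _ => inv_inv g) ?_
                intro g _
                rfl
              rw [h6.fderiv_eq]
              simp [wedge]
            · refine Finset.sum_eq_zero fun g _ => ?_
              rw [hdm0 _ (Γ.inv_mem g.2) z (coe_mem_UU z) hzi, mul_zero]
          · have : χ (z : ℂ) = 0 := image_eq_zero_of_notMem_tsupport fun h => hz (hχs h)
            simp [this]
      _ = 0 := by simp

/-! ### consequences -/

variable {Γ : Subgroup SL(2, ℝ)} {S : Set ℂ} {χ : ℂ → ℝ}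

lemma IsCutD.int (hχ : IsCutD Γ S χ) {g : ℂ → ℝ} (hg : ContinuousOn g UU) :
    Integrable fun z => χ z * g z :=
  integrable_mul hχ.c1.continuous.continuousOn hχ.cpt hχ.supp hg

/-- An invariant form with a sign on the boundary. -/
lemma IsCutD.wd_le (hχ : IsCutD Γ S χ) (hS : Dom Γ S) {β : ℂ → ℂ →L[ℝ] ℝ} {κ : ℂ → ℝ}
    (hw : WDO (interior S) β κ) (hi : InvFormD Γ S β)
    (hb : ∀ z ∈ S, z ∉ interior S → ∀ h, Ch S h z → 0 ≤ wedge (drh h z) (β z)) :
    ∫ z in interior S, χ z * κ z ≤ 0 := by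
  have h1 := stokes hS hw hb hχ.c1 hχ.cpt hχ.supp hχ.nonneg
  rwa [hχ.zero β hw.1 hi, neg_zero] at h1

/-- An invariant form vanishing on the boundary. -/
lemma IsCutD.wd (hχ : IsCutD Γ S χ) (hS : Dom Γ S) {β : ℂ → ℂ →L[ℝ] ℝ} {κ : ℂ → ℝ}
    (hw : WDO (interior S) β κ) (hi : InvFormD Γ S β)
    (hb : ∀ z ∈ S, z ∉ interior S → ∀ h, Ch S h z → wedge (drh h z) (β z) = 0) :
    ∫ z in interior S, χ z * κ z = 0 := by
  have h1 := stokes_eq hS hw hb hχ.c1 hχ.cpt hχ.supp hχ.nonneg
  rwa [hχ.zero β hw.1 hi, neg_zero] at h1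

end Pool.Agent.CG
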