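import Pool.Agent.Lib.MP_35454f.VFinal

/-!
# Domains with geodesic boundary in the upper half-plane
-/

set_option autoImplicit false

open MeasureTheory Filter Topology Complex Set
open UpperHalfPlane hiding I
open scoped ContDiff Manifold MatrixGroups

namespace Pool.Agent.CG

/-- `h` is a chart of the set `S` at the boundary point `z`: near `z` the set `S` is
`{Re (h w) ≥ 0}`, and `Re (h z) = 0`. -/
def Ch (S : Set ℂ) (h : SL(2, ℝ)) (z : ℂ) : Prop :=
  (mob h z).re = 0 ∧ ∀ᶠ w in 𝓝 z, (w ∈ S ↔ 0 ≤ (mob h w).re)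

/-- A `Γ`-invariant subset of the upper half-plane, relatively closed, with geodesic boundary. -/
structure Dom (Γ : Subgroup SL(2, ℝ)) (S : Set ℂ) : Prop where
  sub : S ⊆ UU
  cl : ∀ z ∈ UU, z ∈ closure S → z ∈ S
  inv : ∀ g ∈ Γ, ∀ z ∈ S, mob g z ∈ S
  bd : ∀ z ∈ S, z ∉ interior S → ∃ h : SL(2, ℝ), Ch S h z

lemma den_mul (g h : SL(2, ℝ)) {z : ℂ} (hz : z ∈ UU) :
    den (g * h) z = den g (mob h z) * den h z := by
  have hd := den_ne (g := h) hz
  have e1 : (g * h) 1 0 = g 1 0 * h 0 0 + g 1 1 * h 1 0 := by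
    simp [Matrix.mul_apply, Fin.sum_univ_two]
  have e2 : (g * h) 1 1 = g 1 0 * h 0 1 + g 1 1 * h 1 1 := by
    simp [Matrix.mul_apply, Fin.sum_univ_two]
  rw [den, e1, e2, den, mob]
  have h3 : den h z = ((h 1 0 : ℝ) : ℂ) * z + ((h 1 1 : ℝ) : ℂ) := rfl
  field_simp
  rw [h3]
  push_cast
  ring

lemma den_one (z : ℂ) : den 1 z = 1 := by simp [den]

lemma den_inv (h : SL(2, ℝ)) {z : ℂ} (hz : z ∈ UU) : den h⁻¹ (mob h z) * den h z = 1 := by
  rw [← den_mul _ _ hz, inv_mul_cancel, den_one]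

lemma continuousAt_mob (g : SL(2, ℝ)) {z : ℂ} (hz : z ∈ UU) : ContinuousAt (mob g) z :=
  (hasDerivAt_mob g hz).continuousAt

lemma continuousOn_mob (g : SL(2, ℝ)) : ContinuousOn (mob g) UU :=
  fun _ hz => (continuousAt_mob g hz).continuousWithinAt

variable {Γ : Subgroup SL(2, ℝ)} {S : Set ℂ}

lemma Ch.mem {h : SL(2, ℝ)} {z : ℂ} (hc : Ch S h z) : z ∈ S :=
  hc.2.self_of_nhds.mpr hc.1.ge

/-- The curve through `z` in the direction `(den h z)² v`, straight in the chart. -/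
noncomputable def cur (h : SL(2, ℝ)) (z v : ℂ) (s : ℝ) : ℂ := mob h⁻¹ (mob h z + s • v)

lemma cur_zero (h : SL(2, ℝ)) {z : ℂ} (hz : z ∈ UU) (v : ℂ) : cur h z v 0 = z := by
  simp [cur, mob_inv_mob h hz]

lemma hasDerivAt_cur (h : SL(2, ℝ)) {z : ℂ} (hz : z ∈ UU) (v : ℂ) :
    HasDerivAt (cur h z v) ((den h z) ^ 2 * v) 0 := by
  have h1 : HasDerivAt (fun s : ℝ => mob h z + s • v) v 0 := by
    simpa using ((hasDerivAt_id (0:ℝ)).smul_const v).const_add (mob h z)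
  have h2 : HasDerivAt (mob h⁻¹) (1 / (den h⁻¹ (mob h z)) ^ 2) (mob h z + (0:ℝ) • v) := by
    rw [zero_smul, add_zero]
    exact hasDerivAt_mob h⁻¹ (mob_mem hz)
  have h3 := h2.comp (0:ℝ) h1
  refine h3.congr_deriv ?_
  have h4 := den_inv h hz
  have h5 := den_ne (g := h) hz
  have h6 : den h⁻¹ (mob h z) ≠ 0 := den_ne (mob_mem hz)
  have h7 : den h z = 1 / den h⁻¹ (mob h z) := by
    rw [eq_div_iff h6, mul_comm]; exact h4
  rw [h7]
  ring

lemma cur_tendsto (h : SL(2, ℝ)) {z : ℂ} (hz : z ∈ UU) (v : ℂ) :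
    Tendsto (cur h z v) (𝓝 0) (𝓝 z) := by
  have := (hasDerivAt_cur h hz v).continuousAt.tendsto
  rwa [cur_zero h hz] at this

lemma cur_mem (h : SL(2, ℝ)) {z : ℂ} (hz : z ∈ UU) (v : ℂ) :
    ∀ᶠ s in 𝓝 (0:ℝ), cur h z v s ∈ UU := (cur_tendsto h hz v) (isOpen_UU.mem_nhds hz)

lemma mob_cur (h : SL(2, ℝ)) {z : ℂ} (hz : z ∈ UU) (v : ℂ) :
    ∀ᶠ s in 𝓝 (0:ℝ), mob h (cur h z v s) = mob h z + s • v := by
  have h1 : Tendsto (fun s : ℝ => mob h z + s • v) (𝓝 0) (𝓝 (mob h z + (0:ℝ) • v)) :=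
    Continuous.tendsto (by fun_prop) 0
  rw [zero_smul, add_zero] at h1
  filter_upwards [h1 (isOpen_UU.mem_nhds (mob_mem hz))] with s hs
  exact mob_mob_inv h hs

lemma Ch.near {h : SL(2, ℝ)} {z : ℂ} (hz : z ∈ UU) (hc : Ch S h z) :
    ∀ᶠ w in 𝓝 z, w ∈ S → w ∉ interior S → Ch S h w := by
  filter_upwards [eventually_eventually_nhds.mpr hc.2, isOpen_UU.mem_nhds hz] with w hw hwU hwS hwi
  refine ⟨?_, hw⟩
  by_contra hne
  have h0 : 0 < (mob h w).re := lt_of_le_of_ne (hw.self_of_nhds.mp hwS) (Ne.symm hne)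
  apply hwi
  rw [mem_interior_iff_mem_nhds]
  have h1 : ∀ᶠ x in 𝓝 w, 0 < (mob h x).re :=
    (Complex.continuous_re.continuousAt.comp (continuousAt_mob h hwU)).eventually_const_lt h0
  filter_upwards [hw, h1] with x hx hx'
  exact hx.mpr hx'.le

/-- inward points are interior points -/
lemma Ch.inward {h : SL(2, ℝ)} {z : ℂ} (hz : z ∈ UU) (hc : Ch S h z) :
    ∀ᶠ w in 𝓝 z, 0 < (mob h w).re → w ∈ interior S := by
  filter_upwards [eventually_eventually_nhds.mpr hc.2, isOpen_UU.mem_nhds hz] with w hw hwU h0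
  rw [mem_interior_iff_mem_nhds]
  have h1 : ∀ᶠ x in 𝓝 w, 0 < (mob h x).re :=
    (Complex.continuous_re.continuousAt.comp (continuousAt_mob h hwU)).eventually_const_lt h0
  filter_upwards [hw, h1] with x hx hx'
  exact hx.mpr hx'.le

lemma Dom.closure_interior (hS : Dom Γ S) {z : ℂ} (hz : z ∈ S) : z ∈ closure (interior S) := by
  by_cases hi : z ∈ interior S
  · exact subset_closure hi
  obtain ⟨h, hc⟩ := hS.bd z hz hi
  have hzU := hS.sub hz
  have h1 : Tendsto (cur h z 1) (𝓝[>] 0) (𝓝 z) :=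
    (cur_tendsto h hzU 1).mono_left nhdsWithin_le_nhds
  refine mem_closure_of_tendsto h1 ?_
  have h2 := (cur_tendsto h hzU 1).eventually (hc.inward hzU)
  filter_upwards [h2.filter_mono nhdsWithin_le_nhds,
    (mob_cur h hzU 1).filter_mono nhdsWithin_le_nhds, self_mem_nhdsWithin] with s hs hs' hs0
  apply hs
  rw [hs']
  have : (0:ℝ) < s := hs0
  simpa [hc.1] using this

lemma Dom.interior_sub (hS : Dom Γ S) : interior S ⊆ UU := interior_subset.trans hS.sub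

lemma Dom.mob_interior (hS : Dom Γ S) {g : SL(2, ℝ)} (hg : g ∈ Γ) {z : ℂ}
    (hz : z ∈ interior S) : mob g z ∈ interior S := by
  have hzU := hS.interior_sub hz
  rw [mem_interior_iff_mem_nhds] at hz ⊢
  have h1 : ContinuousAt (mob g⁻¹) (mob g z) := continuousAt_mob g⁻¹ (mob_mem hzU)
  have h2 : ∀ᶠ w in 𝓝 (mob g z), mob g⁻¹ w ∈ S := by
    refine h1.eventually ?_
    rw [mob_inv_mob g hzU]
    exact hz
  filter_upwards [h2, isOpen_UU.mem_nhds (mob_mem (g := g) hzU)] with w hw hwU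
  rw [← mob_mob_inv g hwU]
  exact hS.inv g hg _ hw

/-- Equality on the interior extends to the whole domain. -/
lemma Dom.eq_of_interior {E : Type*} [TopologicalSpace E] [T2Space E] (hS : Dom Γ S)
    {f g : ℂ → E} (hf : ContinuousOn f UU) (hg : ContinuousOn g UU)
    (hfg : ∀ z ∈ interior S, f z = g z) {z : ℂ} (hz : z ∈ S) : f z = g z := by
  have hzU := hS.sub hz
  have h1 := hS.closure_interior hz
  rw [mem_closure_iff_frequently] at h1
  have hne : (𝓝[interior S] z).NeBot := mem_closure_iff_nhdsWithin_neBot.mp (hS.closure_interior hz)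
  have hf1 : Tendsto f (𝓝[interior S] z) (𝓝 (f z)) :=
    (hf.continuousAt (isOpen_UU.mem_nhds hzU)).tendsto.mono_left nhdsWithin_le_nhds
  have hg1 : Tendsto g (𝓝[interior S] z) (𝓝 (g z)) :=
    (hg.continuousAt (isOpen_UU.mem_nhds hzU)).tendsto.mono_left nhdsWithin_le_nhds
  refine tendsto_nhds_unique_of_eventuallyEq hf1 hg1 ?_
  filter_upwards [self_mem_nhdsWithin] with w hw using hfg w hw

end Pool.Agent.CG
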