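import Pool.Agent.Lib.MP_35454f_h77.Dom

/-!
# Stokes inequality on a domain with geodesic boundary, for continuous forms with a weak
exterior derivative
-/

set_option autoImplicit false

open MeasureTheory Filter Topology Complex Set
open UpperHalfPlane hiding I
open scoped ContDiff Manifold MatrixGroups

namespace Pool.Agent.CG

/-- The differential of `Re (h z)`. -/
noncomputable def drh (h : SL(2, ℝ)) (z : ℂ) : ℂ →L[ℝ] ℝ := reCLM.comp
  ((1 / (den h z) ^ 2) • (1 : ℂ →L[ℝ] ℂ))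

lemma hasFDerivAt_rh (h : SL(2, ℝ)) {z : ℂ} (hz : z ∈ UU) :
    HasFDerivAt (fun w => (mob h w).re) (drh h z) z :=
  reCLM.hasFDerivAt.comp z (hasFDerivAt_mob h hz)

lemma contDiffOn_rh (h : SL(2, ℝ)) : ContDiffOn ℝ ∞ (fun w => (mob h w).re) UU := fun z hz =>
  (reCLM.contDiff.contDiffAt.comp z (contDiffAt_mob h hz)).contDiffWithinAt

lemma drh_apply (h : SL(2, ℝ)) (z v : ℂ) : drh h z v = (v / (den h z) ^ 2).re := by
  simp only [drh, ContinuousLinearMap.comp_apply, smul_apply, one_apply_eq_self, smul_eq_mul,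
    reCLM_apply]
  congr 1
  ring

lemma continuousOn_drh (h : SL(2, ℝ)) : ContinuousOn (drh h) UU := by
  have h1 := (contDiffOn_rh h).continuousOn_fderiv_of_isOpen isOpen_UU (by simp)
  exact h1.congr fun z hz => (hasFDerivAt_rh h hz).fderiv.symm

/-- The measure of a rectangle. -/
lemma volume_rect (a b M : ℝ) : volume {w : ℂ | a ≤ w.re ∧ w.re ≤ b ∧ |w.im| ≤ M} ≤
    ENNReal.ofReal (b - a) * ENNReal.ofReal (2 * M) := by
  have h1 : {w : ℂ | a ≤ w.re ∧ w.re ≤ b ∧ |w.im| ≤ M} =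
      measurableEquivRealProd ⁻¹' (Icc a b ×ˢ Icc (-M) M) := by
    ext w
    simp only [mem_ofPred_eq, mem_preimage, measurableEquivRealProd_apply, mem_prod, mem_Icc, abs_le]
    tauto
  rw [h1, volume_preserving_equiv_real_prod.measure_preimage
    (measurableSet_Icc.prod measurableSet_Icc).nullMeasurableSet]
  rw [Measure.volume_eq_prod, Measure.prod_prod, Real.volume_Icc, Real.volume_Icc]
  refine le_of_eq ?_
  congr 2
  ring

/-- Strips along a geodesic have small measure. -/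
lemma strip_measure {K : Set ℂ} (hK : IsCompact K) (hKU : K ⊆ UU) (h : SL(2, ℝ)) :
    ∃ C : ℝ, 0 ≤ C ∧ ∀ ε : ℝ, 0 < ε →
      (volume {z | z ∈ K ∧ ε ≤ (mob h z).re ∧ (mob h z).re ≤ 2 * ε}).toReal ≤ C * ε := by
  have hK' : IsCompact (mob h '' K) := hK.image_of_continuousOn ((continuousOn_mob h).mono hKU)
  have hKU' : mob h '' K ⊆ UU := by
    rintro _ ⟨z, hz, rfl⟩
    exact mob_mem (hKU hz)
  obtain ⟨M, hM⟩ := hK'.exists_bound_of_continuousOn (f := fun w : ℂ => w.im)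
    Complex.continuous_im.continuousOn
  have hdc : ContinuousOn (fun w => ((1 / (den h⁻¹ w) ^ 2) : ℂ)) UU := by
    refine ContinuousOn.div continuousOn_const ?_ fun w hw => pow_ne_zero 2 (den_ne hw)
    exact (Continuous.continuousOn (by unfold den; fun_prop))
  obtain ⟨C, hC⟩ := hK'.exists_bound_of_continuousOn (f := fun w => ((1 / (den h⁻¹ w) ^ 2) : ℂ))
    (hdc.mono hKU')
  refine ⟨C ^ 2 * (2 * max M 0), by positivity, fun ε hε => ?_⟩
  set A : Set ℂ := {w | w ∈ mob h '' K ∧ ε ≤ w.re ∧ w.re ≤ 2 * ε} with hA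
  have hAm : MeasurableSet A := by
    refine hK'.measurableSet.inter ?_
    exact (measurableSet_le measurable_const Complex.measurable_re).inter
      (measurableSet_le Complex.measurable_re measurable_const)
  have h1 : {z | z ∈ K ∧ ε ≤ (mob h z).re ∧ (mob h z).re ≤ 2 * ε} ⊆ mob h⁻¹ '' A := by
    rintro z ⟨hz, h2, h3⟩
    exact ⟨mob h z, ⟨⟨z, hz, rfl⟩, h2, h3⟩, mob_inv_mob h (hKU hz)⟩
  have h2 : volume (mob h⁻¹ '' A) ≤ ENNReal.ofReal (C ^ 2) * volume A := by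
    have h3 := addHaar_image_le_lintegral_abs_det_fderiv (volume : Measure ℂ) hAm
      (f := mob h⁻¹) (f' := fun w => (1 / (den h⁻¹ w) ^ 2) • (1 : ℂ →L[ℝ] ℂ))
      (fun w hw => (hasFDerivAt_mob h⁻¹ (hKU' hw.1)).hasFDerivWithinAt)
    refine h3.trans ?_
    rw [← setLIntegral_const]
    refine setLIntegral_mono' hAm fun w hw => ENNReal.ofReal_le_ofReal ?_
    rw [det_clm]
    have h4 := hC w hw.1
    simp only [smul_apply, one_apply_eq_self, smul_eq_mul, mul_one]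
    have h6 : (1 / (den h⁻¹ w) ^ 2 : ℂ).re * ((1 / (den h⁻¹ w) ^ 2 : ℂ) * I).im -
        ((1 / (den h⁻¹ w) ^ 2 : ℂ) * I).re * (1 / (den h⁻¹ w) ^ 2 : ℂ).im =
        ‖(1 / (den h⁻¹ w) ^ 2 : ℂ)‖ ^ 2 := by
      rw [Complex.sq_norm, normSq_apply]
      generalize (1 / (den h⁻¹ w) ^ 2 : ℂ) = c
      simp
    rw [h6, abs_of_nonneg (by positivity)]
    exact pow_le_pow_left₀ (norm_nonneg _) h4 2
  have h3 : volume A ≤ ENNReal.ofReal ε * ENNReal.ofReal (2 * max M 0) := by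
    have h4 : A ⊆ {w : ℂ | ε ≤ w.re ∧ w.re ≤ 2 * ε ∧ |w.im| ≤ max M 0} := by
      rintro w ⟨hw, h5, h6⟩
      exact ⟨h5, h6, (hM w hw).trans (le_max_left _ _)⟩
    refine (measure_mono h4).trans ((volume_rect _ _ _).trans_eq ?_)
    congr 2
    ring
  have h4 : volume {z | z ∈ K ∧ ε ≤ (mob h z).re ∧ (mob h z).re ≤ 2 * ε} ≤
      ENNReal.ofReal (C ^ 2 * (2 * max M 0) * ε) := by
    refine (measure_mono h1).trans (h2.trans ?_)
    refine (mul_le_mul_right h3 _).trans_eq ?_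
    rw [← ENNReal.ofReal_mul hε.le, ← ENNReal.ofReal_mul (by positivity)]
    congr 1
    ring
  exact ENNReal.toReal_le_of_le_ofReal (by positivity) h4

/-- `WDO O β κ`: the continuous one-form `β` has weak exterior derivative `κ dx dy` on the open
set `O`, with `κ` continuous on the upper half-plane. -/
def WDO (O : Set ℂ) (β : ℂ → ℂ →L[ℝ] ℝ) (κ : ℂ → ℝ) : Prop :=
  ContinuousOn β UU ∧ ContinuousOn κ UU ∧
    ∀ f : ℂ → ℝ, ContDiff ℝ 1 f → HasCompactSupport f → tsupport f ⊆ O →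
      ∫ z, f z * κ z = - ∫ z, wedge (fderiv ℝ f z) (β z)

section WDO

variable {O : Set ℂ}

lemma WD.wdo {β : ℂ → ℂ →L[ℝ] ℝ} {κ : ℂ → ℝ} (h : WD β κ) (hO : O ⊆ UU) : WDO O β κ :=
  ⟨h.1, h.2.1, fun f hf hfc hfO => h.2.2 f hf hfc (hfO.trans hO)⟩

lemma WDO.add {β β' : ℂ → ℂ →L[ℝ] ℝ} {κ κ' : ℂ → ℝ} (hO : O ⊆ UU) (h : WDO O β κ)
    (h' : WDO O β' κ') : WDO O (fun z => β z + β' z) (fun z => κ z + κ' z) := by
  refine ⟨h.1.add h'.1, h.2.1.add h'.2.1, fun f hf hfc hfU' => ?_⟩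
  have hfU := hfU'.trans hO
  simp only [mul_add, wedge_add_right]
  rw [integral_add (integrable_mul hf.continuous.continuousOn hfc hfU h.2.1)
    (integrable_mul hf.continuous.continuousOn hfc hfU h'.2.1),
    integral_add (integrable_wedge hf hfc hfU h.1) (integrable_wedge hf hfc hfU h'.1),
    h.2.2 f hf hfc hfU', h'.2.2 f hf hfc hfU']
  ring

lemma WDO.smul_const (c : ℝ) {β : ℂ → ℂ →L[ℝ] ℝ} {κ : ℂ → ℝ} (h : WDO O β κ) :
    WDO O (fun z => c • β z) (fun z => c * κ z) := by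
  refine ⟨h.1.const_smul c, continuousOn_const.mul h.2.1, fun f hf hfc hfU => ?_⟩
  simp only [wedge_smul_right, integral_const_mul]
  rw [← mul_neg, ← h.2.2 f hf hfc hfU, ← integral_const_mul]
  congr 1
  ext z
  ring

lemma WDO.congr {β β' : ℂ → ℂ →L[ℝ] ℝ} {κ κ' : ℂ → ℝ} (h : WDO O β κ)
    (cβ : ContinuousOn β' UU) (cκ : ContinuousOn κ' UU)
    (hβ : ∀ z ∈ O, β' z = β z) (hκ : ∀ z ∈ O, κ' z = κ z) : WDO O β' κ' := by
  refine ⟨cβ, cκ, fun f hf hfc hfU => ?_⟩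
  have h1 : ∫ z, f z * κ' z = ∫ z, f z * κ z := by
    congr 1
    ext z
    by_cases hz : z ∈ O
    · rw [hκ z hz]
    · simp [image_eq_zero_of_notMem_tsupport fun h => hz (hfU h)]
  have h2 : ∫ z, wedge (fderiv ℝ f z) (β' z) = ∫ z, wedge (fderiv ℝ f z) (β z) := by
    congr 1
    ext z
    by_cases hz : z ∈ O
    · rw [hβ z hz]
    · have h0 : f =ᶠ[𝓝 z] fun _ => 0 :=
        notMem_tsupport_iff_eventuallyEq.mp fun h => hz (hfU h)
      rw [h0.fderiv_eq]
      simp [wedge]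
  rw [h1, h2, h.2.2 f hf hfc hfU]

lemma WDO.neg {β : ℂ → ℂ →L[ℝ] ℝ} {κ : ℂ → ℝ} (h : WDO O β κ) :
    WDO O (fun z => - β z) (fun z => - κ z) := by
  refine (h.smul_const (-1)).congr h.1.neg h.2.1.neg (fun z _ => ?_) (fun z _ => ?_)
  · ext w
    simp
  · ring

lemma WDO.sub {β β' : ℂ → ℂ →L[ℝ] ℝ} {κ κ' : ℂ → ℝ} (hO : O ⊆ UU) (h : WDO O β κ)
    (h' : WDO O β' κ') : WDO O (fun z => β z - β' z) (fun z => κ z - κ' z) := by
  simpa [sub_eq_add_neg] using WDO.add hO h h'.neg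

lemma WDO.leibniz {θ : ℂ → ℝ} {β : ℂ → ℂ →L[ℝ] ℝ} {κ : ℂ → ℝ} (hO : O ⊆ UU)
    (hθ : ContDiffOn ℝ 1 θ UU) (h : WDO O β κ) :
    WDO O (fun z => θ z • β z) (fun z => wedge (fderiv ℝ θ z) (β z) + θ z * κ z) := by
  have hθ' := hθ.continuousOn_fderiv_of_isOpen isOpen_UU (by simp)
  refine ⟨hθ.continuousOn.smul h.1, (ContinuousOn.wedge hθ' h.1).add (hθ.continuousOn.mul h.2.1),
    fun f hf hfc hfU' => ?_⟩
  have hfU := hfU'.trans hO
  have hs : tsupport (fun z => f z * θ z) ⊆ tsupport f :=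
    closure_mono (fun x hx => by intro h; exact hx (by simp [h]))
  have h1 := h.2.2 _ (contDiff_mul_loc isOpen_UU hf hfU hθ) hfc.mul_right (hs.trans hfU')
  simp only [fderiv_mul_loc isOpen_UU hf hfU hθ, wedge_add_left, wedge_smul_left] at h1
  rw [integral_add] at h1
  · simp only [mul_add, wedge_smul_right]
    rw [integral_add]
    · have e : ∫ z, f z * (θ z * κ z) = ∫ z, f z * θ z * κ z := by
        congr 1; ext z; ring
      rw [e, h1]
      ring
    · exact integrable_mul hf.continuous.continuousOn hfc hfU (ContinuousOn.wedge hθ' h.1)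
    · exact integrable_mul hf.continuous.continuousOn hfc hfU (hθ.continuousOn.mul h.2.1)
  · exact integrable_mul hf.continuous.continuousOn hfc hfU (ContinuousOn.wedge hθ' h.1)
  · have := integrable_wedge hf hfc hfU (hθ.continuousOn.smul h.1)
    simpa only [Pi.smul_apply', wedge_smul_right] using this

lemma WDO.unique {β : ℂ → ℂ →L[ℝ] ℝ} {κ κ' : ℂ → ℝ} (hO : O ⊆ UU) (hOo : IsOpen O)
    (h : WDO O β κ) (h' : WDO O β κ') : ∀ z ∈ O, κ z = κ' z := by
  have h0 : ∀ᵐ z, z ∈ O → κ z - κ' z = 0 := by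
    refine hOo.ae_eq_zero_of_integral_contDiff_smul_eq_zero (μ := (volume : Measure ℂ)) ?_ ?_
    · exact ((h.2.1.sub h'.2.1).mono hO).locallyIntegrableOn hOo.measurableSet
    · intro g hg hgc hgU'
      have hgU := hgU'.trans hO
      simp only [smul_eq_mul, mul_sub]
      have hg1 : ContDiff ℝ 1 g := hg.of_le (by simp)
      rw [integral_sub (integrable_mul hg.continuous.continuousOn hgc hgU h.2.1)
        (integrable_mul hg.continuous.continuousOn hgc hgU h'.2.1),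
        h.2.2 g hg1 hgc hgU', h'.2.2 g hg1 hgc hgU', sub_self]
  intro z hz
  by_contra hne
  have hcont : ContinuousOn (fun z => κ z - κ' z) O := (h.2.1.sub h'.2.1).mono hO
  have hopen : IsOpen (O ∩ {z | κ z - κ' z ≠ 0}) := by
    have := hcont.isOpen_inter_preimage hOo (isOpen_compl_singleton (x := (0:ℝ)))
    exact this
  have hmem : z ∈ O ∩ {z | κ z - κ' z ≠ 0} := ⟨hz, sub_ne_zero.mpr hne⟩
  have hpos : 0 < volume (O ∩ {z | κ z - κ' z ≠ 0}) := hopen.measure_pos _ ⟨z, hmem⟩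
  have hzero : volume (O ∩ {z | κ z - κ' z ≠ 0}) = 0 := by
    refine measure_mono_null ?_ (ae_iff.mp h0)
    rintro w ⟨hw, hw'⟩
    simp only [Set.mem_ofPred_eq]
    push Not
    exact ⟨hw, hw'⟩
  exact absurd hzero hpos.ne'

end WDO

end Pool.Agent.CG
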