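import Pool.Agent.Lib.MP_35454f_h77.Stokes

/-!
# Stokes inequality on a domain with geodesic boundary: local and global version
-/

set_option autoImplicit false

open MeasureTheory Filter Topology Complex Set
open UpperHalfPlane hiding I
open scoped ContDiff Manifold MatrixGroups

namespace Pool.Agent.CG

variable {Γ : Subgroup SL(2, ℝ)} {S : Set ℂ}

/-- The cutoff profile: `0` for `s ≤ 1` and `1` for `s ≥ 2`. -/
noncomputable def prof (s : ℝ) : ℝ := Real.smoothTransition (s - 1)

lemma contDiff_prof : ContDiff ℝ ∞ prof :=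
  Real.smoothTransition.contDiff.comp (contDiff_id.sub contDiff_const)

lemma prof_zero {s : ℝ} (h : s ≤ 1) : prof s = 0 :=
  Real.smoothTransition.zero_of_nonpos (by linarith)

lemma prof_one {s : ℝ} (h : 2 ≤ s) : prof s = 1 :=
  Real.smoothTransition.one_of_one_le (by linarith)

lemma prof_nonneg (s : ℝ) : 0 ≤ prof s := Real.smoothTransition.nonneg _

lemma prof_le_one (s : ℝ) : prof s ≤ 1 := Real.smoothTransition.le_one _

lemma prof_mono : Monotone prof := fun _ _ h =>
  Real.smoothTransition.monotone (sub_le_sub_right h 1)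

lemma deriv_prof_nonneg (s : ℝ) : 0 ≤ deriv prof s := prof_mono.deriv_nonneg

lemma deriv_prof_zero {s : ℝ} (h : s < 1 ∨ 2 < s) : deriv prof s = 0 := by
  rcases h with h | h
  · have : prof =ᶠ[𝓝 s] fun _ => 0 := by
      filter_upwards [gt_mem_nhds h] with x hx using prof_zero hx.le
    rw [this.deriv_eq, deriv_const]
  · have : prof =ᶠ[𝓝 s] fun _ => 1 := by
      filter_upwards [lt_mem_nhds h] with x hx using prof_one hx.le
    rw [this.deriv_eq, deriv_const]

lemma continuous_deriv_prof : Continuous (deriv prof) :=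
  contDiff_prof.continuous_deriv (by simp)

lemma exists_prof_bound : ∃ C : ℝ, 0 ≤ C ∧ ∀ s, deriv prof s ≤ C := by
  obtain ⟨C, hC⟩ := (isCompact_Icc (a := (1:ℝ)) (b := 2)).exists_bound_of_continuousOn
    continuous_deriv_prof.continuousOn
  refine ⟨max C 0, le_max_right _ _, fun s => ?_⟩
  by_cases hs : s ∈ Icc (1:ℝ) 2
  · exact (le_abs_self _).trans ((hC s hs).trans (le_max_left _ _))
  · rw [deriv_prof_zero]
    · exact le_max_right _ _
    · rw [mem_Icc, not_and_or, not_le, not_le] at hs
      exact hs

/-- **Local Stokes inequality** at a boundary point. -/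
lemma stokes_local {V : Set ℂ} (hVo : IsOpen V) (hVU : V ⊆ UU) (h : SL(2, ℝ))
    (hV : ∀ w ∈ V, (w ∈ S ↔ 0 ≤ (mob h w).re))
    {β : ℂ → ℂ →L[ℝ] ℝ} {κ : ℂ → ℝ} (hw : WDO (interior S) β κ)
    (hb : ∀ w ∈ V, (mob h w).re = 0 → w ∉ interior S → 0 ≤ wedge (drh h w) (β w))
    {f : ℂ → ℝ} (hf : ContDiff ℝ 1 f) (hfc : HasCompactSupport f) (hfV : tsupport f ⊆ V)
    (hf0 : ∀ z, 0 ≤ f z) :
    ∫ z in interior S, f z * κ z ≤ - ∫ z in interior S, wedge (fderiv ℝ f z) (β z) := by
  have hfU : tsupport f ⊆ UU := hfV.trans hVU
  set r : ℂ → ℝ := fun w => (mob h w).re with hr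
  have hrc : ContinuousOn r UU := (contDiffOn_rh h).continuousOn
  have hKc : IsCompact (tsupport f) := hfc
  -- the interior of S inside V
  have hint : ∀ w ∈ V, (w ∈ interior S ↔ 0 < r w) := by
    intro w hwV
    constructor
    · intro hwi
      have h1 : 0 ≤ r w := (hV w hwV).mp (interior_subset hwi)
      by_contra hne
      have h0 : r w = 0 := le_antisymm (not_lt.mp hne) h1
      -- points with negative real part arbitrarily near
      have hwU := hVU hwV
      have h2 : Tendsto (cur h w (-1)) (𝓝[>] 0) (𝓝 w) :=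
        (cur_tendsto h hwU (-1)).mono_left nhdsWithin_le_nhds
      have h3 : ∀ᶠ s in 𝓝[>] (0:ℝ), cur h w (-1) s ∈ interior S ∩ V :=
        h2 (inter_mem (isOpen_interior.mem_nhds hwi) (hVo.mem_nhds hwV))
      have h4 := (mob_cur h hwU (-1)).filter_mono (nhdsWithin_le_nhds (s := Ioi 0))
      obtain ⟨s, hs, hs', hs0⟩ := (h3.and (h4.and self_mem_nhdsWithin)).exists
      have h5 := (hV _ hs.2).mp (interior_subset hs.1)
      rw [hs'] at h5
      have h6 : (mob h w + s • (-1 : ℂ)).re = -s := by
        have h7 : (mob h w).re = 0 := h0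
        simp [h7]
      rw [h6] at h5
      have : (0:ℝ) < s := hs0
      linarith
    · intro h0
      rw [mem_interior_iff_mem_nhds]
      have h1 : ∀ᶠ x in 𝓝 w, 0 < r x :=
        (hrc.continuousAt (isOpen_UU.mem_nhds (hVU hwV))).eventually_const_lt h0
      filter_upwards [h1, hVo.mem_nhds hwV] with x hx hxV
      exact (hV x hxV).mpr hx.le
  -- the cut off functions
  set P : ℝ → ℂ → ℝ := fun ε w => prof (r w / ε) with hP
  have hPc : ∀ ε : ℝ, ContDiffOn ℝ 1 (P ε) UU := fun ε =>
    (contDiff_prof.of_le (by simp)).comp_contDiffOn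
      (((contDiffOn_rh h).of_le (by simp)).div_const ε)
  have hPd : ∀ ε : ℝ, ∀ w ∈ UU, fderiv ℝ (P ε) w = (deriv prof (r w / ε) / ε) • drh h w := by
    intro ε w hwU
    have h1 : HasFDerivAt (fun w => r w / ε) ((ε⁻¹) • drh h w) w := by
      simpa only [div_eq_inv_mul] using (hasFDerivAt_rh h hwU).const_mul ε⁻¹
    have h2 := ((contDiff_prof.differentiable (by simp) (r w / ε)).hasDerivAt).comp_hasFDerivAt w h1
    have h3 : HasFDerivAt (P ε) (deriv prof (r w / ε) • (ε⁻¹) • drh h w) w := h2
    rw [h3.fderiv, smul_smul, ← div_eq_mul_inv]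
  have hfP : ∀ ε : ℝ, 0 < ε → tsupport (fun z => f z * P ε z) ⊆ interior S := by
    intro ε hε
    have h1 : tsupport (fun z => f z * P ε z) ⊆ {z | z ∈ tsupport f ∧ ε ≤ r z} := by
      refine closure_minimal ?_ ?_
      · intro z hz
        have h2 : f z ≠ 0 := fun h0 => hz (by simp [h0])
        refine ⟨subset_tsupport f h2, ?_⟩
        by_contra hlt
        push Not at hlt
        apply hz
        have : P ε z = 0 := prof_zero (by rw [div_le_one hε]; exact hlt.le)
        simp [this]
      · have h3 : ContinuousOn r (tsupport f) := hrc.mono hfU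
        exact h3.preimage_isClosed_of_isClosed hKc.isClosed isClosed_Ici
    intro z hz
    obtain ⟨h2, h3⟩ := h1 hz
    exact (hint z (hfV h2)).mpr (hε.trans_le h3)
  -- the identity for the cut off functions
  have key : ∀ ε : ℝ, 0 < ε →
      (∫ z, P ε z * (f z * κ z + wedge (fderiv ℝ f z) (β z))) =
        - ∫ z, f z * (deriv prof (r z / ε) / ε) * wedge (drh h z) (β z) := by
    intro ε hε
    have hFP : ContDiff ℝ 1 (fun z => f z * P ε z) := contDiff_mul_loc isOpen_UU hf hfU (hPc ε)
    have hFc : HasCompactSupport (fun z => f z * P ε z) := hfc.mul_right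
    have h1 := hw.2.2 _ hFP hFc (hfP ε hε)
    have hsub : tsupport (fun z => f z * P ε z) ⊆ tsupport f :=
      closure_mono (fun x hx => by intro h; exact hx (by simp [h]))
    simp only [fderiv_mul_loc isOpen_UU hf hfU (hPc ε), wedge_add_left, wedge_smul_left] at h1
    have e1 : ∀ z, f z * wedge (fderiv ℝ (P ε) z) (β z) =
        f z * (deriv prof (r z / ε) / ε) * wedge (drh h z) (β z) := by
      intro z
      by_cases hz : z ∈ UU
      · rw [hPd ε z hz, wedge_smul_left]; ring
      · simp [image_eq_zero_of_notMem_tsupport fun hh => hz (hfU hh)]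
    have i1 : Integrable fun z => f z * wedge (fderiv ℝ (P ε) z) (β z) :=
      integrable_mul hf.continuous.continuousOn hfc hfU
        (ContinuousOn.wedge ((hPc ε).continuousOn_fderiv_of_isOpen isOpen_UU (by simp)) hw.1)
    have i2 : Integrable fun z => P ε z * wedge (fderiv ℝ f z) (β z) := by
      have := integrable_wedge hf hfc hfU ((hPc ε).continuousOn.smul hw.1)
      simpa only [Pi.smul_apply', wedge_smul_right] using this
    have i3 : Integrable fun z => f z * P ε z * κ z := by
      have := integrable_mul (f := f) (g := fun z => P ε z * κ z) hf.continuous.continuousOn hfc hfU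
        ((hPc ε).continuousOn.mul hw.2.1)
      exact this.congr (Eventually.of_forall fun z => by simp only; ring)
    rw [integral_add i1 i2] at h1
    simp only [e1] at h1
    have e2 : ∀ z, P ε z * (f z * κ z + wedge (fderiv ℝ f z) (β z)) =
        f z * P ε z * κ z + P ε z * wedge (fderiv ℝ f z) (β z) := fun z => by ring
    simp only [e2]
    rw [integral_add i3 i2]
    linarith
  -- the limit of the left-hand side
  set g : ℂ → ℝ := fun z => f z * κ z + wedge (fderiv ℝ f z) (β z) with hg
  have ig1 : Integrable fun z => f z * κ z :=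
    integrable_mul hf.continuous.continuousOn hfc hfU hw.2.1
  have ig2 : Integrable fun z => wedge (fderiv ℝ f z) (β z) := integrable_wedge hf hfc hfU hw.1
  have ig : Integrable g := ig1.add ig2
  have hg0 : ∀ z, z ∉ tsupport f → g z = 0 := by
    intro z hz
    have h0 : f =ᶠ[𝓝 z] fun _ => 0 := notMem_tsupport_iff_eventuallyEq.mp hz
    simp only [hg]
    rw [h0.fderiv_eq, h0.self_of_nhds]
    simp [wedge]
  have lim : Tendsto (fun n : ℕ => ∫ z, P (1 / ((n:ℝ) + 1)) z * g z) atTop
      (𝓝 (∫ z, (interior S).indicator g z)) := by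
    refine tendsto_integral_of_dominated_convergence (fun z => |g z|) ?_ ig.abs ?_ ?_
    · intro n
      have h1 : ContinuousOn (P (1 / ((n:ℝ) + 1))) UU := (hPc _).continuousOn
      have h2 : (fun z => P (1 / ((n:ℝ) + 1)) z * g z) =
          fun z => (UU.indicator (P (1 / ((n:ℝ) + 1))) z) * g z := by
        ext z
        by_cases hz : z ∈ UU
        · rw [indicator_of_mem hz]
        · rw [indicator_of_notMem hz, hg0 z fun hh => hz (hfU hh)]; simp
      rw [h2]
      refine AEStronglyMeasurable.mul ?_ ig.aestronglyMeasurable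
      rw [aestronglyMeasurable_indicator_iff isOpen_UU.measurableSet]
      exact h1.aestronglyMeasurable isOpen_UU.measurableSet
    · intro n
      refine Eventually.of_forall fun z => ?_
      rw [Real.norm_eq_abs, abs_mul, abs_of_nonneg (prof_nonneg _)]
      exact mul_le_of_le_one_left (abs_nonneg _) (prof_le_one _)
    · refine Eventually.of_forall fun z => ?_
      by_cases hz : z ∈ tsupport f
      · have hzV := hfV hz
        by_cases hzi : z ∈ interior S
        · rw [indicator_of_mem hzi]
          have h0 := (hint z hzV).mp hzi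
          have h1 : ∀ᶠ n : ℕ in atTop, P (1 / ((n:ℝ) + 1)) z * g z = g z := by
            have h2 : Tendsto (fun n : ℕ => 2 * (1 / ((n:ℝ) + 1))) atTop (𝓝 (2 * 0)) :=
              tendsto_one_div_add_atTop_nhds_zero_nat.const_mul 2
            rw [mul_zero] at h2
            filter_upwards [h2.eventually_lt_const h0] with n hn
            have hn0 : (0:ℝ) < 1 / ((n:ℝ) + 1) := by positivity
            have : P (1 / ((n:ℝ) + 1)) z = 1 := prof_one (by rw [le_div_iff₀ hn0]; exact hn.le)
            rw [this, one_mul]
          exact tendsto_const_nhds.congr' (h1.mono fun n hn => hn.symm)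
        · rw [indicator_of_notMem hzi]
          have h0 : r z ≤ 0 := not_lt.mp fun hh => hzi ((hint z hzV).mpr hh)
          have h1 : ∀ n : ℕ, P (1 / ((n:ℝ) + 1)) z * g z = 0 := by
            intro n
            have hn0 : (0:ℝ) < 1 / ((n:ℝ) + 1) := by positivity
            have : P (1 / ((n:ℝ) + 1)) z = 0 :=
              prof_zero ((div_nonpos_of_nonpos_of_nonneg h0 hn0.le).trans zero_le_one)
            rw [this, zero_mul]
          simp only [h1]
          exact tendsto_const_nhds
      · have h1 : (interior S).indicator g z = 0 := by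
          classical
          rw [indicator_apply, hg0 z hz]
          simp
        rw [h1, hg0 z hz]
        simp
  -- the upper bound for the right-hand side
  obtain ⟨C, hC0, hC⟩ := strip_measure hKc hfU h
  obtain ⟨C1, hC10, hC1⟩ := exists_prof_bound
  obtain ⟨M, hM⟩ := hKc.exists_bound_of_continuousOn hf.continuous.continuousOn
  set M' := max M 0 with hM'
  have hfM : ∀ z, f z ≤ M' := by
    intro z
    by_cases hz : z ∈ tsupport f
    · exact (le_abs_self _).trans ((hM z hz).trans (le_max_left _ _))
    · rw [image_eq_zero_of_notMem_tsupport hz]; exact le_max_right _ _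
  have hbound : ∀ δ : ℝ, 0 < δ → ∃ ε₀ : ℝ, 0 < ε₀ ∧ ∀ ε : ℝ, 0 < ε → ε < ε₀ →
      ∫ z, P ε z * g z ≤ δ * (M' * C1 * C) := by
    intro δ hδ
    -- near the boundary the wedge is at least `-δ`
    have hwc : ContinuousOn (fun z => wedge (drh h z) (β z)) UU :=
      ContinuousOn.wedge (continuousOn_drh h) hw.1
    set B : Set ℂ := {z | z ∈ tsupport f ∧ (0 ≤ r z ∧ wedge (drh h z) (β z) ≤ -δ)} with hB
    have hBc : IsCompact B := by
      have h1 : ContinuousOn (fun z => (r z, wedge (drh h z) (β z))) (tsupport f) :=
        (hrc.mono hfU).prodMk (hwc.mono hfU)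
      have h2 := h1.preimage_isClosed_of_isClosed hKc.isClosed
        ((isClosed_Ici (a := (0:ℝ))).prod (isClosed_Iic (a := -δ)))
      exact hKc.of_isClosed_subset h2 inter_subset_left
    have hBr : ∃ ε₀ : ℝ, 0 < ε₀ ∧ ∀ z ∈ B, 2 * ε₀ ≤ r z := by
      rcases B.eq_empty_or_nonempty with hBe | hBn
      · exact ⟨1, one_pos, by simp [hBe]⟩
      · obtain ⟨z₀, hz₀, hmin⟩ := hBc.exists_isMinOn hBn (hrc.mono fun z hz => hfU hz.1)
        have h0 : 0 < r z₀ := by
          refine lt_of_le_of_ne hz₀.2.1 fun h0 => ?_
          have := hb z₀ (hfV hz₀.1) h0.symm fun hi => by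
            have h3 := (hint z₀ (hfV hz₀.1)).mp hi
            rw [← h0] at h3
            exact lt_irrefl _ h3
          linarith [hz₀.2.2]
        exact ⟨r z₀ / 2, by positivity, fun z hz => by
          have : r z₀ ≤ r z := hmin hz
          linarith⟩
    obtain ⟨ε₀, hε₀, hmin⟩ := hBr
    refine ⟨ε₀, hε₀, fun ε hε hlt => ?_⟩
    rw [key ε hε, ← integral_neg]
    set A : Set ℂ := {z | z ∈ tsupport f ∧ ε ≤ (mob h z).re ∧ (mob h z).re ≤ 2 * ε} with hA
    have hAc : IsCompact A := by
      have h2 := (hrc.mono hfU).preimage_isClosed_of_isClosed hKc.isClosed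
        (isClosed_Icc (a := ε) (b := 2 * ε))
      exact hKc.of_isClosed_subset h2 inter_subset_left
    have hle : ∀ z, -(f z * (deriv prof (r z / ε) / ε) * wedge (drh h z) (β z)) ≤
        A.indicator (fun _ => δ * (M' * C1) / ε) z := by
      intro z
      by_cases hzA : z ∈ A
      · rw [indicator_of_mem hzA]
        have hzB : -δ ≤ wedge (drh h z) (β z) := by
          by_contra hlt'
          push Not at hlt'
          have := hmin z ⟨hzA.1, hε.le.trans hzA.2.1, hlt'.le⟩
          have h3 : r z ≤ 2 * ε := hzA.2.2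
          linarith
        have hc0 : 0 ≤ f z * (deriv prof (r z / ε) / ε) :=
          mul_nonneg (hf0 z) (div_nonneg (deriv_prof_nonneg _) hε.le)
        have hc1 : f z * (deriv prof (r z / ε) / ε) ≤ M' * (C1 / ε) :=
          mul_le_mul (hfM z) (div_le_div_of_nonneg_right (hC1 _) hε.le)
            (div_nonneg (deriv_prof_nonneg _) hε.le) (le_max_right _ _)
        calc -(f z * (deriv prof (r z / ε) / ε) * wedge (drh h z) (β z))
            = (f z * (deriv prof (r z / ε) / ε)) * (-wedge (drh h z) (β z)) := by ring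
          _ ≤ (f z * (deriv prof (r z / ε) / ε)) * δ :=
              mul_le_mul_of_nonneg_left (by linarith) hc0
          _ ≤ (M' * (C1 / ε)) * δ := mul_le_mul_of_nonneg_right hc1 hδ.le
          _ = δ * (M' * C1) / ε := by ring
      · rw [indicator_of_notMem hzA]
        refine le_of_eq ?_
        by_cases hz : z ∈ tsupport f
        · have h2 : deriv prof (r z / ε) = 0 := by
            apply deriv_prof_zero
            by_contra hcon
            rw [not_or, not_lt, not_lt] at hcon
            apply hzA
            refine ⟨hz, ?_, ?_⟩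
            · have := hcon.1; rw [le_div_iff₀ hε] at this; linarith
            · have := hcon.2; rw [div_le_iff₀ hε] at this; linarith
          rw [h2]; ring
        · rw [image_eq_zero_of_notMem_tsupport hz]; ring
    have hi1 : Integrable fun z => -(f z * (deriv prof (r z / ε) / ε) * wedge (drh h z) (β z)) := by
      have h3 : ContinuousOn (fun z => (deriv prof (r z / ε) / ε) * wedge (drh h z) (β z)) UU :=
        ((continuous_deriv_prof.comp_continuousOn (hrc.div_const ε)).div_const ε).mul hwc
      have := integrable_mul (f := f) hf.continuous.continuousOn hfc hfU h3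
      refine this.neg.congr (Eventually.of_forall fun z => ?_)
      simp only [Pi.neg_apply]
      ring
    have hi2 : Integrable (A.indicator fun _ => δ * (M' * C1) / ε) :=
      (integrableOn_const hAc.measure_lt_top.ne).integrable_indicator hAc.measurableSet
    refine (integral_mono hi1 hi2 hle).trans ?_
    rw [integral_indicator_const _ hAc.measurableSet, smul_eq_mul]
    have h4 := hC ε hε
    have h5 : (volume : Measure ℂ).real A ≤ C * ε := h4
    calc (volume : Measure ℂ).real A * (δ * (M' * C1) / ε)
        ≤ (C * ε) * (δ * (M' * C1) / ε) :=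
          mul_le_mul_of_nonneg_right h5 (by positivity)
      _ = δ * (M' * C1 * C) := by field_simp
  have hfin : ∫ z, (interior S).indicator g z ≤ 0 := by
    by_contra hpos
    push Not at hpos
    set I0 := ∫ z, (interior S).indicator g z with hI0
    obtain ⟨ε₀, hε₀, hb2⟩ := hbound (I0 / (2 * (M' * C1 * C + 1))) (by positivity)
    have h2 : Tendsto (fun n : ℕ => (1 / ((n:ℝ) + 1))) atTop (𝓝 0) :=
      tendsto_one_div_add_atTop_nhds_zero_nat
    have h3 : I0 ≤ I0 / (2 * (M' * C1 * C + 1)) * (M' * C1 * C) := by
      refine le_of_tendsto lim ?_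
      filter_upwards [h2.eventually_lt_const hε₀] with n hn
      exact hb2 _ (by positivity) hn
    have h4 : I0 / (2 * (M' * C1 * C + 1)) * (M' * C1 * C) ≤ I0 / 2 := by
      have h5 : 0 ≤ M' * C1 * C := by positivity
      rw [div_mul_eq_mul_div, div_le_div_iff₀ (by positivity) (by positivity)]
      nlinarith
    linarith
  rw [integral_indicator isOpen_interior.measurableSet] at hfin
  simp only [hg] at hfin
  rw [integral_add ig1.integrableOn ig2.integrableOn] at hfin
  linarith

end Pool.Agent.CG
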