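import Pool.Agent.Lib.MP_35454f_h77.Stokes2

/-!
# Stokes inequality on a domain with geodesic boundary: global version
-/

set_option autoImplicit false

open MeasureTheory Filter Topology Complex Set
open UpperHalfPlane hiding I
open scoped ContDiff Manifold MatrixGroups

namespace Pool.Agent.CG

variable {Γ : Subgroup SL(2, ℝ)} {S : Set ℂ}

lemma fderiv_zero_off {f : ℂ → ℝ} {z : ℂ} (hz : z ∉ tsupport f) : f z = 0 ∧ fderiv ℝ f z = 0 := by
  have h0 : f =ᶠ[𝓝 z] fun _ => 0 := notMem_tsupport_iff_eventuallyEq.mp hz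
  exact ⟨h0.self_of_nhds, by rw [h0.fderiv_eq]; simp⟩

/-- Every point has a neighbourhood in which the Stokes inequality holds. -/
lemma stokes_point (hS : Dom Γ S) {β : ℂ → ℂ →L[ℝ] ℝ} {κ : ℂ → ℝ} (hw : WDO (interior S) β κ)
    (hb : ∀ z ∈ S, z ∉ interior S → ∀ h, Ch S h z → 0 ≤ wedge (drh h z) (β z)) {z₀ : ℂ}
    (hz₀ : z₀ ∈ UU) :
    ∃ V : Set ℂ, IsOpen V ∧ z₀ ∈ V ∧ ∀ f : ℂ → ℝ, ContDiff ℝ 1 f → HasCompactSupport f →
      tsupport f ⊆ V → (∀ z, 0 ≤ f z) →
      ∫ z in interior S, f z * κ z ≤ - ∫ z in interior S, wedge (fderiv ℝ f z) (β z) := by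
  by_cases hi : z₀ ∈ interior S
  · refine ⟨interior S, isOpen_interior, hi, fun f hf hfc hfV _ => ?_⟩
    rw [setIntegral_eq_integral_of_forall_compl_eq_zero,
      setIntegral_eq_integral_of_forall_compl_eq_zero]
    · exact (hw.2.2 f hf hfc hfV).le
    · intro z hz
      rw [(fderiv_zero_off fun h => hz (hfV h)).2, wedge_zero_left]
    · intro z hz
      rw [(fderiv_zero_off fun h => hz (hfV h)).1, zero_mul]
  by_cases hz : z₀ ∈ S
  · obtain ⟨h, hc⟩ := hS.bd z₀ hz hi
    obtain ⟨V, hVsub, hVo, hzV⟩ := mem_nhds_iff.mp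
      (inter_mem hc.2 (isOpen_UU.mem_nhds hz₀))
    refine ⟨V, hVo, hzV, fun f hf hfc hfV hf0 => ?_⟩
    refine stokes_local hVo (fun w hw => (hVsub hw).2) h (fun w hw => (hVsub hw).1) hw ?_
      hf hfc hfV hf0
    intro w hwV hre hwi
    have hwS : w ∈ S := (hVsub hwV).1.mpr hre.ge
    refine hb w hwS hwi h ⟨hre, ?_⟩
    filter_upwards [hVo.mem_nhds hwV] with x hx using (hVsub hx).1
  · have hcl : z₀ ∉ closure S := fun h => hz (hS.cl z₀ hz₀ h)
    refine ⟨(closure S)ᶜ, isClosed_closure.isOpen_compl, hcl, fun f hf hfc hfV _ => ?_⟩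
    have h0 : ∀ z ∈ interior S, f z = 0 ∧ fderiv ℝ f z = 0 := fun z hz' =>
      fderiv_zero_off fun h => hfV h (subset_closure (interior_subset hz'))
    rw [setIntegral_congr_fun (g := fun _ => (0:ℝ)) isOpen_interior.measurableSet
      fun z hz' => by simp only; rw [(h0 z hz').1, zero_mul],
      setIntegral_congr_fun (f := fun z => wedge (fderiv ℝ f z) (β z)) (g := fun _ => (0:ℝ))
        isOpen_interior.measurableSet
      fun z hz' => by simp only; rw [(h0 z hz').2, wedge_zero_left]]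
    simp

/-- **Stokes inequality.** -/
theorem stokes (hS : Dom Γ S) {β : ℂ → ℂ →L[ℝ] ℝ} {κ : ℂ → ℝ} (hw : WDO (interior S) β κ)
    (hb : ∀ z ∈ S, z ∉ interior S → ∀ h, Ch S h z → 0 ≤ wedge (drh h z) (β z))
    {f : ℂ → ℝ} (hf : ContDiff ℝ 1 f) (hfc : HasCompactSupport f) (hfU : tsupport f ⊆ UU)
    (hf0 : ∀ z, 0 ≤ f z) :
    ∫ z in interior S, f z * κ z ≤ - ∫ z in interior S, wedge (fderiv ℝ f z) (β z) := by
  have hKc : IsCompact (tsupport f) := hfc
  choose V hVo hzV hV using fun z : {z : ℂ // z ∈ UU} => stokes_point hS hw hb z.2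
  obtain ⟨t, ht⟩ := hKc.elim_finite_subcover V hVo
    (fun z hz => mem_iUnion.mpr ⟨⟨z, hfU hz⟩, hzV ⟨z, hfU hz⟩⟩)
  have hcov : tsupport f ⊆ ⋃ i : t, V i := by
    intro z hz
    have := ht hz
    simp only [mem_iUnion] at this
    obtain ⟨i, hi, hzi⟩ := this
    exact mem_iUnion.mpr ⟨⟨i, hi⟩, hzi⟩
  obtain ⟨ρ, hρ⟩ := SmoothPartitionOfUnity.exists_isSubordinate (modelWithCornersSelf ℝ ℂ)
    hKc.isClosed (fun i : t => V i) (fun i => hVo i) hcov
  have hρc : ∀ i, ContDiff ℝ 1 (ρ i) := fun i => (ρ i).contMDiff.contDiff.of_le (by simp)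
  set F : t → ℂ → ℝ := fun i z => ρ i z * f z with hF
  have hFc1 : ∀ i, ContDiff ℝ 1 (F i) := fun i => (hρc i).mul hf
  have hFcpt : ∀ i, HasCompactSupport (F i) := fun i => hfc.mul_left
  have hFs : ∀ i, tsupport (F i) ⊆ tsupport f := fun i =>
    closure_mono (fun x hx => by intro h; exact hx (by simp [hF, h]))
  have hFV : ∀ i, tsupport (F i) ⊆ V i := fun i =>
    (closure_mono (fun x hx => by intro h; exact hx (by simp [hF, h]))).trans (hρ i)
  have hF0 : ∀ i z, 0 ≤ F i z := fun i z => mul_nonneg (ρ.nonneg i z) (hf0 z)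
  have hsum : ∀ z, f z = ∑ i, F i z := by
    intro z
    by_cases hz : z ∈ tsupport f
    · have h1 := ρ.sum_eq_one hz
      rw [finsum_eq_sum_of_fintype] at h1
      simp only [hF]
      rw [← Finset.sum_mul, h1, one_mul]
    · have h0 := image_eq_zero_of_notMem_tsupport hz
      simp [hF, h0]
  have hdsum : ∀ z, fderiv ℝ f z = ∑ i, fderiv ℝ (F i) z := by
    intro z
    have h1 : f = fun z => ∑ i, F i z := funext hsum
    conv_lhs => rw [h1]
    exact fderiv_fun_sum fun i _ => (hFc1 i).differentiable one_ne_zero z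
  have hI : ∀ i, ∫ z in interior S, F i z * κ z ≤
      - ∫ z in interior S, wedge (fderiv ℝ (F i) z) (β z) := fun i =>
    hV i (F i) (hFc1 i) (hFcpt i) (hFV i) (hF0 i)
  have e1 : ∫ z in interior S, f z * κ z = ∑ i, ∫ z in interior S, F i z * κ z := by
    rw [← integral_finsetSum]
    · congr 1
      ext z
      rw [← Finset.sum_mul, ← hsum z]
    · intro i _
      exact (integrable_mul (hFc1 i).continuous.continuousOn (hFcpt i) ((hFs i).trans hfU)
        hw.2.1).integrableOn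
  have e2 : ∫ z in interior S, wedge (fderiv ℝ f z) (β z) =
      ∑ i, ∫ z in interior S, wedge (fderiv ℝ (F i) z) (β z) := by
    rw [← integral_finsetSum]
    · congr 1
      ext z
      rw [hdsum z]
      simp only [wedge, sum_apply, Finset.sum_mul, ← Finset.sum_sub_distrib]
    · intro i _
      exact (integrable_wedge (hFc1 i) (hFcpt i) ((hFs i).trans hfU) hw.1).integrableOn
  rw [e1, e2, ← Finset.sum_neg_distrib]
  exact Finset.sum_le_sum fun i _ => hI i

/-- Stokes formula for forms vanishing on the boundary. -/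
theorem stokes_eq (hS : Dom Γ S) {β : ℂ → ℂ →L[ℝ] ℝ} {κ : ℂ → ℝ} (hw : WDO (interior S) β κ)
    (hb : ∀ z ∈ S, z ∉ interior S → ∀ h, Ch S h z → wedge (drh h z) (β z) = 0)
    {f : ℂ → ℝ} (hf : ContDiff ℝ 1 f) (hfc : HasCompactSupport f) (hfU : tsupport f ⊆ UU)
    (hf0 : ∀ z, 0 ≤ f z) :
    ∫ z in interior S, f z * κ z = - ∫ z in interior S, wedge (fderiv ℝ f z) (β z) := by
  refine le_antisymm (stokes hS hw (fun z hz hi h hc => (hb z hz hi h hc).ge) hf hfc hfU hf0) ?_
  have h1 := stokes hS hw.neg (fun z hz hi h hc => by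
    rw [wedge_neg_right, hb z hz hi h hc, neg_zero]) hf hfc hfU hf0
  simp only [wedge_neg_right, mul_neg, integral_neg, neg_neg] at h1
  linarith

end Pool.Agent.CG
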